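import Pool.Agent.Helper82.FC.Sieve

/-!
# The polynomials `X ^ m + a`
-/

set_option autoImplicit false

namespace Pool.Agent.Helper82.FC

open Polynomial Finset Filter

/-- the product of the integers whose prime divisors are excluded -/
def bad {k : ℕ} (m : Fin k → ℕ) (a : Fin k → ℤ) : ℤ :=
  (∏ i, ((m i : ℤ) * a i)) *
    ∏ p ∈ (univ : Finset (Fin k × Fin k)).filter (fun p => p.1 ≠ p.2),
      ((-a p.1) ^ m p.2 - (-a p.2) ^ m p.1)

theorem dvd_sq_derivative {Om : Type} [Field Om] [IsAlgClosed Om] (Q : Om[X]) (hQ : Q ≠ 0)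
    (hQ' : derivative Q ≠ 0) (h : ∀ v, Q.IsRoot v → (derivative Q).IsRoot v) :
    Q ∣ derivative Q ^ 2 := by
  classical
  refine (IsAlgClosed.splits Q).dvd_of_roots_le_roots hQ ?_
  rw [Multiset.le_iff_count]
  intro v
  rw [count_roots, count_roots, Pool.Agent.H435R3.Weil.rm_pow _ _ hQ']
  by_cases hv : Q.IsRoot v
  · have h1 : 1 < rootMultiplicity v Q := (one_lt_rootMultiplicity_iff_isRoot hQ).2 ⟨hv, h v hv⟩
    have h2 := rootMultiplicity_sub_one_le_derivative_rootMultiplicity_of_ne_zero Q v hQ'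
    omega
  · rw [rootMultiplicity_eq_zero hv]
    exact Nat.zero_le _

/-- a polynomial takes one of two given values at a point where its derivative does not vanish -/
theorem exists_simple {Om : Type} [Field Om] [IsAlgClosed Om] (G : Om[X]) (hG : G.natDegree ≠ 0)
    (hG' : derivative G ≠ 0) (β γ : Om) (h : β ≠ γ) :
    ∃ v, (G.eval v = β ∨ G.eval v = γ) ∧ (derivative G).eval v ≠ 0 := by
  by_contra hcon
  push Not at hcon
  have hnd : ∀ b : Om, (G - C b).natDegree = G.natDegree := fun b => natDegree_sub_C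
  have hne : ∀ b : Om, G - C b ≠ 0 := fun b h0 => by
    have := hnd b
    rw [h0, natDegree_zero] at this
    exact hG this.symm
  have hder : ∀ b : Om, derivative (G - C b) = derivative G := fun b => by
    rw [derivative_sub, derivative_C, sub_zero]
  have hroot : ∀ (b v : Om), (G - C b).IsRoot v → G.eval v = b := fun b v hv => by
    rw [IsRoot, eval_sub, eval_C, sub_eq_zero] at hv
    exact hv
  have h1 : G - C β ∣ derivative G ^ 2 := by
    rw [← hder β]
    refine dvd_sq_derivative _ (hne β) (by rw [hder]; exact hG') fun v hv => ?_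
    rw [hder]
    exact hcon v (Or.inl (hroot β v hv))
  have h2 : G - C γ ∣ derivative G ^ 2 := by
    rw [← hder γ]
    refine dvd_sq_derivative _ (hne γ) (by rw [hder]; exact hG') fun v hv => ?_
    rw [hder]
    exact hcon v (Or.inr (hroot γ v hv))
  have hcop : IsCoprime (G - C β) (G - C γ) := by
    have hβγ : γ - β ≠ 0 := sub_ne_zero.2 h.symm
    refine ⟨C (γ - β)⁻¹, -C (γ - β)⁻¹, ?_⟩
    have : C (γ - β)⁻¹ * (C γ - C β) = (1 : Om[X]) := by
      rw [← C_sub, ← C_mul, inv_mul_cancel₀ hβγ, C_1]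
    linear_combination this
  have h3 := natDegree_le_of_dvd (hcop.mul_dvd h1 h2) (pow_ne_zero 2 hG')
  rw [natDegree_mul (hne β) (hne γ), hnd, hnd, natDegree_pow] at h3
  have h4 := natDegree_derivative_lt hG
  omega

theorem simp_gen {k : ℕ} (g : ℤ[X]) (m : Fin k → ℕ) (hm : ∀ i, 2 ≤ m i) (a : Fin k → ℤ) (l : ℕ)
    [hl : Fact l.Prime] (hd : g.natDegree < l) (n₁ n₂ : ℤ) (hn : ¬ (l : ℤ) ∣ g.eval n₁ - g.eval n₂)
    (h : ¬ (l : ℤ) ∣ bad m a) :
    Simp (red (fun i => (g ^ m i + C (a i) : ℤ[X])) l) := by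
  classical
  have hdvd : ∀ b : ℤ, b ∣ bad m a → ¬ (l : ℤ) ∣ b := fun b hb hlb => h (hlb.trans hb)
  have hma : ∀ i, ¬ (l : ℤ) ∣ (m i : ℤ) * a i := fun i => hdvd _ (by
    unfold bad
    exact Dvd.dvd.mul_right (Finset.dvd_prod_of_mem _ (mem_univ i)) _)
  have hm' : ∀ i, ((m i : ℕ) : ZMod l) ≠ 0 := by
    intro i h0
    apply hma i
    exact Dvd.dvd.mul_right (by exact_mod_cast (ZMod.natCast_eq_zero_iff _ _).1 h0) _
  have ha' : ∀ i, ((a i : ℤ) : ZMod l) ≠ 0 := by
    intro i h0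
    apply hma i
    exact Dvd.dvd.mul_left ((ZMod.intCast_zmod_eq_zero_iff_dvd _ _).1 h0) _
  let Om := AlgebraicClosure (ZMod l)
  have hchar : CharP Om l := charP_of_injective_algebraMap (algebraMap (ZMod l) Om).injective l
  have hinj : Function.Injective (algebraMap (ZMod l) Om) := (algebraMap (ZMod l) Om).injective
  obtain ⟨ρ, hρ⟩ : ∃ ρ : ℤ →+* Om, ρ = (algebraMap (ZMod l) Om).comp (Int.castRingHom (ZMod l)) :=
    ⟨_, rfl⟩
  have hρ0 : ∀ b : ℤ, ρ b = 0 ↔ (l : ℤ) ∣ b := by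
    intro b
    rw [hρ, RingHom.comp_apply, map_eq_zero_iff _ hinj, eq_intCast,
      ZMod.intCast_zmod_eq_zero_iff_dvd]
  obtain ⟨G, hG⟩ : ∃ G : Om[X], G = g.map ρ := ⟨_, rfl⟩
  have hGle : G.natDegree ≤ g.natDegree := by rw [hG]; exact natDegree_map_le
  have hGn : G.natDegree ≠ 0 := by
    intro h0
    apply hn
    rw [← hρ0, map_sub, sub_eq_zero]
    obtain ⟨b, hb⟩ := natDegree_eq_zero.1 h0
    have h1 : ∀ n : ℤ, ρ (g.eval n) = b := by
      intro n
      rw [← Polynomial.eval_map_apply, ← hG, ← hb, eval_C]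
    rw [h1, h1]
  have hG' : derivative G ≠ 0 := by
    intro h0
    have h1 : (derivative G).coeff (G.natDegree - 1) = 0 := by rw [h0, coeff_zero]
    rw [coeff_derivative] at h1
    have h2 : G.natDegree - 1 + 1 = G.natDegree := by omega
    rw [h2] at h1
    rcases mul_eq_zero.1 h1 with h3 | h3
    · rw [coeff_natDegree, leadingCoeff_eq_zero] at h3
      rw [h3, natDegree_zero] at hGn
      exact hGn rfl
    · have h4 : ((G.natDegree : ℕ) : Om) = 0 := by
        rw [← h2]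
        push_cast
        exact h3
      rw [CharP.cast_eq_zero_iff Om l] at h4
      have := Nat.le_of_dvd (Nat.pos_of_ne_zero hGn) h4
      omega
  refine ⟨Om, inferInstance, inferInstance, algebraMap (ZMod l) Om, fun i => ?_⟩
  have hmap : ∀ j, (red (fun i => (g ^ m i + C (a i) : ℤ[X])) l j).map (algebraMap (ZMod l) Om) =
      G ^ m j + C (ρ (a j)) := by
    intro j
    unfold red
    rw [Polynomial.map_map, ← hρ, Polynomial.map_add, Polynomial.map_pow, map_C, ← hG]
  have hroot : ∀ (j : Fin k) (v : Om), (G ^ m j + C (ρ (a j)) : Om[X]).IsRoot v ↔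
      (G.eval v) ^ m j = -ρ (a j) := by
    intro j v
    rw [IsRoot, eval_add, eval_pow, eval_C]
    exact ⟨fun h => eq_neg_of_add_eq_zero_left h, fun h => by rw [h]; ring⟩
  have hne : ∀ j, (G ^ m j + C (ρ (a j)) : Om[X]) ≠ 0 := fun j h0 => by
    have h1 : (G ^ m j).natDegree = 0 := by
      rw [eq_neg_of_add_eq_zero_left h0, ← C_neg, natDegree_C]
    rw [natDegree_pow] at h1
    have := hm j
    rcases Nat.mul_eq_zero.1 h1 with h2 | h2
    · omega
    · exact hGn h2
  -- two values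
  obtain ⟨β, γ, hβγ, hβ, hγ⟩ : ∃ β γ : Om, β ≠ γ ∧ β ^ m i = -ρ (a i) ∧ γ ^ m i = -ρ (a i) := by
    have hai : -ρ (a i) ≠ 0 := by
      rw [neg_ne_zero]
      intro h0
      exact ha' i ((ZMod.intCast_zmod_eq_zero_iff_dvd _ _).2 ((hρ0 _).1 h0))
    have hmi : ((m i : ℕ) : Om) ≠ 0 := by
      intro h0
      rw [CharP.cast_eq_zero_iff Om l] at h0
      exact hm' i ((ZMod.natCast_eq_zero_iff _ _).2 h0)
    have hsep : (X ^ m i - C (-ρ (a i)) : Om[X]).Separable :=
      separable_X_pow_sub_C _ hmi hai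
    have hcard : (X ^ m i - C (-ρ (a i)) : Om[X]).roots.toFinset.card = m i := by
      rw [Multiset.toFinset_card_of_nodup (nodup_roots hsep),
        splits_iff_card_roots.1 (IsAlgClosed.splits _), natDegree_X_pow_sub_C]
    have h2 := hm i
    obtain ⟨β, hβ, γ, hγ, hne⟩ := Finset.one_lt_card.1
      (show 1 < (X ^ m i - C (-ρ (a i)) : Om[X]).roots.toFinset.card by omega)
    have hX : (X ^ m i - C (-ρ (a i)) : Om[X]) ≠ 0 := hsep.ne_zero
    rw [Multiset.mem_toFinset, mem_roots hX, IsRoot, eval_sub, eval_pow, eval_X, eval_C,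
      sub_eq_zero] at hβ hγ
    exact ⟨β, γ, hne, hβ, hγ⟩
  obtain ⟨v, hv, hv'⟩ := exists_simple G hGn hG' β γ hβγ
  have hvi : (G.eval v) ^ m i = -ρ (a i) := by
    rcases hv with h1 | h1 <;> rw [h1] <;> assumption
  have hGv : G.eval v ≠ 0 := by
    intro h0
    have := hm i
    rw [h0, zero_pow (by omega), eq_comm, neg_eq_zero] at hvi
    exact ha' i ((ZMod.intCast_zmod_eq_zero_iff_dvd _ _).2 ((hρ0 _).1 hvi))
  refine ⟨v, ?_, fun j hj => ?_⟩
  · rw [hmap i]
    have h1 : 0 < rootMultiplicity v (G ^ m i + C (ρ (a i)) : Om[X]) :=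
      (rootMultiplicity_pos (hne i)).2 ((hroot i v).2 hvi)
    have h2 : ¬ 1 < rootMultiplicity v (G ^ m i + C (ρ (a i)) : Om[X]) := by
      rw [one_lt_rootMultiplicity_iff_isRoot (hne i)]
      rintro ⟨-, h3⟩
      rw [IsRoot, derivative_add, derivative_C, add_zero, derivative_pow, eval_mul, eval_mul,
        eval_pow, eval_C] at h3
      rcases mul_eq_zero.1 h3 with h4 | h4
      · rcases mul_eq_zero.1 h4 with h5 | h5
        · rw [CharP.cast_eq_zero_iff Om l] at h5
          exact hm' i ((ZMod.natCast_eq_zero_iff _ _).2 h5)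
        · exact absurd h5 (pow_ne_zero _ hGv)
      · exact hv' h4
    omega
  · rw [hmap j, rootMultiplicity_eq_zero_iff]
    intro h1
    exfalso
    have hvj := (hroot j v).1 h1
    have h2 : (-ρ (a i)) ^ m j = (-ρ (a j)) ^ m i := by
      rw [← hvi, ← hvj, ← pow_mul, ← pow_mul, mul_comm]
    have h3 : ρ ((-a i) ^ m j - (-a j) ^ m i) = 0 := by
      rw [map_sub, map_pow, map_pow, map_neg, map_neg, h2, sub_self]
    rw [hρ0] at h3
    refine hdvd _ ?_ h3
    unfold bad
    refine Dvd.dvd.mul_left ?_ _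
    exact Finset.dvd_prod_of_mem (fun p : Fin k × Fin k => ((-a p.1) ^ m p.2 - (-a p.2) ^ m p.1))
      (a := (i, j)) (mem_filter.2 ⟨mem_univ _, fun h => hj h.symm⟩)

theorem bad_ne_zero {k : ℕ} (m : Fin k → ℕ) (hm : ∀ i, 0 < m i) (a : Fin k → ℤ)
    (ha : ∀ i, a i ≠ 0)
    (hij : ∀ i j, i ≠ j → (a i).natAbs ^ m j ≠ (a j).natAbs ^ m i) : bad m a ≠ 0 := by
  unfold bad
  refine mul_ne_zero (Finset.prod_ne_zero_iff.2 fun i _ => mul_ne_zero ?_ (ha i))
    (Finset.prod_ne_zero_iff.2 fun p hp => ?_)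
  · exact_mod_cast (hm i).ne'
  · rw [mem_filter] at hp
    intro h
    apply hij p.1 p.2 hp.2
    have h1 := congrArg Int.natAbs (sub_eq_zero.1 h)
    rwa [Int.natAbs_pow, Int.natAbs_pow, Int.natAbs_neg, Int.natAbs_neg] at h1

theorem log_bad {k : ℕ} (m : Fin k → ℕ) (hm : ∀ i, 0 < m i) (a : Fin k → ℤ)
    (ha : ∀ i, a i ≠ 0)
    (hij : ∀ i j, i ≠ j → (a i).natAbs ^ m j ≠ (a j).natAbs ^ m i) (M A : ℝ)
    (hM : ∀ i, (m i : ℝ) ≤ M) (hA : ∀ i, Real.log (a i).natAbs ≤ A) (hM0 : 0 ≤ M) (hA0 : 0 ≤ A) :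
    Real.log (bad m a).natAbs ≤ (k + k ^ 2) * ((1 + M) * (1 + A)) := by
  have hb := bad_ne_zero m hm a ha hij
  have hb' := hb
  unfold bad at hb'
  rw [mul_ne_zero_iff] at hb'
  have h1 : ((bad m a).natAbs : ℝ) = |(bad m a : ℝ)| := by
    rw [Nat.cast_natAbs, Int.cast_abs]
  rw [h1, Real.log_abs]
  unfold bad
  push_cast
  rw [Real.log_mul (by exact_mod_cast hb'.1) (by exact_mod_cast hb'.2), Real.log_prod (by
    intro i _
    exact_mod_cast mul_ne_zero (by exact_mod_cast (hm i).ne' : (m i : ℤ) ≠ 0) (ha i)),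
    Real.log_prod (by
      intro p hp
      exact_mod_cast (Finset.prod_ne_zero_iff.1 hb'.2) p hp)]
  have h2 : ∀ i, Real.log ((m i : ℝ) * (a i : ℝ)) ≤ (1 + M) * (1 + A) := by
    intro i
    rw [Real.log_mul (by exact_mod_cast (hm i).ne') (by exact_mod_cast ha i)]
    have h3 : Real.log (a i : ℝ) ≤ A := by
      have := hA i
      rwa [Nat.cast_natAbs, Int.cast_abs, Real.log_abs] at this
    have h4 : Real.log (m i : ℝ) ≤ M := by
      refine (Real.log_le_sub_one_of_pos (by exact_mod_cast hm i)).trans ?_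
      have := hM i
      linarith
    nlinarith [mul_nonneg hM0 hA0]
  have habs : ∀ i, |(a i : ℝ)| ≤ Real.exp A := by
    intro i
    have := hA i
    rw [Nat.cast_natAbs, Int.cast_abs] at this
    have h0 : 0 < |(a i : ℝ)| := abs_pos.2 (by exact_mod_cast ha i)
    exact (Real.log_le_iff_le_exp h0).1 this
  have hpow : ∀ i j, |(-(a i : ℝ)) ^ m j| ≤ Real.exp (A * M) := by
    intro i j
    rw [abs_pow, abs_neg]
    refine (pow_le_pow_left₀ (abs_nonneg _) (habs i) _).trans ?_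
    rw [← Real.exp_nat_mul]
    apply Real.exp_le_exp.2
    rw [mul_comm]
    exact mul_le_mul_of_nonneg_left (hM j) hA0
  have h5 : ∀ p ∈ (univ : Finset (Fin k × Fin k)).filter (fun p => p.1 ≠ p.2),
      Real.log ((-(a p.1 : ℝ)) ^ m p.2 - (-(a p.2 : ℝ)) ^ m p.1) ≤ (1 + M) * (1 + A) := by
    intro p hp
    rw [← Real.log_abs]
    have h6 : |(-(a p.1 : ℝ)) ^ m p.2 - (-(a p.2 : ℝ)) ^ m p.1| ≤ Real.exp (1 + A * M) := by
      refine (abs_sub _ _).trans ?_
      have h7 := hpow p.1 p.2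
      have h8 := hpow p.2 p.1
      have h9 : 2 ≤ Real.exp 1 := by
        have := Real.add_one_le_exp (1 : ℝ)
        linarith
      rw [Real.exp_add]
      have h10 := mul_le_mul_of_nonneg_right h9 (Real.exp_pos (A * M)).le
      linarith
    have h7 : 0 < |(-(a p.1 : ℝ)) ^ m p.2 - (-(a p.2 : ℝ)) ^ m p.1| := by
      rw [abs_pos]
      exact_mod_cast (Finset.prod_ne_zero_iff.1 hb'.2) p hp
    refine ((Real.log_le_iff_le_exp h7).2 h6).trans ?_
    nlinarith
  have h6 := Finset.sum_le_sum (s := univ) (fun i _ => h2 i)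
  have h7 := Finset.sum_le_sum h5
  rw [Finset.sum_const, nsmul_eq_mul] at h6 h7
  rw [Finset.card_univ, Fintype.card_fin] at h6
  have h8 : (((univ : Finset (Fin k × Fin k)).filter (fun p => p.1 ≠ p.2)).card : ℝ) ≤ k ^ 2 := by
    have : ((univ : Finset (Fin k × Fin k)).filter (fun p => p.1 ≠ p.2)).card ≤ k ^ 2 := by
      refine (Finset.card_filter_le _ _).trans ?_
      rw [Finset.card_univ, Fintype.card_prod, Fintype.card_fin, sq]
    exact_mod_cast this
  have h9 : 0 ≤ (1 + M) * (1 + A) := by positivity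
  have h10 := mul_le_mul_of_nonneg_right h8 h9
  linarith

end Pool.Agent.Helper82.FC
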