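import Pool.Agent.Helper601.PNT

/-!
# Mertens' lower bound for the primes `1 (mod m)`, with the weights of the larger sieve
-/

set_option autoImplicit false

namespace Pool.Agent.Helper82.FC

open Finset Filter Topology ArithmeticFunction

/-- summation by parts -/
theorem parts_low (a : ℕ → ℝ) (ha : ∀ n, 0 ≤ a n) (κ : ℝ) (hκ : 0 ≤ κ) (n0 : ℕ) (hn0 : 1 ≤ n0)
    (h : ∀ n : ℕ, n0 ≤ n → κ * n ≤ ∑ k ∈ Icc 1 n, a k) (Q : ℕ) (hQ : 1 ≤ Q) :
    κ * Real.log Q - κ * Real.log (n0 + 1 : ℕ) ≤ ∑ k ∈ Icc 1 Q, a k / k := by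
  have hB0 : ∀ n, 0 ≤ ∑ k ∈ Icc 1 n, a k / k := fun n =>
    Finset.sum_nonneg fun k _ => div_nonneg (ha k) (Nat.cast_nonneg k)
  have hQ0 : (0 : ℝ) < Q := by exact_mod_cast hQ
  rcases lt_or_ge Q n0 with hlt | hge
  · have h1 : Real.log Q ≤ Real.log (n0 + 1 : ℕ) :=
      Real.log_le_log hQ0 (by exact_mod_cast (by omega : Q ≤ n0 + 1))
    have := hB0 Q
    nlinarith
  · have key : ∀ n, n0 ≤ n → κ * Real.log (n + 1 : ℕ) - κ * Real.log (n0 + 1 : ℕ) ≤
        ∑ k ∈ Icc 1 n, a k / k - (∑ k ∈ Icc 1 n, a k) / n := by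
      intro n hn
      induction n, hn using Nat.le_induction with
      | base =>
        rw [sub_self, sub_nonneg, Finset.sum_div]
        refine Finset.sum_le_sum fun k hk => ?_
        rw [mem_Icc] at hk
        have hk0 : (0 : ℝ) < k := by exact_mod_cast hk.1
        exact div_le_div_of_nonneg_left (ha k) hk0 (by exact_mod_cast hk.2)
      | succ n hn ih =>
        have hn1 : 1 ≤ n := hn0.trans hn
        have hnn : (0 : ℝ) < n := by exact_mod_cast hn1
        have h1 := h n hn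
        rw [Finset.sum_Icc_succ_top (by omega), Finset.sum_Icc_succ_top (by omega)]
        have h2 : Real.log ((n + 1 + 1 : ℕ) : ℝ) - Real.log ((n + 1 : ℕ) : ℝ) ≤
            1 / ((n : ℝ) + 1) := by
          rw [← Real.log_div (by positivity) (by positivity)]
          refine (Real.log_le_sub_one_of_pos (by positivity)).trans (le_of_eq ?_)
          push_cast
          field_simp
          ring
        have h3 : κ * (Real.log ((n + 1 + 1 : ℕ) : ℝ) - Real.log ((n + 1 : ℕ) : ℝ)) ≤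
            κ * (1 / ((n : ℝ) + 1)) := mul_le_mul_of_nonneg_left h2 hκ
        have h4 : κ * (1 / ((n : ℝ) + 1)) ≤
            (∑ k ∈ Icc 1 n, a k) / n - (∑ k ∈ Icc 1 n, a k) / (n + 1) := by
          have e1 : (∑ k ∈ Icc 1 n, a k) / n - (∑ k ∈ Icc 1 n, a k) / ((n : ℝ) + 1) =
              (∑ k ∈ Icc 1 n, a k) / (n * ((n : ℝ) + 1)) := by
            field_simp
            ring
          rw [e1, mul_one_div, div_le_div_iff₀ (by positivity) (by positivity)]
          nlinarith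
        push_cast at h3 h4 ih ⊢
        rw [add_div]
        linarith
    have h1 := key Q hge
    have h2 : 0 ≤ (∑ k ∈ Icc 1 Q, a k) / Q :=
      div_nonneg (Finset.sum_nonneg fun k _ => ha k) hQ0.le
    have h3 : Real.log Q ≤ Real.log (Q + 1 : ℕ) :=
      Real.log_le_log hQ0 (by exact_mod_cast Nat.le_succ Q)
    have h4 := mul_le_mul_of_nonneg_left h3 hκ
    linarith

/-- **Mertens' lower bound for the primes `1 (mod m)`** -/
theorem mert (m : ℕ) (hm : 1 ≤ m) (κ : ℝ) (hκ : 0 ≤ κ) (hκ' : κ < 1 / (m.totient : ℝ)) :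
    ∃ C : ℝ, ∀ Q : ℕ, 1 ≤ Q → κ * Real.log Q - C ≤
      ∑ p ∈ (Icc 1 Q).filter (fun p => p.Prime ∧ m ∣ p - 1), Real.log p / p := by
  classical
  have : NeZero m := ⟨by omega⟩
  have h := Pool.Agent.Helper601.PNT.pnt_residueClass (q := m) (a := 1) isUnit_one
  rw [← one_div] at h
  have h1 := (tendsto_order.1 h).1 κ hκ'
  have h2 := (tendsto_natCast_atTop_atTop (R := ℝ)).eventually h1
  obtain ⟨n1, hn1⟩ := eventually_atTop.1 h2
  have hpart := parts_low (fun k => vonMangoldt.residueClass (1 : ZMod m) k)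
    (vonMangoldt.residueClass_nonneg _) κ hκ (max n1 1) (le_max_right _ _) (by
      intro n hn
      have h3 := hn1 n ((le_max_left _ _).trans hn)
      have hn0 : (0 : ℝ) < n := by exact_mod_cast ((le_max_right _ _).trans hn : 1 ≤ n)
      rw [Nat.floor_natCast, lt_div_iff₀ hn0] at h3
      exact h3.le)
  have hs := vonMangoldt.summable_residueClass_non_primes_div (q := m) (1 : ZMod m)
  refine ⟨κ * Real.log ((max n1 1 + 1 : ℕ) : ℝ) + ∑' n : ℕ,
    (if n.Prime then 0 else vonMangoldt.residueClass (1 : ZMod m) n) / n, fun Q hQ => ?_⟩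
  have h3 := hpart Q hQ
  have h4 : ∑ k ∈ Icc 1 Q, (if k.Prime then 0 else vonMangoldt.residueClass (1 : ZMod m) k) / k ≤
      ∑' n : ℕ, (if n.Prime then 0 else vonMangoldt.residueClass (1 : ZMod m) n) / n := by
    refine hs.sum_le_tsum _ fun n _ => ?_
    have := vonMangoldt.residueClass_nonneg (1 : ZMod m) n
    split_ifs
    · simp
    · positivity
  have h5 : ∑ k ∈ Icc 1 Q, vonMangoldt.residueClass (1 : ZMod m) k / k ≤
      ∑ k ∈ Icc 1 Q, (if k.Prime then 0 else vonMangoldt.residueClass (1 : ZMod m) k) / k +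
      ∑ p ∈ (Icc 1 Q).filter (fun p => p.Prime ∧ m ∣ p - 1), Real.log p / p := by
    rw [Finset.sum_filter, ← Finset.sum_add_distrib]
    refine Finset.sum_le_sum fun k hk => ?_
    rw [mem_Icc] at hk
    have hk0 : (0 : ℝ) < k := by exact_mod_cast hk.1
    by_cases hp : k.Prime
    · rw [if_pos hp, zero_div, zero_add]
      by_cases hd : m ∣ k - 1
      · rw [if_pos ⟨hp, hd⟩]
        refine div_le_div_of_nonneg_right ?_ hk0.le
        refine (vonMangoldt.residueClass_le _ _).trans (le_of_eq ?_)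
        exact vonMangoldt_apply_prime hp
      · rw [if_neg (fun h => hd h.2)]
        have : vonMangoldt.residueClass (1 : ZMod m) k = 0 := by
          unfold vonMangoldt.residueClass
          rw [Set.indicator_of_notMem]
          intro h
          apply hd
          have h6 : ((k : ℕ) : ZMod m) = 1 := h
          have h7 : ((k - 1 : ℕ) : ZMod m) = 0 := by
            rw [Nat.cast_sub hk.1, h6]
            simp
          exact (ZMod.natCast_eq_zero_iff _ _).1 h7
        rw [this, zero_div]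
    · rw [if_neg hp]
      have : 0 ≤ (if k.Prime ∧ m ∣ k - 1 then Real.log k / k else 0) := by
        rw [if_neg (fun h => hp h.1)]
      linarith
  linarith

/-- the weight of the larger sieve -/
def wt {ι : Type} [Fintype ι] (r : ι → ℕ) (p : ℕ) : ℕ := ∏ i, if r i ∣ p - 1 then r i else 1

theorem totient_prod (A : Finset ℕ) (hA : ∀ p ∈ A, p.Prime) :
    Nat.totient (∏ p ∈ A, p) = ∏ p ∈ A, (p - 1) := by
  induction A using Finset.induction_on with
  | empty => simp
  | insert a s ha ih =>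
    rw [Finset.prod_insert ha, Finset.prod_insert ha, Nat.totient_mul, ih fun p hp =>
      hA p (mem_insert_of_mem hp), Nat.totient_prime (hA a (mem_insert_self a s))]
    refine Nat.Coprime.prod_right fun p hp => ?_
    refine (Nat.coprime_primes (hA a (mem_insert_self a s)) (hA p (mem_insert_of_mem hp))).2 ?_
    rintro rfl
    exact ha hp

theorem pow_low (p k : ℕ) (hp : 2 ≤ p) : (2 : ℝ) ^ k ≤ 1 + ((p : ℝ) ^ k - 1) / ((p : ℝ) - 1) := by
  have hp' : (2 : ℝ) ≤ p := by exact_mod_cast hp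
  have h0 : (0 : ℝ) < p - 1 := by linarith
  have h1 : ((p : ℝ) ^ k - 1) / ((p : ℝ) - 1) = ∑ i ∈ range k, (p : ℝ) ^ i := by
    rw [geom_sum_eq (by linarith)]
  have h2 : (2 : ℝ) ^ k - 1 = ∑ i ∈ range k, (2 : ℝ) ^ i := by
    rw [geom_sum_eq (by norm_num)]
    norm_num
  rw [h1]
  have h3 : ∑ i ∈ range k, (2 : ℝ) ^ i ≤ ∑ i ∈ range k, (p : ℝ) ^ i :=
    Finset.sum_le_sum fun i _ => pow_le_pow_left₀ (by norm_num) hp' i
  linarith

/-- **Mertens' lower bound with the weights of the larger sieve** -/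
theorem mert_weight {ι : Type} [Fintype ι] (r : ι → ℕ) (hr : ∀ i, (r i).Prime) (κ : ℝ)
    (hκ0 : 0 ≤ κ) (hκ : κ < 2 ^ Fintype.card ι) :
    ∃ C : ℝ, ∀ Q : ℕ, 1 ≤ Q → κ * Real.log Q - C ≤
      ∑ p ∈ (Icc 1 Q).filter Nat.Prime, (wt r p : ℝ) * (Real.log p / p) := by
  classical
  obtain ⟨S, hS⟩ : ∃ S : Finset ℕ, S = univ.image r := ⟨_, rfl⟩
  have hSp : ∀ p ∈ S, p.Prime := by
    intro p hp
    rw [hS, mem_image] at hp
    obtain ⟨i, -, rfl⟩ := hp
    exact hr i
  obtain ⟨kk, hkk⟩ : ∃ kk : ℕ → ℕ, kk = fun p => (univ.filter fun i => r i = p).card := ⟨_, rfl⟩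
  obtain ⟨w, hw⟩ : ∃ w : ℕ → ℝ, w = fun p : ℕ => ((p : ℕ) : ℝ) ^ kk p - 1 := ⟨_, rfl⟩
  have hw0 : ∀ p ∈ S, 0 ≤ w p := by
    intro p hp
    rw [hw]
    have : (1 : ℝ) ≤ p := by exact_mod_cast (hSp p hp).one_le
    have := one_le_pow₀ this (n := kk p)
    show 0 ≤ (p : ℝ) ^ kk p - 1
    linarith
  have hwt : ∀ p : ℕ, (wt r p : ℝ) = ∑ A ∈ S.powerset,
      if (∏ q ∈ A, q) ∣ p - 1 then ∏ q ∈ A, w q else 0 := by
    intro p
    unfold wt
    rw [Finset.prod_comp (fun q => if q ∣ p - 1 then q else 1) r, ← hS]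
    push_cast
    have h1 : ∀ q ∈ S, (if q ∣ p - 1 then (q : ℝ) else 1) ^ (univ.filter fun i => r i = q).card =
        1 + (if q ∣ p - 1 then w q else 0) := by
      intro q _
      split_ifs
      · rw [hw, hkk]
        ring
      · simp
    rw [Finset.prod_congr rfl h1, Finset.prod_one_add]
    refine Finset.sum_congr rfl fun A hA => ?_
    rw [mem_powerset] at hA
    by_cases h : (∏ q ∈ A, q) ∣ p - 1
    · rw [if_pos h]
      refine Finset.prod_congr rfl fun q hq => if_pos ?_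
      exact (Finset.dvd_prod_of_mem (fun q : ℕ => q) hq).trans h
    · rw [if_neg h]
      have h2 : ∃ q ∈ A, ¬ q ∣ p - 1 := by
        by_contra hcon
        push Not at hcon
        exact h (Finset.prod_primes_dvd _ (fun q hq => (hSp q (hA hq)).prime) hcon)
      obtain ⟨q, hq, hq'⟩ := h2
      exact Finset.prod_eq_zero hq (if_neg hq')
  obtain ⟨θ, hθ⟩ : ∃ θ : ℝ, θ = κ / 2 ^ Fintype.card ι := ⟨_, rfl⟩
  have h2pos : (0 : ℝ) < 2 ^ Fintype.card ι := by positivity
  have hθ0 : 0 ≤ θ := by rw [hθ]; positivity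
  have hθ1 : θ < 1 := by rw [hθ, div_lt_one h2pos]; exact hκ
  have hm : ∀ A : Finset ℕ, ∃ C : ℝ, A ∈ S.powerset → ∀ Q : ℕ, 1 ≤ Q →
      θ / (∏ q ∈ A, ((q : ℝ) - 1)) * Real.log Q - C ≤
      ∑ p ∈ (Icc 1 Q).filter (fun p => p.Prime ∧ (∏ q ∈ A, q) ∣ p - 1), Real.log p / p := by
    intro A
    by_cases hA : A ∈ S.powerset
    · have hA' := mem_powerset.1 hA
      have h1 : ((∏ q ∈ A, q).totient : ℝ) = ∏ q ∈ A, ((q : ℝ) - 1) := by
        rw [totient_prod A fun p hp => hSp p (hA' hp)]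
        push_cast
        refine Finset.prod_congr rfl fun q hq => ?_
        rw [Nat.cast_sub (hSp q (hA' hq)).one_le]
        simp
      have h2 : (0 : ℝ) < ∏ q ∈ A, ((q : ℝ) - 1) := by
        refine Finset.prod_pos fun q hq => ?_
        have : (2 : ℝ) ≤ q := by exact_mod_cast (hSp q (hA' hq)).two_le
        linarith
      obtain ⟨C, hC⟩ := mert (∏ q ∈ A, q)
        (Finset.prod_pos fun q hq => (hSp q (hA' hq)).pos)
        (θ / (∏ q ∈ A, ((q : ℝ) - 1))) (by positivity)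
        (by rw [h1]; exact div_lt_div_of_pos_right hθ1 h2)
      exact ⟨C, fun _ => hC⟩
    · exact ⟨0, fun h => absurd h hA⟩
  choose C hC using hm
  refine ⟨∑ A ∈ S.powerset, (∏ q ∈ A, w q) * C A, fun Q hQ => ?_⟩
  have hlQ : 0 ≤ Real.log Q := Real.log_natCast_nonneg Q
  have h1 : ∑ p ∈ (Icc 1 Q).filter Nat.Prime, (wt r p : ℝ) * (Real.log p / p) =
      ∑ A ∈ S.powerset, (∏ q ∈ A, w q) *
        ∑ p ∈ (Icc 1 Q).filter (fun p => p.Prime ∧ (∏ q ∈ A, q) ∣ p - 1), Real.log p / p := by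
    simp_rw [hwt, Finset.sum_mul]
    rw [Finset.sum_comm]
    refine Finset.sum_congr rfl fun A _ => ?_
    rw [← Finset.filter_filter, Finset.sum_filter (fun p => (∏ q ∈ A, q) ∣ p - 1), Finset.mul_sum]
    refine Finset.sum_congr rfl fun p _ => ?_
    split_ifs
    · rfl
    · rw [zero_mul, mul_zero]
  rw [h1]
  have h2 : ∀ A ∈ S.powerset, (∏ q ∈ A, w q) * (θ / (∏ q ∈ A, ((q : ℝ) - 1)) * Real.log Q - C A) ≤
      (∏ q ∈ A, w q) *
        ∑ p ∈ (Icc 1 Q).filter (fun p => p.Prime ∧ (∏ q ∈ A, q) ∣ p - 1), Real.log p / p := by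
    intro A hA
    refine mul_le_mul_of_nonneg_left (hC A hA Q hQ) ?_
    exact Finset.prod_nonneg fun q hq => hw0 q (mem_powerset.1 hA hq)
  refine le_trans ?_ (Finset.sum_le_sum h2)
  have h3 : ∑ A ∈ S.powerset, (∏ q ∈ A, w q) *
      (θ / (∏ q ∈ A, ((q : ℝ) - 1)) * Real.log Q - C A) =
      θ * Real.log Q * ∑ A ∈ S.powerset, ∏ q ∈ A, (w q / ((q : ℝ) - 1)) -
        ∑ A ∈ S.powerset, (∏ q ∈ A, w q) * C A := by
    rw [Finset.mul_sum, ← Finset.sum_sub_distrib]
    refine Finset.sum_congr rfl fun A _ => ?_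
    rw [Finset.prod_div_distrib]
    ring
  rw [h3, ← Finset.prod_one_add]
  refine sub_le_sub_right ?_ _
  have h4 : (2 : ℝ) ^ Fintype.card ι ≤ ∏ q ∈ S, (1 + w q / ((q : ℝ) - 1)) := by
    have h5 : (2 : ℝ) ^ Fintype.card ι = ∏ q ∈ S, (2 : ℝ) ^ kk q := by
      rw [Finset.prod_pow_eq_pow_sum]
      congr 1
      rw [hkk, hS, ← Finset.card_univ]
      exact Finset.card_eq_sum_card_image r univ
    rw [h5]
    refine Finset.prod_le_prod (fun q _ => by positivity) fun q hq => ?_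
    rw [hw]
    exact pow_low q (kk q) (hSp q hq).two_le
  have h6 : θ * 2 ^ Fintype.card ι = κ := by
    rw [hθ]
    field_simp
  have h7 : 0 ≤ θ * Real.log Q := by positivity
  have h8 := mul_le_mul_of_nonneg_left h4 h7
  calc κ * Real.log Q = θ * Real.log Q * 2 ^ Fintype.card ι := by rw [← h6]; ring
    _ ≤ _ := h8

end Pool.Agent.Helper82.FC
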