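import Pool.Agent.Helper82.FC.Count
import Pool.Agent.Helper82.FC.Mert

/-!
# The number of the classes modulo a prime
-/

set_option autoImplicit false

namespace Pool.Agent.Helper82.FC

open Polynomial Finset

/-- the polynomials modulo a prime -/
noncomputable def red {k : ℕ} (P : Fin k → ℤ[X]) (l : ℕ) (i : Fin k) : (ZMod l)[X] :=
  (P i).map (Int.castRingHom (ZMod l))

theorem rm_C_mul {K : Type} [Field K] (b : K) (hb : b ≠ 0) (Q : K[X]) (v : K) :
    rootMultiplicity v (C b * Q) = rootMultiplicity v Q := by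
  by_cases hQ : Q = 0
  · rw [hQ, mul_zero]
  · rw [rootMultiplicity_mul (mul_ne_zero (C_ne_zero.2 hb) hQ), rootMultiplicity_C, zero_add]

theorem Simp.ne_zero {F : Type} [Field F] {ι : Type} {P : ι → F[X]} (h : Simp P) (i : ι) :
    P i ≠ 0 := by
  obtain ⟨Om, i1, i2, φ, hφ⟩ := h
  obtain ⟨v, hv, -⟩ := hφ i
  intro h0
  rw [h0, Polynomial.map_zero, rootMultiplicity_zero] at hv
  exact zero_ne_one hv

theorem cls {k : ℕ} (P : Fin k → ℤ[X]) (r : Fin k → ℕ)
    (hr : ∀ i, (r i).Prime) (c : Fin k → ℤ) (hc : ∀ i, c i = 1 ∨ c i = -1) (U : Finset ℕ)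
    (hU : ∀ y ∈ U, ∀ i, ∃ w : ℤ, (P i).eval (y : ℤ) = c i * w ^ r i) (l : ℕ) [hl : Fact l.Prime]
    (hS : Simp (red P l)) :
    ((U.image fun y => y % l).card : ℝ) ≤
      (l : ℝ) / wt r l + 3 * wt r l * (∑ i, (P i).natDegree : ℕ) * Real.sqrt l := by
  classical
  have hcard : Fintype.card (ZMod l) = l := ZMod.card l
  have hne := hS.ne_zero
  obtain ⟨Om, i1, i2, φ, hφ⟩ := hS
  have hprod : (∏ i : {i : Fin k // r i ∣ l - 1}, r i.1) = wt r l := by
    unfold wt
    rw [← Finset.prod_filter]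
    exact (Finset.prod_subtype (univ.filter fun i => r i ∣ l - 1) (fun i => by simp) r).symm
  have hc0 : ∀ i, (c i : ZMod l) ≠ 0 := by
    intro i
    rcases hc i with h | h <;> rw [h] <;> simp
  obtain ⟨b, hb⟩ : ∃ b : Fin k → ZMod l, b = fun i => (red P l i).leadingCoeff⁻¹ := ⟨_, rfl⟩
  have hb0 : ∀ i, b i ≠ 0 := fun i => by
    rw [hb]
    exact inv_ne_zero (leadingCoeff_ne_zero.2 (hne i))
  have hφb : ∀ i, φ (b i) ≠ 0 := fun i => (map_ne_zero φ).2 (hb0 i)
  have h := count_powers (F := ZMod l) (ι := {i : Fin k // r i ∣ l - 1})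
    (fun i => C (b i.1) * red P l i.1) (fun i => by
      apply monic_C_mul_of_mul_leadingCoeff_eq_one
      rw [hb]
      exact inv_mul_cancel₀ (leadingCoeff_ne_zero.2 (hne i.1)))
    ⟨Om, i1, i2, φ, fun i => by
      obtain ⟨v, hv1, hv2⟩ := hφ i.1
      refine ⟨v, ?_, fun j hj => ?_⟩
      · rw [Polynomial.map_mul, map_C, rm_C_mul _ (hφb _)]
        exact hv1
      · rw [Polynomial.map_mul, map_C, rm_C_mul _ (hφb _)]
        exact hv2 j.1 fun h => hj (Subtype.ext h)⟩
    (fun i => r i.1) (fun i => hr i.1) (fun i => by rw [hcard]; exact i.2)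
    (fun i => b i.1 * (c i.1 : ZMod l)) (fun i => mul_ne_zero (hb0 i.1) (hc0 i.1))
  rw [hprod, hcard] at h
  have hD : (∑ i : {i : Fin k // r i ∣ l - 1}, (C (b i.1) * red P l i.1).natDegree) ≤
      ∑ i, (P i).natDegree := by
    have h1 : ∀ i, (C (b i) * red P l i).natDegree ≤ (P i).natDegree := fun i => by
      rw [natDegree_C_mul (hb0 i)]
      exact natDegree_map_le
    refine (Finset.sum_le_sum fun i _ => h1 i.1).trans ?_
    rw [← Finset.sum_subtype (univ.filter fun i => r i ∣ l - 1) (fun i => by simp)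
      (fun i => (P i).natDegree)]
    exact Finset.sum_le_sum_of_subset (Finset.filter_subset _ _)
  have hle : (U.image fun y => y % l).card ≤ (univ.filter fun u : ZMod l =>
      ∀ i : {i : Fin k // r i ∣ l - 1}, ∃ w : ZMod l,
        (C (b i.1) * red P l i.1).eval u = b i.1 * (c i.1 : ZMod l) * w ^ r i.1).card := by
    refine Finset.card_le_card_of_injOn (fun y : ℕ => (y : ZMod l)) ?_ ?_
    · intro y hy
      rw [Finset.mem_coe, mem_image] at hy
      obtain ⟨y', hy', rfl⟩ := hy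
      rw [Finset.mem_coe, mem_filter]
      refine ⟨mem_univ _, fun i => ?_⟩
      obtain ⟨w, hw⟩ := hU y' hy' i.1
      refine ⟨(w : ZMod l), ?_⟩
      have h1 : (((y' % l : ℕ) : ZMod l)) = ((y' : ℤ) : ZMod l) := by
        rw [ZMod.natCast_mod]
        simp
      show (C (b i.1) * red P l i.1).eval (((y' % l : ℕ)) : ZMod l) = _
      rw [h1]
      have h2 : (red P l i.1).eval ((y' : ℤ) : ZMod l) = (((P i.1).eval (y' : ℤ) : ℤ) : ZMod l) := by
        unfold red
        rw [← eq_intCast (Int.castRingHom (ZMod l)) ((y' : ℤ)), eval_map_apply, eq_intCast]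
      rw [eval_mul, eval_C, h2, hw]
      push_cast
      ring
    · intro a ha b hb hab
      rw [Finset.mem_coe, mem_image] at ha hb
      obtain ⟨a', -, rfl⟩ := ha
      obtain ⟨b', -, rfl⟩ := hb
      have h1 := (ZMod.natCast_eq_natCast_iff' _ _ _).1 hab
      rwa [Nat.mod_mod, Nat.mod_mod] at h1
  have hwt : (0 : ℝ) ≤ 3 * wt r l := by positivity
  have hs := Real.sqrt_nonneg (l : ℝ)
  calc ((U.image fun y => y % l).card : ℝ) ≤ _ := by exact_mod_cast hle
    _ ≤ _ := h
    _ ≤ _ := by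
      refine add_le_add le_rfl (mul_le_mul_of_nonneg_right (mul_le_mul_of_nonneg_left ?_ hwt) hs)
      exact_mod_cast hD

end Pool.Agent.Helper82.FC
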