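import Pool.Agent.Helper82.FC.Fixed
import Pool.Agent.N741.PB.LineMain

/-!
# Common partners of several bases among the values of a polynomial
-/

set_option autoImplicit false

namespace Pool.Agent.Helper82.FC

open Polynomial Finset Filter Pool.Agent.N741.PB

/-- `x` and `y` are two bases of a solution with third base at most `W` -/
def Part (W : ℝ) (x : ℕ) (y : ℤ) : Prop := ∃ (c : ℤ) (l m n : ℕ) (s t : ℤ),
  ISol x y c l m n s t ∧ |(c : ℝ)| ≤ W

/-- the third exponent has only large prime divisors or can be replaced by a small prime -/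
theorem part_cases {R : ℕ} {W : ℝ} {x : ℕ} {y : ℤ} (h : Part W x y) :
    Pair R W (x : ℤ) y ∨ ∃ (c : ℤ) (l m n r : ℕ) (s t : ℤ), ISol x y c l m n s t ∧
      |(c : ℝ)| ≤ W ∧ r.Prime ∧ r < R ∧ ∃ w : ℤ, (x : ℤ) ^ l + s * y ^ m = t * w ^ r := by
  obtain ⟨c, l, m, n, s, t, hI, hc⟩ := h
  by_cases hR : ∀ p : ℕ, p.Prime → p ∣ n → R ≤ p
  · left
    exact ⟨c, l, m, n, s, t, hI, hR, hc⟩
  · right
    push Not at hR
    obtain ⟨p, hp, hpn, hpR⟩ := hR
    obtain ⟨q, hq⟩ := hpn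
    refine ⟨c, l, m, n, p, s, t, hI, hc, hp, hpR, c ^ q, ?_⟩
    rw [hI.eq, hq, ← pow_mul, mul_comm q p]

theorem isol_two {a b c : ℤ} {l m n : ℕ} {s t : ℤ} (h : ISol a b c l m n s t) : 2 ≤ m := by
  have h1 := h.m0
  by_contra h2
  have h3 : m = 1 := by omega
  have h4 := h.le
  rw [h3] at h4
  have := h.l0
  have := h.k0
  nlinarith

theorem exp_le_two_pow (z : ℝ) (hz : 0 ≤ z) (S : ℕ) (hS : 2 * z + 1 ≤ S) :
    2 * Real.exp z ≤ 2 ^ S := by
  have h1 : Real.exp z ≤ (2 : ℝ) ^ (2 * z) := by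
    rw [Real.rpow_def_of_pos (by norm_num)]
    apply Real.exp_le_exp.2
    have := Real.log_two_gt_d9
    nlinarith
  calc 2 * Real.exp z ≤ 2 * (2 : ℝ) ^ (2 * z) := by linarith
    _ = (2 : ℝ) ^ (2 * z + 1) := by
        rw [Real.rpow_add (by norm_num), Real.rpow_one]
        ring
    _ ≤ (2 : ℝ) ^ (S : ℝ) := Real.rpow_le_rpow_of_exponent_le (by norm_num) hS
    _ = 2 ^ S := Real.rpow_natCast _ _

/-- the integers where a polynomial has a given value -/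
theorem card_value (g : ℤ[X]) (hg : 0 < g.natDegree) (b : ℤ) (Y : Finset ℤ) :
    (Y.filter fun n => g.eval n = b).card ≤ g.natDegree := by
  classical
  have hnd : (g - C b).natDegree = g.natDegree := natDegree_sub_C
  have hne : g - C b ≠ 0 := fun h0 => by
    rw [h0, natDegree_zero] at hnd
    omega
  have h1 : (Y.filter fun n => g.eval n = b) ⊆ (g - C b).roots.toFinset := by
    intro n hn
    rw [mem_filter] at hn
    rw [Multiset.mem_toFinset, mem_roots hne, IsRoot, eval_sub, eval_C, hn.2, sub_self]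
  rw [← hnd]
  exact (Finset.card_le_card h1).trans ((Multiset.toFinset_card_le _).trans (card_roots' _))

/-- exponents and signs -/
abbrev Dat (k : ℕ) : Type :=
  (Fin k → ℕ) × (Fin k → ℕ) × (Fin k → ℕ) × (Fin k → ℤ) × (Fin k → ℤ)

/-- **common partners of several bases among the values of a polynomial** -/
theorem common (k : ℕ) (δ : ℝ) (hδ : 0 < δ) : ∃ c : ℝ, 0 < c ∧ ∃ N₀ : ℕ, ∀ N : ℕ, N₀ ≤ N →
    ∀ g : ℤ[X], 0 < g.natDegree → (g.natDegree : ℝ) ≤ (N : ℝ) ^ c →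
    (∀ n : ℤ, |n| ≤ N → |((g.eval n : ℤ) : ℝ)| ≤ Real.exp ((N : ℝ) ^ c)) → ∀ x : Fin k → ℕ,
    (∀ i, 2 ≤ x i ∧ (x i : ℝ) ≤ Real.exp ((N : ℝ) ^ c)) →
    (∀ i j, i ≠ j → ∀ a b : ℕ, 0 < a → 0 < b → x i ^ a ≠ x j ^ b) → ∀ Y : Finset ℤ,
    (∀ n ∈ Y, |n| ≤ N ∧ ∀ i, Part (Real.exp ((N : ℝ) ^ c)) (x i) (g.eval n)) →
      (Y.card : ℝ) ≤ (N : ℝ) ^ (1 / (2 : ℝ) ^ k + δ) := by
  classical
  obtain ⟨R, hR⟩ : ∃ R : ℕ, R = 2 ^ (k + 1) := ⟨_, rfl⟩
  have hR2 : 2 ≤ R := by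
    rw [hR, pow_succ]
    have : 1 ≤ 2 ^ k := Nat.one_le_two_pow
    omega
  have hRk : 1 / (R : ℝ) ≤ 1 / (2 : ℝ) ^ k := by
    rw [hR]
    push_cast
    exact one_div_le_one_div_of_le (by positivity) (pow_le_pow_right₀ (by norm_num) (by omega))
  obtain ⟨c1, hc1, -, hc11, N₁, hbig⟩ := line_main R hR2 (δ / 4) (by positivity)
  obtain ⟨ε, hε, N₂, hfix⟩ := fixed k R (δ / 4) (by positivity)
  obtain ⟨C0, κ0, hexps⟩ := exps_int
  obtain ⟨ε2, hε2⟩ : ∃ ε2 : ℝ, ε2 = min ε (δ / (16 * (k + 1))) := ⟨_, rfl⟩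
  have hε20 : 0 < ε2 := by rw [hε2]; exact lt_min hε (by positivity)
  have hε2ε : ε2 ≤ ε := by rw [hε2]; exact min_le_left _ _
  have hk0 : (0 : ℝ) ≤ k := Nat.cast_nonneg k
  have hε2k : 2 * k * ε2 ≤ δ / 8 := by
    have h1 : ε2 ≤ δ / (16 * (k + 1)) := by rw [hε2]; exact min_le_right _ _
    rw [le_div_iff₀ (by positivity)] at h1
    nlinarith
  have hε2δ : ε2 ≤ δ / 16 := by
    have h1 : ε2 ≤ δ / (16 * (k + 1)) := by rw [hε2]; exact min_le_right _ _
    rw [le_div_iff₀ (by positivity)] at h1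
    nlinarith
  obtain ⟨c, hc⟩ : ∃ c : ℝ, c = min c1 (ε2 / (2 * (κ0 + 1))) := ⟨_, rfl⟩
  have hc0 : 0 < c := by rw [hc]; exact lt_min hc1 (by positivity)
  have hcc1 : c ≤ c1 := by rw [hc]; exact min_le_left _ _
  have hκ0 : (0 : ℝ) ≤ κ0 := Nat.cast_nonneg _
  have hcκ : c * (κ0 + 1) ≤ ε2 / 2 := by
    have h1 : c ≤ ε2 / (2 * (κ0 + 1)) := by rw [hc]; exact min_le_right _ _
    rw [le_div_iff₀ (by positivity)] at h1
    linarith
  have hcε2 : c ≤ ε2 / 2 := by nlinarith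
  have hxt := tendsto_natCast_atTop_atTop (R := ℝ)
  have e1 := ((tendsto_rpow_atTop (show 0 < ε2 / 2 by positivity)).comp hxt).eventually_ge_atTop
    ((C0 : ℝ) * 4 ^ κ0 + 2)
  have e3 := ((tendsto_rpow_atTop (show 0 < 5 * δ / 8 by positivity)).comp hxt).eventually_ge_atTop
    (2 + (k : ℝ) + 16 ^ k * R ^ k * 2 ^ (1 / (2 : ℝ) ^ k + δ / 4))
  obtain ⟨N₃, hN₃⟩ := eventually_atTop.1 (e1.and (e3.and (eventually_ge_atTop 1)))
  refine ⟨c, hc0, max N₁ (max N₂ N₃), ?_⟩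
  intro N hN g hg0 hgd hgv x hx hind Y hY
  obtain ⟨g1, g3, hN1⟩ := hN₃ N ((le_max_right _ _).trans ((le_max_right _ _).trans hN))
  have hNN1 : N₁ ≤ N := (le_max_left _ _).trans hN
  have hNN2 : N₂ ≤ 2 * N := by
    have := (le_max_left _ _).trans ((le_max_right _ _).trans hN)
    omega
  simp only [Function.comp] at g1 g3
  have hN0 : (0 : ℝ) < N := by exact_mod_cast hN1
  have hN1' : (1 : ℝ) ≤ N := by exact_mod_cast hN1
  obtain ⟨z, hz⟩ : ∃ z : ℝ, z = (N : ℝ) ^ c := ⟨_, rfl⟩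
  have hz1 : 1 ≤ z := by rw [hz]; exact Real.one_le_rpow hN1' hc0.le
  have hz0 : 0 < z := by linarith
  have hzz1 : z ≤ (N : ℝ) ^ c1 := by
    rw [hz]
    exact Real.rpow_le_rpow_of_exponent_le hN1' hcc1
  have hzc1 : Real.exp z ≤ Real.exp ((N : ℝ) ^ c1) := Real.exp_le_exp.2 hzz1
  have hz2 : z ≤ (N : ℝ) ^ (ε2 / 2) := by
    rw [hz]
    exact Real.rpow_le_rpow_of_exponent_le hN1' hcε2
  have hC0 : (0 : ℝ) ≤ C0 * 4 ^ κ0 := by positivity
  have hNhalf : (N : ℝ) ^ (ε2 / 2) * (N : ℝ) ^ (ε2 / 2) = (N : ℝ) ^ ε2 := by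
    rw [← Real.rpow_add hN0]
    ring_nf
  have hN2ε : (N : ℝ) ^ ε2 ≤ ((2 * N : ℕ) : ℝ) ^ ε := by
    have h1 : (N : ℝ) ^ ε2 ≤ (N : ℝ) ^ ε := Real.rpow_le_rpow_of_exponent_le hN1' hε2ε
    refine h1.trans (Real.rpow_le_rpow hN0.le ?_ hε.le)
    push_cast
    linarith
  have hzε : 1 + z ≤ (N : ℝ) ^ ε2 := by
    rw [← hNhalf]
    nlinarith
  rw [← hz] at hgd hgv hx hY
  -- the bound for the exponents
  obtain ⟨S, hS⟩ : ∃ S : ℕ, S = ⌈2 * z⌉₊ + 1 := ⟨_, rfl⟩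
  have hSz : 2 * z + 1 ≤ S := by
    rw [hS]
    push_cast
    have := Nat.le_ceil (2 * z)
    linarith
  have hSz' : (S : ℝ) ≤ 4 * z := by
    rw [hS]
    push_cast
    have := Nat.ceil_lt_add_one (show 0 ≤ 2 * z by linarith)
    linarith
  have hS2 : 2 ≤ S := by
    have h1 : (3 : ℝ) ≤ S := by linarith
    have h2 : 3 ≤ S := by exact_mod_cast h1
    omega
  have hexp := exp_le_two_pow z hz0.le S hSz
  have hexp0 := Real.exp_pos z
  obtain ⟨B, hB⟩ : ∃ B : ℕ, B = C0 * S ^ κ0 := ⟨_, rfl⟩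
  have hBN : (B : ℝ) ≤ (N : ℝ) ^ ε2 := by
    rw [hB]
    push_cast
    have h1 : (S : ℝ) ^ κ0 ≤ 4 ^ κ0 * (N : ℝ) ^ (ε2 / 2) := by
      calc (S : ℝ) ^ κ0 ≤ (4 * z) ^ κ0 := pow_le_pow_left₀ (Nat.cast_nonneg _) hSz' _
        _ = 4 ^ κ0 * z ^ κ0 := mul_pow _ _ _
        _ ≤ 4 ^ κ0 * (N : ℝ) ^ (ε2 / 2) := by
          refine mul_le_mul_of_nonneg_left ?_ (by positivity)
          rw [hz, ← Real.rpow_natCast, ← Real.rpow_mul hN0.le]
          refine Real.rpow_le_rpow_of_exponent_le hN1' ?_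
          have h5 : c * (κ0 : ℝ) ≤ c * (κ0 + 1) := by nlinarith
          exact h5.trans hcκ
    calc (C0 : ℝ) * (S : ℝ) ^ κ0 ≤ C0 * (4 ^ κ0 * (N : ℝ) ^ (ε2 / 2)) :=
          mul_le_mul_of_nonneg_left h1 (Nat.cast_nonneg _)
      _ = (C0 * 4 ^ κ0) * (N : ℝ) ^ (ε2 / 2) := by ring
      _ ≤ (N : ℝ) ^ (ε2 / 2) * (N : ℝ) ^ (ε2 / 2) :=
          mul_le_mul_of_nonneg_right (by linarith) (by positivity)
      _ = (N : ℝ) ^ ε2 := hNhalf
  -- two different values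
  obtain ⟨n₁, hn₁, hgn⟩ : ∃ n₁ : ℤ, |n₁| ≤ N ∧ g.eval n₁ ≠ g.eval 0 := by
    by_contra hcon
    push Not at hcon
    have h1 := card_value g hg0 (g.eval 0) (Finset.Icc (-(N : ℤ)) N)
    rw [Finset.filter_true_of_mem fun n hn => hcon n (abs_le.2 (Finset.mem_Icc.1 hn)),
      Int.card_Icc] at h1
    have h2 : ((N : ℤ) + 1 - -(N : ℤ)).toNat = 2 * N + 1 := by omega
    rw [h2] at h1
    have h3 : ((2 * N + 1 : ℕ) : ℝ) ≤ (N : ℝ) ^ (1 : ℝ) := by
      refine le_trans ?_ ((hgd.trans (le_of_eq hz)).trans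
        (Real.rpow_le_rpow_of_exponent_le hN1' (hcc1.trans hc11)))
      exact_mod_cast h1
    rw [Real.rpow_one] at h3
    push_cast at h3
    linarith
  have hlogn : Real.log (g.eval n₁ - g.eval 0).natAbs ≤ 1 + z := by
    have h1 := hgv n₁ hn₁
    have h2 := hgv 0 (by rw [abs_zero]; exact Int.natCast_nonneg N)
    rw [Nat.cast_natAbs, Int.cast_abs]
    have h3 : |((g.eval n₁ - g.eval 0 : ℤ) : ℝ)| ≤ Real.exp (1 + z) := by
      push_cast
      refine (abs_sub _ _).trans ?_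
      rw [Real.exp_add]
      have h4 : 2 ≤ Real.exp 1 := by
        have := Real.add_one_le_exp (1 : ℝ)
        linarith
      nlinarith
    have h4 : 0 < |((g.eval n₁ - g.eval 0 : ℤ) : ℝ)| := by
      rw [abs_pos]
      exact_mod_cast sub_ne_zero.2 hgn
    exact (Real.log_le_iff_le_exp h4).2 h3
  -- the parts of `Y`
  obtain ⟨J, hJ⟩ : ∃ J : Finset (Dat k), J = (Fintype.piFinset fun _ => range (B + 1)) ×ˢ
      ((Fintype.piFinset fun _ => range (B + 1)) ×ˢ ((Fintype.piFinset fun _ => range R) ×ˢ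
        ((Fintype.piFinset fun _ => ({1, -1} : Finset ℤ)) ×ˢ
          (Fintype.piFinset fun _ => ({1, -1} : Finset ℤ))))) := ⟨_, rfl⟩
  have hJc : J.card = (B + 1) ^ k * ((B + 1) ^ k * (R ^ k * (2 ^ k * 2 ^ k))) := by
    rw [hJ]
    simp only [card_product, Fintype.card_piFinset, card_range, prod_const, card_univ,
      Fintype.card_fin]
    rfl
  obtain ⟨F, hF⟩ : ∃ F : Dat k → Finset ℤ, F = fun j : Dat k => Y.filter fun n : ℤ =>
      (∀ i, 0 < j.1 i) ∧ (∀ i, 2 ≤ j.2.1 i) ∧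
        (∀ i, (j.2.2.1 i).Prime) ∧ ∀ i, ∃ w : ℤ,
          (x i : ℤ) ^ j.1 i + j.2.2.2.1 i * (g.eval n) ^ j.2.1 i = j.2.2.2.2 i * w ^ j.2.2.1 i :=
    ⟨_, rfl⟩
  obtain ⟨G, hG⟩ : ∃ G : Fin k → Finset ℤ, G = fun i => Y.filter fun n : ℤ =>
    Pair R (Real.exp z) (x i : ℤ) (g.eval n) := ⟨_, rfl⟩
  have hsub : Y ⊆ ((Y.filter fun n => g.eval n = 1) ∪ (Y.filter fun n => g.eval n = -1)) ∪
      ((univ.biUnion G) ∪ (J.biUnion F)) := by
    intro n hn
    obtain ⟨hn1, hn3⟩ := hY n hn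
    rw [mem_union, mem_union, mem_union, mem_biUnion, mem_biUnion, mem_filter, mem_filter]
    by_cases h1 : g.eval n = 1
    · exact Or.inl (Or.inl ⟨hn, h1⟩)
    by_cases h1' : g.eval n = -1
    · exact Or.inl (Or.inr ⟨hn, h1'⟩)
    right
    by_cases h2 : ∃ i, Pair R (Real.exp z) (x i : ℤ) (g.eval n)
    · left
      obtain ⟨i, hi⟩ := h2
      exact ⟨i, mem_univ _, by rw [hG]; exact mem_filter.2 ⟨hn, hi⟩⟩
    · right
      push Not at h2
      have h3 := fun i => (part_cases (R := R) (hn3 i)).resolve_left (h2 i)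
      choose d u m e r s t hI hd hr hrR w hw using h3
      have hyS : (g.eval n).natAbs ≤ 2 ^ S := by
        have h4 : ((g.eval n).natAbs : ℝ) ≤ 2 ^ S := by
          have h5 := hgv n hn1
          rw [Nat.cast_natAbs, Int.cast_abs]
          linarith
        exact_mod_cast h4
      have hxS : ∀ i, ((x i : ℤ)).natAbs ≤ 2 ^ S := by
        intro i
        rw [Int.natAbs_natCast]
        have h4 : (x i : ℝ) ≤ 2 ^ S := by
          have h5 := (hx i).2
          linarith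
        exact_mod_cast h4
      have hdS : ∀ i, (d i).natAbs ≤ 2 ^ S := by
        intro i
        have h4 : ((d i).natAbs : ℝ) ≤ 2 ^ S := by
          have h5 := hd i
          rw [Nat.cast_natAbs, Int.cast_abs]
          linarith
        exact_mod_cast h4
      have hexp' := fun i => hexps S hS2 (x i) (g.eval n) (d i) (u i) (m i) (e i) (s i) (t i) (hI i)
        (hxS i) hyS (hdS i)
      refine ⟨(u, m, r, s, t), ?_, ?_⟩
      · rw [hJ]
        simp only [mem_product, Fintype.mem_piFinset, mem_range, mem_insert, mem_singleton]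
        refine ⟨fun i => ?_, fun i => ?_, hrR, fun i => (hI i).s1, fun i => (hI i).t1⟩
        · have := (hexp' i).1 (by rw [Int.natAbs_natCast]; exact (hx i).1)
          rw [← hB] at this
          omega
        · have h0 := (hI i).b0
          have := (hexp' i).2.1 (by omega)
          rw [← hB] at this
          omega
      · rw [hF]
        exact mem_filter.2 ⟨hn, fun i => (hI i).l0, fun i => isol_two (hI i), hr,
          fun i => ⟨w i, hw i⟩⟩
  have hGc : ∀ i, ((G i).card : ℝ) ≤ (N : ℝ) ^ (1 / (2 : ℝ) ^ k + δ / 4 + δ / 8) := by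
    intro i
    refine (hbig N hNN1 (C (x i : ℤ)) g (Or.inr hg0) ?_ ?_ ?_ (G i) ?_).trans ?_
    · rw [natDegree_C, Nat.cast_zero]
      positivity
    · exact hgd.trans hzz1
    · intro n hn
      rw [eval_C]
      push_cast
      rw [Nat.abs_cast]
      exact ⟨(hx i).2.trans hzc1, (hgv n hn).trans hzc1⟩
    · intro n hn
      rw [hG, mem_filter] at hn
      refine ⟨(hY n hn.1).1, ?_⟩
      rw [eval_C]
      obtain ⟨d, l, m, e, s, t, hI, hp, hd⟩ := hn.2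
      exact ⟨d, l, m, e, s, t, hI, hp, hd.trans hzc1⟩
    · exact Real.rpow_le_rpow_of_exponent_le hN1' (by linarith)
  obtain ⟨g', hg'⟩ : ∃ g' : ℤ[X], g' = g.comp (X - C (N : ℤ)) := ⟨_, rfl⟩
  have hg'd : g'.natDegree = g.natDegree := by
    rw [hg', natDegree_comp, natDegree_X_sub_C, mul_one]
  have hg'e : ∀ n : ℤ, g'.eval (n + N) = g.eval n := by
    intro n
    rw [hg', eval_comp, eval_sub, eval_X, eval_C, add_sub_cancel_right]
  have hFc : ∀ j ∈ J, ((F j).card : ℝ) ≤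
      2 ^ (1 / (2 : ℝ) ^ k + δ / 4) * (N : ℝ) ^ (1 / (2 : ℝ) ^ k + δ / 4) := by
    intro j hj
    rcases (F j).eq_empty_or_nonempty with h0 | ⟨y0, hy0⟩
    · rw [h0, card_empty, Nat.cast_zero]
      positivity
    · rw [hF, mem_filter] at hy0
      obtain ⟨-, hu, hm, hr, -⟩ := hy0
      rw [hJ] at hj
      simp only [mem_product, Fintype.mem_piFinset, mem_range, mem_insert, mem_singleton] at hj
      obtain ⟨hj1, hj2, hj3, hj4, hj5⟩ := hj
      have hle : ∀ b : ℕ, b < B + 1 → (b : ℝ) ≤ ((2 * N : ℕ) : ℝ) ^ ε := by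
        intro b hb
        have h1 : (b : ℝ) ≤ B := by exact_mod_cast Nat.lt_succ_iff.1 hb
        exact (h1.trans hBN).trans hN2ε
      have hFY : ∀ n ∈ F j, |n| ≤ (N : ℤ) := fun n hn => by
        rw [hF, mem_filter] at hn
        exact (hY n hn.1).1
      have hinj : Set.InjOn (fun n : ℤ => (n + N).toNat) (F j) := by
        intro a ha b hb hab
        have h1 := abs_le.1 (hFY a ha)
        have h2 := abs_le.1 (hFY b hb)
        simp only at hab
        omega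
      have h2N : (((2 * N : ℕ) : ℝ)) ^ (1 / (2 : ℝ) ^ k + δ / 4) =
          2 ^ (1 / (2 : ℝ) ^ k + δ / 4) * (N : ℝ) ^ (1 / (2 : ℝ) ^ k + δ / 4) := by
        push_cast
        exact Real.mul_rpow (by norm_num) hN0.le
      rw [← h2N, ← Finset.card_image_of_injOn hinj]
      refine hfix (2 * N) hNN2 g' ?_ (n₁ + N) (0 + N) ?_ ?_ x (fun i => (hx i).1) (fun i => ?_) hind
        j.1 j.2.1 j.2.2.1 j.2.2.2.1
        j.2.2.2.2 (fun i => ⟨hu i, hle _ (hj1 i)⟩) (fun i => ⟨hm i, hle _ (hj2 i)⟩)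
        (fun i => ⟨hr i, hj3 i⟩) hj4 hj5 _ ?_ ?_
      · rw [hg'd]
        linarith
      · rw [hg'e, hg'e]
        exact hgn
      · rw [hg'e, hg'e]
        linarith
      · have h1 : (0 : ℝ) < x i := by
          have := (hx i).1
          exact_mod_cast (by omega : 0 < x i)
        have h2 := (Real.log_le_iff_le_exp h1).2 (hx i).2
        linarith
      · intro y hy y' hy'
        obtain ⟨n, hn, rfl⟩ := mem_image.1 hy
        obtain ⟨n', hn', rfl⟩ := mem_image.1 hy'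
        have h1 := abs_le.1 (hFY n hn)
        have h2 := abs_le.1 (hFY n' hn')
        have h3 : (n + N).toNat ≤ (n' + N).toNat + 2 * N := by omega
        exact_mod_cast h3
      · intro y hy
        obtain ⟨n, hn, rfl⟩ := mem_image.1 hy
        have h1 := abs_le.1 (hFY n hn)
        have h2 : ((n + N).toNat : ℤ) = n + N := by omega
        rw [h2, hg'e]
        rw [hF, mem_filter] at hn
        exact hn.2.2.2.2
  -- conclusion
  obtain ⟨V, hV⟩ : ∃ V : ℝ, V = (N : ℝ) ^ (1 / (2 : ℝ) ^ k + δ / 4 + δ / 8) := ⟨_, rfl⟩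
  obtain ⟨T2, hT2⟩ : ∃ T2 : ℝ, T2 = 2 ^ (1 / (2 : ℝ) ^ k + δ / 4) := ⟨_, rfl⟩
  have hT20 : 0 < T2 := by rw [hT2]; positivity
  rw [← hT2] at hFc g3
  have h2k : 0 < 1 / (2 : ℝ) ^ k := by positivity
  have hgV : (g.natDegree : ℝ) ≤ V := by
    refine hgd.trans ?_
    rw [hz, hV]
    exact Real.rpow_le_rpow_of_exponent_le hN1' (by linarith)
  have hcard : (Y.card : ℝ) ≤ (V + V) + (k * V + J.card *
      (T2 * (N : ℝ) ^ (1 / (2 : ℝ) ^ k + δ / 4))) := by
    have h1 := (Finset.card_le_card hsub).trans ((Finset.card_union_le _ _).trans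
      (Nat.add_le_add (Finset.card_union_le _ _) (Finset.card_union_le _ _)))
    have h2 : ((univ.biUnion G).card : ℝ) ≤ k * V := by
      calc ((univ.biUnion G).card : ℝ) ≤ ∑ i, ((G i).card : ℝ) := by
            exact_mod_cast Finset.card_biUnion_le
        _ ≤ ∑ _i : Fin k, V := Finset.sum_le_sum fun i _ => by rw [hV]; exact hGc i
        _ = k * V := by rw [Finset.sum_const, Finset.card_univ, Fintype.card_fin, nsmul_eq_mul]
    have h3 : ((J.biUnion F).card : ℝ) ≤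
        J.card * (T2 * (N : ℝ) ^ (1 / (2 : ℝ) ^ k + δ / 4)) := by
      calc ((J.biUnion F).card : ℝ) ≤ ∑ j ∈ J, ((F j).card : ℝ) := by
            exact_mod_cast Finset.card_biUnion_le
        _ ≤ ∑ _j ∈ J, T2 * (N : ℝ) ^ (1 / (2 : ℝ) ^ k + δ / 4) := Finset.sum_le_sum hFc
        _ = _ := by rw [Finset.sum_const, nsmul_eq_mul]
    have h4 : (Y.card : ℝ) ≤ (((Y.filter fun n => g.eval n = 1).card : ℕ) +
      ((Y.filter fun n => g.eval n = -1).card : ℕ)) + ((univ.biUnion G).card +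
      (J.biUnion F).card) := by exact_mod_cast h1
    have h5 : (((Y.filter fun n => g.eval n = 1).card : ℕ) : ℝ) ≤ V :=
      le_trans (by exact_mod_cast card_value g hg0 1 Y) hgV
    have h6 : (((Y.filter fun n => g.eval n = -1).card : ℕ) : ℝ) ≤ V :=
      le_trans (by exact_mod_cast card_value g hg0 (-1) Y) hgV
    linarith
  have hJr : (J.card : ℝ) * (T2 * (N : ℝ) ^ (1 / (2 : ℝ) ^ k + δ / 4)) ≤
      16 ^ k * R ^ k * T2 * V := by
    rw [hJc]
    push_cast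
    have h1 : (1 : ℝ) ≤ (N : ℝ) ^ ε2 := Real.one_le_rpow hN1' hε20.le
    have h2 : ((B : ℝ) + 1) ^ k * ((B : ℝ) + 1) ^ k ≤ 4 ^ k * (N : ℝ) ^ (δ / 8) := by
      calc ((B : ℝ) + 1) ^ k * ((B : ℝ) + 1) ^ k = ((B : ℝ) + 1) ^ (2 * k) := by ring
        _ ≤ (2 * (N : ℝ) ^ ε2) ^ (2 * k) := pow_le_pow_left₀ (by positivity) (by linarith) _
        _ = 4 ^ k * (N : ℝ) ^ (2 * k * ε2) := by
          rw [mul_pow, pow_mul, ← Real.rpow_natCast ((N : ℝ) ^ ε2), ← Real.rpow_mul hN0.le]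
          congr 2
          · norm_num
          · push_cast
            ring
        _ ≤ _ := mul_le_mul_of_nonneg_left
          (Real.rpow_le_rpow_of_exponent_le hN1' hε2k) (by positivity)
    have h3 : (N : ℝ) ^ (δ / 8) * (N : ℝ) ^ (1 / (2 : ℝ) ^ k + δ / 4) = V := by
      rw [← Real.rpow_add hN0, hV]
      ring_nf
    calc _ = (((B : ℝ) + 1) ^ k * ((B : ℝ) + 1) ^ k) * (R ^ k * (2 ^ k * 2 ^ k)) * T2 *
          (N : ℝ) ^ (1 / (2 : ℝ) ^ k + δ / 4) := by ring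
      _ ≤ (4 ^ k * (N : ℝ) ^ (δ / 8)) * (R ^ k * (2 ^ k * 2 ^ k)) * T2 *
          (N : ℝ) ^ (1 / (2 : ℝ) ^ k + δ / 4) := by gcongr
      _ = (4 ^ k * (2 ^ k * 2 ^ k)) * R ^ k * T2 * ((N : ℝ) ^ (δ / 8) *
          (N : ℝ) ^ (1 / (2 : ℝ) ^ k + δ / 4)) := by ring
      _ = 16 ^ k * R ^ k * T2 * V := by
        rw [h3, ← mul_pow, ← mul_pow]
        norm_num
  have hV0 : 0 ≤ V := by rw [hV]; positivity
  calc (Y.card : ℝ) ≤ (V + V) + (k * V + J.card *
        (T2 * (N : ℝ) ^ (1 / (2 : ℝ) ^ k + δ / 4))) := hcard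
    _ ≤ (V + V) + (k * V + 16 ^ k * R ^ k * T2 * V) := by linarith
    _ = (2 + (k : ℝ) + 16 ^ k * R ^ k * T2) * V := by ring
    _ ≤ (N : ℝ) ^ (5 * δ / 8) * V := mul_le_mul_of_nonneg_right g3 hV0
    _ = (N : ℝ) ^ (1 / (2 : ℝ) ^ k + δ) := by
        rw [hV, ← Real.rpow_add hN0]
        ring_nf

end Pool.Agent.Helper82.FC
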