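import Pool.Agent.Helper82.FC.Weil

/-!
# The number of the residue classes where several polynomials are powers

Let `P_i` be monic polynomials over a finite field `F`, each with a simple root (in an algebraic closure)
which is not a root of the others, and `r_i` primes dividing `|F| - 1` (repetitions are allowed). The
number of the `u` for which every `P_i(u)` is `c_i` times an `r_i`-th power is at most `|F| / ∏ r_i` plus
an error term of the order of `√|F|` (Weil's bound for characters of composite order).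
-/

set_option autoImplicit false

namespace Pool.Agent.Helper82.FC

open Polynomial Finset

section

variable {F : Type} [Field F] [Fintype F] [DecidableEq F]

theorem mul_char_norm_le (χ : MulChar F ℂ) (x : F) : ‖χ x‖ ≤ 1 :=
  Pool.Agent.H435R3.Weil.WELE.mc_norm_le_one χ x

variable {ι : Type} [Fintype ι] [DecidableEq ι]

/-- every `P i` has a simple root which is not a root of the others -/
def Simp (P : ι → F[X]) : Prop :=
  ∃ (Om : Type) (_ : Field Om) (_ : IsAlgClosed Om) (φ : F →+* Om),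
    ∀ i, ∃ v : Om, rootMultiplicity v ((P i).map φ) = 1 ∧
      ∀ j, j ≠ i → rootMultiplicity v ((P j).map φ) = 0

theorem rm_prod {Om : Type} [Field Om] (Q : ι → Om[X]) (hQ : ∀ i, Q i ≠ 0) (e : ι → ℕ) (v : Om)
    (s : Finset ι) : rootMultiplicity v (∏ i ∈ s, Q i ^ e i) =
      ∑ i ∈ s, e i * rootMultiplicity v (Q i) := by
  induction s using Finset.induction_on with
  | empty =>
    rw [Finset.prod_empty, Finset.sum_empty]
    have := rootMultiplicity_C (1 : Om) v
    rwa [C_1] at this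
  | insert a s ha ih =>
    rw [Finset.prod_insert ha, Finset.sum_insert ha, rootMultiplicity_mul, ih,
      Pool.Agent.H435R3.Weil.rm_pow _ _ (hQ a)]
    exact mul_ne_zero (pow_ne_zero _ (hQ a)) (Finset.prod_ne_zero_iff.2 fun i _ => pow_ne_zero _ (hQ i))

/-- one term of the expansion -/
theorem sum_char (P : ι → F[X]) (hP : ∀ i, (P i).Monic) (hS : Simp P) (r : ι → ℕ)
    (hr : ∀ i, (r i).Prime) (hd : ∀ i, r i ∣ Fintype.card F - 1) (X0 : MulChar F ℂ)
    (hX0 : orderOf X0 = Fintype.card F - 1) (j : ι → ℕ) (hj : ∀ i, j i < r i)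
    (hj0 : ∃ i, j i ≠ 0) :
    ∃ (χ : MulChar F ℂ) (e : ι → ℕ),
      (∀ i, ∀ x : F, (((X0 ^ ((Fintype.card F - 1) / r i)) x) ^ (j i) = (χ x) ^ (e i))) ∧
      ‖∑ x : F, χ (∏ i, (P i).eval x ^ e i)‖ ≤
        ((∏ i, r i) * ∑ i, (P i).natDegree : ℕ) * Real.sqrt (Fintype.card F) := by
  classical
  obtain ⟨n, hn⟩ : ∃ n, n = Fintype.card F - 1 := ⟨_, rfl⟩
  rw [← hn] at hX0 hd ⊢
  have hn0 : 0 < n := by
    have := Fintype.one_lt_card (α := F)
    omega
  obtain ⟨S, hSd⟩ : ∃ S : Finset ℕ, S = (univ.filter fun i => j i ≠ 0).image r := ⟨_, rfl⟩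
  have hSp : ∀ p ∈ S, p.Prime := by
    intro p hp
    rw [hSd, mem_image] at hp
    obtain ⟨i, -, rfl⟩ := hp
    exact hr i
  obtain ⟨t, ht⟩ : ∃ t, t = ∏ p ∈ S, p := ⟨_, rfl⟩
  have htn : t ∣ n := by
    rw [ht]
    refine Finset.prod_primes_dvd n (fun p hp => (hSp p hp).prime) fun p hp => ?_
    rw [hSd, mem_image] at hp
    obtain ⟨i, -, rfl⟩ := hp
    exact hd i
  have htT : t ∣ ∏ i, r i := by
    rw [ht]
    refine Finset.prod_primes_dvd _ (fun p hp => (hSp p hp).prime) fun p hp => ?_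
    rw [hSd, mem_image] at hp
    obtain ⟨i, -, rfl⟩ := hp
    exact Finset.dvd_prod_of_mem r (mem_univ i)
  have hT0 : 0 < ∏ i, r i := Finset.prod_pos fun i _ => (hr i).pos
  have htle : t ≤ ∏ i, r i := Nat.le_of_dvd hT0 htT
  obtain ⟨q, hq⟩ := htn
  have ht0 : 0 < t := by
    rcases Nat.eq_zero_or_pos t with h | h
    · rw [h, zero_mul] at hq; omega
    · exact h
  have hq0 : 0 < q := by
    rcases Nat.eq_zero_or_pos q with h | h
    · rw [h, mul_zero] at hq; omega
    · exact h
  have hri : ∀ i, j i ≠ 0 → r i ∈ S := by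
    intro i hi
    rw [hSd, mem_image]
    exact ⟨i, mem_filter.2 ⟨mem_univ _, hi⟩, rfl⟩
  have hrt : ∀ i, j i ≠ 0 → r i ∣ t := fun i hi => by
    rw [ht]
    exact Finset.dvd_prod_of_mem (fun p : ℕ => p) (hri i hi)
  have ht2 : 2 ≤ t := by
    obtain ⟨i, hi⟩ := hj0
    exact (hr i).two_le.trans (Nat.le_of_dvd ht0 (hrt i hi))
  have hχt : (X0 ^ q) ^ t = 1 := by
    rw [← pow_mul, mul_comm q t, ← hq, ← hX0, pow_orderOf_eq_one]
  have hχ1 : X0 ^ q ≠ 1 := by
    intro h
    have h1 := orderOf_dvd_of_pow_eq_one h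
    rw [hX0] at h1
    have h2 := Nat.le_of_dvd hq0 h1
    rw [hq] at h2
    nlinarith
  refine ⟨X0 ^ q, fun i => j i * (t / r i), fun i x => ?_, ?_⟩
  · show ((X0 ^ (n / r i)) x) ^ (j i) = ((X0 ^ q) x) ^ (j i * (t / r i))
    by_cases hi : j i = 0
    · rw [hi, zero_mul, pow_zero, pow_zero]
    · obtain ⟨ti, hti⟩ := hrt i hi
      have hri0 := (hr i).pos
      have hti0 : 0 < ti := by
        rcases Nat.eq_zero_or_pos ti with h | h
        · rw [h, mul_zero] at hti; omega
        · exact h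
      have e1 : n / r i = ti * q := by
        rw [hq, hti, mul_assoc, Nat.mul_div_cancel_left _ hri0]
      have e2 : t / r i = ti := by rw [hti, Nat.mul_div_cancel_left _ hri0]
      rw [e1, e2, MulChar.pow_apply' _ (Nat.mul_ne_zero hti0.ne' hq0.ne'),
        MulChar.pow_apply' _ hq0.ne', ← pow_mul, ← pow_mul]
      congr 1
      ring
  · have hQm : (∏ i, P i ^ (j i * (t / r i))).Monic :=
      monic_prod_of_monic _ _ fun i _ => (hP i).pow _
    have hcop : W.CopG t ((∏ i, P i ^ (j i * (t / r i))) * 1 ^ (t - 1)) := by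
      obtain ⟨Om, i1, i2, φ, hφ⟩ := hS
      refine ⟨Om, i1, i2, φ, fun p hp hpt => ?_⟩
      have hpS : p ∈ S := by
        rw [ht] at hpt
        obtain ⟨p', hp', hpp⟩ := (hp.prime.dvd_finsetProd_iff _).1 hpt
        rw [(Nat.prime_dvd_prime_iff_eq hp (hSp p' hp')).1 hpp]
        exact hp'
      have hpS' := hpS
      rw [hSd, mem_image] at hpS'
      obtain ⟨i, hi, hip⟩ := hpS'
      have hi' : j i ≠ 0 := (mem_filter.1 hi).2
      obtain ⟨v, hv1, hv2⟩ := hφ i
      refine ⟨v, ?_⟩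
      rw [one_pow, mul_one, Polynomial.map_prod]
      simp only [Polynomial.map_pow]
      rw [rm_prod _ (fun i => ((hP i).map φ).ne_zero)]
      rw [Finset.sum_eq_single i]
      · rw [hv1, mul_one]
        intro h
        rcases hp.dvd_mul.1 h with h | h
        · have := Nat.le_of_dvd (Nat.pos_of_ne_zero hi') h
          have := hj i
          omega
        · have e1 : t = p * ∏ p' ∈ S.erase p, p' := by
            rw [ht, Finset.mul_prod_erase S (fun p : ℕ => p) hpS]
          rw [hip, e1, Nat.mul_div_cancel_left _ hp.pos] at h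
          obtain ⟨p', hp', hpp⟩ := (hp.prime.dvd_finsetProd_iff _).1 h
          rw [mem_erase] at hp'
          exact hp'.1 ((Nat.prime_dvd_prime_iff_eq hp (hSp p' hp'.2)).1 hpp).symm
      · intro k _ hk
        rw [hv2 k hk, mul_zero]
      · intro h
        exact absurd (mem_univ i) h
    have hw := W.weil t ht2 (by rw [← hn, hq]; exact Dvd.intro _ rfl) (X0 ^ q) hχ1 hχt
      (∏ i, P i ^ (j i * (t / r i))) 1 hQm monic_one hcop
    have hdeg : (∏ i, P i ^ (j i * (t / r i))).natDegree ≤ (∏ i, r i) * ∑ i, (P i).natDegree := by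
      rw [natDegree_prod_of_monic _ _ fun i _ => (hP i).pow _, Finset.mul_sum]
      refine Finset.sum_le_sum fun i _ => ?_
      rw [(hP i).natDegree_pow]
      refine Nat.mul_le_mul_right _ ?_
      calc j i * (t / r i) ≤ r i * (t / r i) := Nat.mul_le_mul_right _ (hj i).le
        _ ≤ t := Nat.mul_div_le t (r i)
        _ ≤ _ := htle
    have e3 : ∀ x : F, (X0 ^ q) (eval x (∏ i, P i ^ (j i * (t / r i)))) *
        (starRingEnd ℂ) ((X0 ^ q) (eval x (1 : F[X]))) =
        (X0 ^ q) (∏ i, (P i).eval x ^ (j i * (t / r i))) := by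
      intro x
      rw [eval_one, map_one, map_one, mul_one, eval_prod]
      simp only [eval_pow]
    simp_rw [e3] at hw
    refine hw.trans (mul_le_mul_of_nonneg_right ?_ (Real.sqrt_nonneg _))
    rw [natDegree_one, add_zero]
    exact_mod_cast hdeg

/-- the zeros -/
theorem card_zeros (P : ι → F[X]) (hP : ∀ i, (P i).Monic) :
    ((univ.filter fun u : F => ¬ ∀ i, (P i).eval u ≠ 0).card : ℝ) ≤ ∑ i, (P i).natDegree := by
  have h1 : (univ.filter fun u : F => ¬ ∀ i, (P i).eval u ≠ 0) ⊆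
      univ.biUnion fun i => (P i).roots.toFinset := by
    intro u hu
    rw [mem_filter] at hu
    obtain ⟨-, hu⟩ := hu
    push Not at hu
    obtain ⟨i, hi⟩ := hu
    rw [mem_biUnion]
    refine ⟨i, mem_univ _, ?_⟩
    rw [Multiset.mem_toFinset, mem_roots (hP i).ne_zero]
    exact hi
  have h2 := (Finset.card_le_card h1).trans Finset.card_biUnion_le
  have h3 : ∑ i, ((P i).roots.toFinset).card ≤ ∑ i, (P i).natDegree :=
    Finset.sum_le_sum fun i _ => (Multiset.toFinset_card_le _).trans (card_roots' _)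
  exact_mod_cast h2.trans h3

/-- **the number of the classes where all the polynomials are powers** -/
theorem count_powers (P : ι → F[X]) (hP : ∀ i, (P i).Monic) (hS : Simp P) (r : ι → ℕ)
    (hr : ∀ i, (r i).Prime) (hd : ∀ i, r i ∣ Fintype.card F - 1) (c : ι → F)
    (hc : ∀ i, c i ≠ 0) :
    ((univ.filter fun u : F => ∀ i, ∃ w : F, (P i).eval u = c i * w ^ r i).card : ℝ) ≤
      (Fintype.card F : ℝ) / (∏ i, r i : ℕ) + 3 * ((∏ i, r i : ℕ) : ℝ) * (∑ i, (P i).natDegree : ℕ) *
        Real.sqrt (Fintype.card F) := by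
  classical
  obtain ⟨n, hn⟩ : ∃ n, n = Fintype.card F - 1 := ⟨_, rfl⟩
  have hn0 : 0 < n := by
    have := Fintype.one_lt_card (α := F)
    omega
  obtain ⟨X0, hX0⟩ := MulChar.exists_mulChar_orderOf F (show n ∣ Fintype.card F - 1 by rw [hn])
    (Complex.isPrimitiveRoot_exp n hn0.ne')
  obtain ⟨T, hT⟩ : ∃ T, T = ∏ i, r i := ⟨_, rfl⟩
  obtain ⟨D, hD⟩ : ∃ D, D = ∑ i, (P i).natDegree := ⟨_, rfl⟩
  have hT0 : 0 < T := by rw [hT]; exact Finset.prod_pos fun i _ => (hr i).pos
  have hT0' : (0 : ℝ) < T := by exact_mod_cast hT0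
  have hT1' : (1 : ℝ) ≤ T := by exact_mod_cast hT0
  obtain ⟨q, hq⟩ : ∃ q : ℝ, q = Fintype.card F := ⟨_, rfl⟩
  have hq1 : 1 ≤ Real.sqrt q := by
    rw [Real.one_le_sqrt, hq]
    exact_mod_cast Fintype.card_pos
  have hq0 : 0 ≤ q := by rw [hq]; exact Nat.cast_nonneg _
  rw [← hT, ← hD, ← hq]
  have hD0 : (0 : ℝ) ≤ D := Nat.cast_nonneg _
  obtain ⟨G, hG⟩ : ∃ G : Finset F, G = univ.filter fun u : F => ∀ i, (P i).eval u ≠ 0 := ⟨_, rfl⟩
  have hGc : ((univ.filter fun u : F => ¬ ∀ i, (P i).eval u ≠ 0).card : ℝ) ≤ D := by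
    rw [hD]; push_cast; exact_mod_cast card_zeros P hP
  obtain ⟨ψ, hψ⟩ : ∃ ψ : ι → F → ℂ, ψ = fun i u => (X0 ^ (n / r i)) ((c i)⁻¹ * (P i).eval u) :=
    ⟨_, rfl⟩
  have hnr : ∀ i, (n / r i) * r i = n := fun i => Nat.div_mul_cancel (by rw [hn]; exact hd i)
  have hnr0 : ∀ i, n / r i ≠ 0 := by
    intro i h
    have := hnr i
    rw [h, zero_mul] at this
    omega
  have hXr : ∀ i, ∀ x : F, x ≠ 0 → ((X0 ^ (n / r i)) x) ^ r i = 1 := by
    intro i x hx
    rw [MulChar.pow_apply' _ (hnr0 i), ← pow_mul, hnr i, ← map_pow, hn,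
      FiniteField.pow_card_sub_one_eq_one x hx, map_one]
  have hψr : ∀ i, ∀ u ∈ G, ψ i u ^ r i = 1 := by
    intro i u hu
    rw [hG, mem_filter] at hu
    rw [hψ]
    exact hXr i _ (mul_ne_zero (inv_ne_zero (hc i)) (hu.2 i))
  obtain ⟨Z, hZ⟩ : ∃ Z : Finset F, Z = G.filter fun u => ∀ i, ψ i u = 1 := ⟨_, rfl⟩
  -- the good classes
  have hsub : (univ.filter fun u : F => ∀ i, ∃ w : F, (P i).eval u = c i * w ^ r i) ⊆
      Z ∪ (univ.filter fun u : F => ¬ ∀ i, (P i).eval u ≠ 0) := by
    intro u hu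
    rw [mem_filter] at hu
    rw [mem_union]
    by_cases h : ∀ i, (P i).eval u ≠ 0
    · left
      rw [hZ, mem_filter, hG, mem_filter]
      refine ⟨⟨mem_univ _, h⟩, fun i => ?_⟩
      obtain ⟨w, hw⟩ := hu.2 i
      have hw0 : w ≠ 0 := by
        rintro rfl
        apply h i
        rw [hw, zero_pow (hr i).ne_zero, mul_zero]
      rw [hψ]
      show (X0 ^ (n / r i)) ((c i)⁻¹ * (P i).eval u) = 1
      rw [hw, ← mul_assoc, inv_mul_cancel₀ (hc i), one_mul, map_pow]
      exact hXr i w hw0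
    · right
      exact mem_filter.2 ⟨mem_univ _, h⟩
  -- the sum
  have hprod : ∀ u ∈ G, ∏ i, ∑ j ∈ range (r i), ψ i u ^ j = if u ∈ Z then (T : ℂ) else 0 := by
    intro u hu
    have h1 : ∀ i, ∑ j ∈ range (r i), ψ i u ^ j = if ψ i u = 1 then (r i : ℂ) else 0 := by
      intro i
      by_cases h : ψ i u = 1
      · rw [if_pos h, h]
        simp
      · rw [if_neg h, geom_sum_eq h, hψr i u hu, sub_self, zero_div]
    simp_rw [h1]
    by_cases hz : u ∈ Z
    · rw [if_pos hz, hT]
      rw [hZ, mem_filter] at hz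
      push_cast
      exact Finset.prod_congr rfl fun i _ => if_pos (hz.2 i)
    · rw [if_neg hz]
      rw [hZ, mem_filter, not_and] at hz
      have := hz hu
      push Not at this
      obtain ⟨i, hi⟩ := this
      exact Finset.prod_eq_zero (mem_univ i) (if_neg hi)
  have hsum : ∑ u ∈ G, ∏ i, ∑ j ∈ range (r i), ψ i u ^ j = (T : ℂ) * Z.card := by
    rw [Finset.sum_congr rfl hprod, ← Finset.sum_filter, Finset.sum_const, nsmul_eq_mul, mul_comm]
    congr 2
    congr 1
    ext u
    rw [mem_filter]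
    constructor
    · exact fun h => h.2
    · intro h
      refine ⟨?_, h⟩
      rw [hZ, mem_filter] at h
      exact h.1
  have hexp : ∑ u ∈ G, ∏ i, ∑ j ∈ range (r i), ψ i u ^ j =
      ∑ j ∈ Fintype.piFinset fun i => range (r i), ∑ u ∈ G, ∏ i, ψ i u ^ j i := by
    rw [Finset.sum_comm]
    refine Finset.sum_congr rfl fun u _ => ?_
    rw [Finset.prod_univ_sum]
  have hterm : ∀ j ∈ Fintype.piFinset fun i => range (r i),
      ‖∑ u ∈ G, ∏ i, ψ i u ^ j i‖ ≤ (if j = 0 then q else 0) + (T * D * Real.sqrt q + D) := by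
    intro j hj
    have hj' : ∀ i, j i < r i := fun i => mem_range.1 ((Fintype.mem_piFinset.1 hj) i)
    have hE : 0 ≤ T * D * Real.sqrt q + D := by positivity
    by_cases hj0 : j = 0
    · rw [if_pos hj0, hj0]
      simp only [Pi.zero_apply, pow_zero, Finset.prod_const_one, Finset.sum_const, nsmul_eq_mul,
        mul_one]
      rw [Complex.norm_natCast]
      have : (G.card : ℝ) ≤ q := by
        rw [hq]
        exact_mod_cast Finset.card_le_univ G
      linarith
    · rw [if_neg hj0, zero_add]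
      have hj1 : ∃ i, j i ≠ 0 := by
        by_contra h
        push Not at h
        exact hj0 (funext h)
      obtain ⟨χ, e, he, hw⟩ := sum_char P hP hS r hr hd X0 (by rw [hX0, hn]) j hj' hj1
      rw [← hn] at he
      have h1 : ∀ u, ∏ i, ψ i u ^ j i =
          (∏ i, χ ((c i)⁻¹) ^ e i) * χ (∏ i, (P i).eval u ^ e i) := by
        intro u
        rw [map_prod, ← Finset.prod_mul_distrib]
        refine Finset.prod_congr rfl fun i _ => ?_
        rw [hψ]
        show ((X0 ^ (n / r i)) ((c i)⁻¹ * (P i).eval u)) ^ j i = _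
        rw [he i, map_mul, mul_pow, map_pow]
      simp_rw [h1]
      rw [← Finset.mul_sum, norm_mul]
      have h2 : ‖∏ i, χ ((c i)⁻¹) ^ e i‖ ≤ 1 := by
        rw [norm_prod]
        refine Finset.prod_le_one (fun i _ => norm_nonneg _) fun i _ => ?_
        rw [norm_pow]
        exact pow_le_one₀ (norm_nonneg _) (mul_char_norm_le _ _)
      have h3 : ∑ u ∈ G, χ (∏ i, (P i).eval u ^ e i) = ∑ u, χ (∏ i, (P i).eval u ^ e i) -
          ∑ u ∈ univ.filter (fun u : F => ¬ ∀ i, (P i).eval u ≠ 0),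
            χ (∏ i, (P i).eval u ^ e i) := by
        rw [hG, ← Finset.sum_filter_add_sum_filter_not univ (fun u : F => ∀ i, (P i).eval u ≠ 0)]
        ring
      have h4 : ‖∑ u ∈ univ.filter (fun u : F => ¬ ∀ i, (P i).eval u ≠ 0),
            χ (∏ i, (P i).eval u ^ e i)‖ ≤ D := by
        refine (norm_sum_le _ _).trans ((Finset.sum_le_sum fun u _ => mul_char_norm_le χ _).trans ?_)
        rw [Finset.sum_const, nsmul_eq_mul, mul_one]
        exact hGc
      have h5 : ‖∑ u ∈ G, χ (∏ i, (P i).eval u ^ e i)‖ ≤ T * D * Real.sqrt q + D := by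
        rw [h3]
        refine (norm_sub_le _ _).trans (add_le_add ?_ h4)
        rw [hT, hD, hq]
        exact_mod_cast hw
      calc _ ≤ 1 * (T * D * Real.sqrt q + D) := mul_le_mul h2 h5 (norm_nonneg _) zero_le_one
        _ = _ := one_mul _
  have hmain : (T : ℝ) * Z.card ≤ q + T * (T * D * Real.sqrt q + D) := by
    have h1 : ‖(T : ℂ) * Z.card‖ = (T : ℝ) * Z.card := by
      rw [norm_mul, Complex.norm_natCast, Complex.norm_natCast]
    rw [← h1, ← hsum, hexp]
    refine (norm_sum_le _ _).trans ((Finset.sum_le_sum hterm).trans ?_)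
    rw [Finset.sum_add_distrib, Finset.sum_const, nsmul_eq_mul, Fintype.card_piFinset]
    simp only [card_range]
    rw [← hT]
    refine add_le_add ?_ le_rfl
    rw [Finset.sum_ite_eq']
    split_ifs
    · exact le_rfl
    · exact hq0
  have hZ2 : (Z.card : ℝ) ≤ q / T + (T * D * Real.sqrt q + D) := by
    rw [← sub_nonneg]
    have h1 : q / T + (T * D * Real.sqrt q + D) - Z.card =
        (q + T * (T * D * Real.sqrt q + D) - T * Z.card) / T := by
      field_simp
    rw [h1]
    exact div_nonneg (by linarith) hT0'.le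
  have hfin : ((univ.filter fun u : F => ∀ i, ∃ w : F, (P i).eval u = c i * w ^ r i).card : ℝ) ≤
      Z.card + D := by
    have h1 := (Finset.card_le_card hsub).trans (Finset.card_union_le _ _)
    have h2 : ((univ.filter fun u : F => ∀ i, ∃ w : F, (P i).eval u = c i * w ^ r i).card : ℝ) ≤
      Z.card + (univ.filter fun u : F => ¬ ∀ i, (P i).eval u ≠ 0).card := by exact_mod_cast h1
    linarith
  have hDs : (D : ℝ) ≤ T * D * Real.sqrt q := by
    calc (D : ℝ) = 1 * D * 1 := by ring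
      _ ≤ T * D * Real.sqrt q := by gcongr
  linarith

end

end Pool.Agent.Helper82.FC
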