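import Mathlib
import Pool.Agent.N741.PB.LineMain
import Pool.Agent.TH863.Alg

/-!
The signature `(p, p, r)`: coprime pairs `x`, `y` in a box for which `x ^ p + y ^ p` or
`|x ^ p - y ^ p|` is an `r`-th power.
-/

set_option autoImplicit false

namespace Pool.Agent.Helper82.FC

open Finset Polynomial Pool.Agent.N741.PB

/-- `x` and `y` are two bases with the same prime exponent `p` of a solution; the third exponent `r`
is a prime number `≥ R` and the third base is at most `W` -/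
def Two (R : ℕ) (W : ℝ) (x y : ℕ) : Prop := ∃ z p r : ℕ, 0 < z ∧ (z : ℝ) ≤ W ∧ p.Prime ∧
  r.Prime ∧ R ≤ r ∧ (1 : ℚ) / p + 1 / p + 1 / r ≤ 1 ∧
  (x ^ p + y ^ p = z ^ r ∨ x ^ p + z ^ r = y ^ p ∨ y ^ p + z ^ r = x ^ p)

/-- few multiples `κ c ^ r` of `r`-th powers in a short interval -/
lemma few_powers {κ r L : ℕ} (hκ : 1 ≤ κ) (hr : 1 ≤ r) (A : ℤ) (S : Finset ℤ)
    (hS : ∀ s ∈ S, A < s ∧ s ≤ A + L ∧ ∃ c : ℕ, s = κ * (c : ℤ) ^ r) : (S.card - 1) ^ r ≤ L := by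
  classical
  rcases Nat.lt_or_ge S.card 2 with h | h
  · have h0 : S.card - 1 = 0 := by omega
    rw [h0, zero_pow (by omega)]
    exact Nat.zero_le _
  have hex : ∀ s ∈ S, ∃ c : ℕ, s = κ * (c : ℤ) ^ r := fun s hs => (hS s hs).2.2
  choose! f hf using hex
  have hinj : Set.InjOn f S := by
    intro s hs t ht hst
    rw [hf s hs, hf t ht, hst]
  set T := S.image f with hT
  have hTc : T.card = S.card := card_image_of_injOn hinj
  have hne : T.Nonempty := by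
    rw [← card_pos, hTc]; omega
  set M := T.max' hne with hM
  set m := T.min' hne with hm
  have hMm : m ≤ M := T.min'_le_max' hne
  have hsub : T ⊆ Icc m M := fun t ht => mem_Icc.mpr ⟨T.min'_le t ht, T.le_max' t ht⟩
  have h1 : S.card ≤ M + 1 - m := by
    rw [← hTc, ← Nat.card_Icc]
    exact card_le_card hsub
  obtain ⟨s, hs, hs'⟩ := mem_image.mp (T.max'_mem hne)
  obtain ⟨t, ht, ht'⟩ := mem_image.mp (T.min'_mem hne)
  have e1 := hf s hs
  have e2 := hf t ht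
  rw [hs'] at e1
  rw [ht'] at e2
  have g1 := (hS s hs).2.1
  have g2 := (hS t ht).1
  obtain ⟨d, hd⟩ : ∃ d, M = m + d := ⟨M - m, by omega⟩
  have h2 : m ^ r + d ^ r ≤ M ^ r := by
    rw [hd]
    exact pow_add_pow_le (Nat.zero_le _) (Nat.zero_le _) (by omega)
  have h3 : (S.card - 1) ^ r ≤ d ^ r := Nat.pow_le_pow_left (by omega) r
  have h4 : (κ : ℤ) * (M : ℤ) ^ r - κ * (m : ℤ) ^ r < L := by
    rw [hM, hm]
    linarith
  have h5 : (m : ℤ) ^ r + (d : ℤ) ^ r ≤ (M : ℤ) ^ r := by exact_mod_cast h2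
  have h6 : (d : ℤ) ^ r ≤ κ * (d : ℤ) ^ r := by
    have : (0 : ℤ) ≤ (d : ℤ) ^ r := by positivity
    have hκ' : (1 : ℤ) ≤ κ := by exact_mod_cast hκ
    nlinarith
  have h7 : (κ : ℤ) * (d : ℤ) ^ r ≤ κ * (M : ℤ) ^ r - κ * (m : ℤ) ^ r := by
    have hκ' : (0 : ℤ) ≤ κ := by positivity
    nlinarith
  have h8 : ((d ^ r : ℕ) : ℤ) < L := by
    push_cast
    linarith
  have h9 : d ^ r < L := by exact_mod_cast h8
  omega

/-- the real form -/
lemma few_powers' {κ r L R : ℕ} (hκ : 1 ≤ κ) (hR : 1 ≤ R) (hRr : R ≤ r) (hL : 1 ≤ L) (A : ℤ)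
    (S : Finset ℤ)
    (hS : ∀ s ∈ S, A < s ∧ s ≤ A + L ∧ ∃ c : ℕ, s = κ * (c : ℤ) ^ r) :
    (S.card : ℝ) ≤ (L : ℝ) ^ (1 / (R : ℝ)) + 1 := by
  have h := few_powers hκ (hR.trans hRr) A S hS
  have hR0 : (0 : ℝ) < R := by exact_mod_cast hR
  have hL1 : (1 : ℝ) ≤ L := by exact_mod_cast hL
  have h1 : (S.card - 1) ^ R ≤ L := by
    rcases Nat.eq_zero_or_pos (S.card - 1) with h0 | h0
    · rw [h0, zero_pow (by omega)]
      exact Nat.zero_le _
    · exact (Nat.pow_le_pow_right h0 hRr).trans h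
  have h2 : (((S.card - 1 : ℕ) : ℝ)) ≤ (L : ℝ) ^ (1 / (R : ℝ)) := by
    have h3 : (((S.card - 1 : ℕ) : ℝ)) ^ (R : ℝ) ≤ L := by
      rw [Real.rpow_natCast]
      exact_mod_cast h1
    calc (((S.card - 1 : ℕ) : ℝ)) = ((((S.card - 1 : ℕ) : ℝ)) ^ (R : ℝ)) ^ (1 / (R : ℝ)) := by
          rw [← Real.rpow_mul (Nat.cast_nonneg _), mul_one_div_cancel hR0.ne', Real.rpow_one]
      _ ≤ _ := Real.rpow_le_rpow (by positivity) h3 (by positivity)
  have h3 : (S.card : ℝ) ≤ ((S.card - 1 : ℕ) : ℝ) + 1 := by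
    have : S.card ≤ (S.card - 1) + 1 := by omega
    exact_mod_cast this
  linarith

/-- descent: the difference of the bases is a power, up to a power of `p` -/
lemma descent_pos {p : ℕ} (hp : p.Prime) (hp2 : p ≠ 2) {x y : ℤ} (hxy : IsCoprime x y) {z r : ℕ}
    (hz : 0 < z) (hr : 1 ≤ r) (h : x ^ p - y ^ p = (z : ℤ) ^ r) :
    0 < x - y ∧ ∃ q c : ℕ, (q = 1 ∨ q = p) ∧ x - y = ((q ^ (r - 1) : ℕ) : ℤ) * (c : ℤ) ^ r := by
  have hodd : Odd p := hp.odd_of_ne_two hp2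
  have hpos : (0 : ℤ) < (z : ℤ) ^ r := by positivity
  have hlt : y < x := by
    by_contra hcon
    push Not at hcon
    have := hodd.strictMono_pow.monotone hcon
    linarith
  have hd : 0 < x - y := by linarith
  refine ⟨hd, ?_⟩
  obtain ⟨b1, b2, e, he, -, -, -, -, h1, -, h3, -, -, -⟩ :=
    Pool.Agent.TH863.split hp hp2 hxy hz hr hd h
  have he' : e = 0 ∨ e = 1 := by omega
  rcases he' with rfl | rfl
  · refine ⟨1, b1, Or.inl rfl, ?_⟩
    rw [pow_zero, one_mul] at h1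
    rw [h1]
    push_cast
    ring
  · obtain ⟨c, hc⟩ := h3 rfl
    refine ⟨p, c, Or.inr rfl, ?_⟩
    have hp0 : (p : ℤ) ≠ 0 := by exact_mod_cast hp.ne_zero
    apply mul_left_cancel₀ hp0
    rw [pow_one] at h1
    rw [h1, hc]
    obtain ⟨r', rfl⟩ := Nat.exists_eq_add_of_le' hr
    rw [Nat.add_sub_cancel]
    push_cast
    rw [mul_pow, pow_succ (p : ℤ) r']
    ring

lemma descent {p : ℕ} (hp : p.Prime) (hp2 : p ≠ 2) {x y : ℤ} (hxy : IsCoprime x y) {z r : ℕ}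
    (hz : 0 < z) (hr : 1 ≤ r) {t : ℤ} (ht : t = 1 ∨ t = -1) (h : x ^ p - y ^ p = t * (z : ℤ) ^ r) :
    ∃ τ : ℤ, (τ = 1 ∨ τ = -1) ∧ ∃ q c : ℕ, (q = 1 ∨ q = p) ∧
      τ * (x - y) = ((q ^ (r - 1) : ℕ) : ℤ) * (c : ℤ) ^ r := by
  rcases ht with rfl | rfl
  · obtain ⟨-, q, c, hq, he⟩ := descent_pos hp hp2 hxy hz hr (by rw [h, one_mul])
    exact ⟨1, Or.inl rfl, q, c, hq, by rw [one_mul, he]⟩
  · obtain ⟨-, q, c, hq, he⟩ := descent_pos hp hp2 hxy.symm hz hr (by linarith : y ^ p - x ^ p = (z : ℤ) ^ r)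
    exact ⟨-1, Or.inr rfl, q, c, hq, by rw [← he]; ring⟩

lemma prime_exps {p r : ℕ} (hp : p.Prime) (hr : r.Prime) (h : (1 : ℚ) / p + 1 / p + 1 / r ≤ 1) :
    p ≠ 2 ∧ p * r + r * p + p * p ≤ p * p * r := by
  have hp0 : (0 : ℚ) < p := by exact_mod_cast hp.pos
  have hr0 : (0 : ℚ) < r := by exact_mod_cast hr.pos
  constructor
  · rintro rfl
    norm_num at h
    exact hr.ne_zero h
  · have h1 : ((1 : ℚ) / p + 1 / p + 1 / r) * (p * p * r) ≤ 1 * (p * p * r) :=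
      mul_le_mul_of_nonneg_right h (by positivity)
    have h2 : ((1 : ℚ) / p + 1 / p + 1 / r) * (p * p * r) = p * r + r * p + p * p := by
      field_simp
      try ring
    rw [h2, one_mul] at h1
    exact_mod_cast h1

/-- a pair as a solution between integers -/
lemma two_isol {R : ℕ} {W : ℝ} {x y : ℕ} (hx : 0 < x) (hy : 0 < y) (hxy : Nat.Coprime x y)
    (h : Two R W x y) : ∃ σ : ℤ, (σ = 1 ∨ σ = -1) ∧ ∃ (z p r : ℕ) (t : ℤ), 2 ≤ z ∧ (z : ℝ) ≤ W ∧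
      p.Prime ∧ p ≠ 2 ∧ r.Prime ∧ R ≤ r ∧ (2 ≤ x ∨ 2 ≤ y) ∧
      ISol (x : ℤ) (σ * y) (z : ℤ) p p r (-1) t := by
  obtain ⟨z, p, r, hz, hzW, hp, hr, hRr, hle, h⟩ := h
  obtain ⟨hp2, hle'⟩ := prime_exps hp hr hle
  have hodd : Odd p := hp.odd_of_ne_two hp2
  have hcop : IsCoprime (x : ℤ) (y : ℤ) := Nat.isCoprime_iff_coprime.mpr hxy
  have hp3 : 3 ≤ p := by
    have := hp.two_le
    omega
  -- consecutive powers
  have gap : ∀ u v : ℕ, 0 < v → v < u → v ^ p + 2 ≤ u ^ p := by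
    intro u v hv huv
    obtain ⟨k, rfl⟩ : ∃ k, p = k + 1 := ⟨p - 1, by omega⟩
    have h1 : v ^ k + 1 ^ k ≤ (v + 1) ^ k := pow_add_pow_le (Nat.zero_le _) (Nat.zero_le _) (by omega)
    rw [one_pow] at h1
    calc v ^ (k + 1) + 2 ≤ (v ^ k + 1) * (v + 1) := by
          have h2 : 1 ≤ v ^ k := Nat.one_le_pow _ _ hv
          rw [pow_succ]
          nlinarith
      _ ≤ (v + 1) ^ k * (v + 1) := Nat.mul_le_mul_right _ h1
      _ = (v + 1) ^ (k + 1) := (pow_succ _ _).symm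
      _ ≤ u ^ (k + 1) := Nat.pow_le_pow_left huv _
  have hxp : 0 < x ^ p := Nat.pow_pos hx
  have hyp : 0 < y ^ p := Nat.pow_pos hy
  have hzr : 0 < z ^ r := Nat.pow_pos hz
  have hne1 : ∀ u v : ℕ, 0 < u → 0 < v → v ^ p + z ^ r = u ^ p → 2 ≤ z ∧ 2 ≤ u := by
    intro u v hu hv he
    have huv : v < u := by
      by_contra hcon
      push Not at hcon
      have := Nat.pow_le_pow_left hcon p
      omega
    have := gap u v hv huv
    refine ⟨?_, by omega⟩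
    by_contra hcon
    have hz1 : z = 1 := by omega
    rw [hz1, one_pow] at he
    omega
  have hzcop : ∀ {σ t : ℤ}, (σ = 1 ∨ σ = -1) → (t = 1 ∨ t = -1) →
      (x : ℤ) ^ p + (-1) * (σ * y) ^ p = t * (z : ℤ) ^ r →
      ISol (x : ℤ) (σ * y) (z : ℤ) p p r (-1) t := by
    intro σ t hσ ht he
    have hσu : IsUnit σ := by rcases hσ with rfl | rfl <;> simp
    exact ⟨by exact_mod_cast hx.ne', mul_ne_zero hσu.ne_zero (by exact_mod_cast hy.ne'),
      by exact_mod_cast hz.ne', (isCoprime_mul_unit_left_right hσu _ _).mpr hcop, hp.pos, hp.pos,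
      hr.pos, hle', Or.inr rfl, ht, he⟩
  rcases h with h | h | h
  · have h' : (x : ℤ) ^ p + (y : ℤ) ^ p = (z : ℤ) ^ r := by exact_mod_cast h
    have hz2 : 2 ≤ z := by
      by_contra hcon
      have hz1 : z = 1 := by omega
      rw [hz1, one_pow] at h
      omega
    refine ⟨-1, Or.inr rfl, z, p, r, 1, hz2, hzW, hp, hp2, hr, hRr, ?_, hzcop (Or.inr rfl)
      (Or.inl rfl) ?_⟩
    · by_contra hcon
      push Not at hcon
      have hx1 : x = 1 := by omega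
      have hy1 : y = 1 := by omega
      rw [hx1, hy1, one_pow] at h
      have h3 : 2 ^ r ≤ z ^ r := Nat.pow_le_pow_left hz2 r
      have h4 : 2 ^ 2 ≤ 2 ^ r := Nat.pow_le_pow_right (by norm_num) hr.two_le
      omega
    · rw [mul_pow, hodd.neg_one_pow]
      linarith
  · have h' : (x : ℤ) ^ p + (z : ℤ) ^ r = (y : ℤ) ^ p := by exact_mod_cast h
    obtain ⟨h1, h2⟩ := hne1 y x hy hx h
    refine ⟨1, Or.inl rfl, z, p, r, -1, h1, hzW, hp, hp2, hr, hRr, Or.inr h2, hzcop (Or.inl rfl)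
      (Or.inr rfl) ?_⟩
    rw [one_mul]
    linarith
  · have h' : (y : ℤ) ^ p + (z : ℤ) ^ r = (x : ℤ) ^ p := by exact_mod_cast h
    obtain ⟨h1, h2⟩ := hne1 x y hx hy h
    refine ⟨1, Or.inl rfl, z, p, r, 1, h1, hzW, hp, hp2, hr, hRr, Or.inl h2, hzcop (Or.inl rfl)
      (Or.inl rfl) ?_⟩
    rw [one_mul]
    linarith

end Pool.Agent.Helper82.FC
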