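import Mathlib
import Pool.Agent.Helper82.FC.Equal

/-!
The signature `(p, p, r)`: the count of the coprime pairs of bases in a box.
-/

set_option autoImplicit false

namespace Pool.Agent.Helper82.FC

open Finset Polynomial Pool.Agent.N741.PB

/-- the pairs on a line `x - σ y = s` -/
lemma fiber {R N a : ℕ} {W M : ℝ} {s σ : ℤ} (hσ : σ = 1 ∨ σ = -1)
    (hline : ∀ f g : ℤ[X], (0 < f.natDegree ∨ 0 < g.natDegree) → f.natDegree ≤ 1 →
      g.natDegree ≤ 1 → (∀ n : ℤ, |n| ≤ N → |((f.eval n : ℤ) : ℝ)| ≤ W ∧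
        |((g.eval n : ℤ) : ℝ)| ≤ W) →
      ∀ T : Finset ℤ, (∀ n ∈ T, |n| ≤ N ∧ Pair R W (f.eval n) (g.eval n)) → (T.card : ℝ) ≤ M)
    (h1 : (N : ℝ) + a ≤ W) (h2 : (N : ℝ) + a + |(s : ℝ)| ≤ W) (V : Finset (ℕ × ℕ))
    (hV : ∀ v ∈ V, a < v.1 ∧ v.1 ≤ a + N ∧ (v.1 : ℤ) - σ * v.2 = s ∧
      Pair R W (v.1 : ℤ) (σ * v.2)) : (V.card : ℝ) ≤ M := by
  classical
  have hinj : Set.InjOn (fun v : ℕ × ℕ => (v.1 : ℤ) - a) V := by
    intro v hv w hw hvw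
    simp only at hvw
    have e1 := (hV v hv).2.2.1
    have e2 := (hV w hw).2.2.1
    have h3 : (v.1 : ℤ) = w.1 := by linarith
    have h4 : σ * (v.2 : ℤ) = σ * w.2 := by linarith
    have h5 : (v.2 : ℤ) = w.2 := by
      rcases hσ with rfl | rfl
      · linarith
      · linarith
    exact Prod.ext (by exact_mod_cast h3) (by exact_mod_cast h5)
  rw [← card_image_of_injOn hinj]
  have hd1 : (X + C (a : ℤ) : ℤ[X]).natDegree = 1 := natDegree_X_add_C _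
  have hd2 : (X + C ((a : ℤ) - s) : ℤ[X]).natDegree = 1 := natDegree_X_add_C _
  refine hline (X + C (a : ℤ)) (X + C ((a : ℤ) - s)) (Or.inl (by rw [hd1]; norm_num)) hd1.le hd2.le
    ?_ _ ?_
  · intro n hn
    have hn' : |(n : ℝ)| ≤ N := by exact_mod_cast hn
    simp only [eval_add, eval_X, eval_C]
    push_cast
    constructor
    · refine (abs_add_le _ _).trans ?_
      rw [Nat.abs_cast]
      linarith
    · refine (abs_add_le _ _).trans ?_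
      refine (add_le_add le_rfl (abs_sub _ _)).trans ?_
      rw [Nat.abs_cast]
      linarith
  · intro n hn
    obtain ⟨v, hv, rfl⟩ := mem_image.mp hn
    obtain ⟨g1, g2, g3, g4⟩ := hV v hv
    have g1' : (a : ℤ) < v.1 := by exact_mod_cast g1
    have g2' : (v.1 : ℤ) ≤ a + N := by exact_mod_cast g2
    refine ⟨by rw [abs_le]; constructor <;> linarith, ?_⟩
    simp only [eval_add, eval_X, eval_C]
    have e1 : (v.1 : ℤ) - a + a = v.1 := by ring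
    have e2 : (v.1 : ℤ) - a + (a - s) = σ * v.2 := by linarith
    rw [e1, e2]
    exact g4

/-- the possible differences -/
lemma count_lines {R L B : ℕ} (hR : 1 ≤ R) (hL : 1 ≤ L) (A : ℤ → ℤ) (I : Finset (ℤ × ℤ))
    (hI : ∀ w ∈ I, (w.1 = 1 ∨ w.1 = -1) ∧ A w.1 < w.2 ∧ w.2 ≤ A w.1 + L ∧ ∃ τ : ℤ,
      (τ = 1 ∨ τ = -1) ∧ ∃ q r c : ℕ, 1 ≤ q ∧ q ≤ B ∧ R ≤ r ∧ r ≤ B ∧
        τ * w.2 = ((q ^ (r - 1) : ℕ) : ℤ) * (c : ℤ) ^ r) :
    (I.card : ℝ) ≤ 4 * ((B : ℝ) + 1) ^ 2 * ((L : ℝ) ^ (1 / (R : ℝ)) + 1) := by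
  classical
  set J : Finset ((ℤ × ℤ) × (ℕ × ℕ)) := (({1, -1} : Finset ℤ) ×ˢ ({1, -1} : Finset ℤ)) ×ˢ
    (range (B + 1) ×ˢ range (B + 1)) with hJ
  have hJc : J.card = 4 * (B + 1) ^ 2 := by
    rw [hJ, card_product, card_product, card_product, card_range]
    have h1 : ({1, -1} : Finset ℤ).card = 2 := by decide
    rw [h1]; ring
  set F : (ℤ × ℤ) × (ℕ × ℕ) → Finset (ℤ × ℤ) := fun j => I.filter (fun w => w.1 = j.1.1 ∧
    1 ≤ j.2.1 ∧ R ≤ j.2.2 ∧ (j.1.2 = 1 ∨ j.1.2 = -1) ∧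
      ∃ c : ℕ, j.1.2 * w.2 = ((j.2.1 ^ (j.2.2 - 1) : ℕ) : ℤ) * (c : ℤ) ^ j.2.2) with hF
  have hcov : I ⊆ J.biUnion F := by
    intro w hw
    obtain ⟨h1, h2, h3, τ, hτ, q, r, c, hq1, hq, hRr, hr, he⟩ := hI w hw
    rw [mem_biUnion]
    refine ⟨((w.1, τ), (q, r)), ?_, ?_⟩
    · simp only [hJ, mem_product, mem_insert, mem_singleton, mem_range]
      exact ⟨⟨h1, hτ⟩, by omega, by omega⟩
    · rw [hF, mem_filter]
      exact ⟨hw, rfl, hq1, hRr, hτ, c, he⟩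
  have hFc : ∀ j ∈ J, ((F j).card : ℝ) ≤ (L : ℝ) ^ (1 / (R : ℝ)) + 1 := by
    intro j _
    rcases (F j).eq_empty_or_nonempty with h0 | ⟨w₀, hw₀⟩
    · rw [h0, card_empty, Nat.cast_zero]
      positivity
    have hw₀' := hw₀
    simp only [hF, mem_filter] at hw₀'
    obtain ⟨-, -, hq1, hRr, hτ, -⟩ := hw₀'
    have hinj : Set.InjOn (fun w : ℤ × ℤ => j.1.2 * w.2) (F j) := by
      intro v hv w hw hvw
      simp only at hvw
      rw [mem_coe] at hv hw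
      simp only [hF, mem_filter] at hv hw
      have h5 : v.2 = w.2 := by
        rcases hτ with h | h
        · rw [h] at hvw; linarith
        · rw [h] at hvw; linarith
      exact Prod.ext (hv.2.1.trans hw.2.1.symm) h5
    rw [← card_image_of_injOn hinj]
    obtain ⟨A', hA'⟩ : ∃ A' : ℤ, ∀ x : ℤ, A j.1.1 < x → x ≤ A j.1.1 + L →
        A' < j.1.2 * x ∧ j.1.2 * x ≤ A' + L := by
      rcases hτ with h | h
      · refine ⟨A j.1.1, fun x h1 h2 => ?_⟩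
        rw [h]
        constructor <;> linarith
      · refine ⟨- A j.1.1 - L - 1, fun x h1 h2 => ?_⟩
        rw [h]
        constructor
        · linarith
        · have := Int.add_one_le_iff.mpr h1
          linarith
    refine few_powers' (κ := j.2.1 ^ (j.2.2 - 1)) (r := j.2.2) (Nat.one_le_pow _ _ hq1) hR hRr hL A'
      _ ?_
    intro x hx
    obtain ⟨w, hw, rfl⟩ := mem_image.mp hx
    simp only [hF, mem_filter] at hw
    obtain ⟨hwI, hw1, -, -, -, c, hc⟩ := hw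
    obtain ⟨-, h2, h3, -⟩ := hI w hwI
    rw [hw1] at h2 h3
    exact ⟨(hA' w.2 h2 h3).1, (hA' w.2 h2 h3).2, c, hc⟩
  calc (I.card : ℝ) ≤ ((J.biUnion F).card : ℝ) := by exact_mod_cast card_le_card hcov
    _ ≤ ∑ j ∈ J, ((F j).card : ℝ) := by exact_mod_cast card_biUnion_le
    _ ≤ ∑ _j ∈ J, ((L : ℝ) ^ (1 / (R : ℝ)) + 1) := sum_le_sum hFc
    _ = 4 * ((B : ℝ) + 1) ^ 2 * ((L : ℝ) ^ (1 / (R : ℝ)) + 1) := by
      rw [sum_const, hJc, nsmul_eq_mul]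
      push_cast
      ring

/-- `N ≤ exp (N ^ c)` for large `N` -/
lemma ev_exp {c : ℝ} (hc : 0 < c) : ∃ L : ℕ, ∀ N : ℕ, L ≤ N → (N : ℝ) ≤ Real.exp ((N : ℝ) ^ c) := by
  have h1 := (isLittleO_log_rpow_atTop hc).bound (show (0 : ℝ) < 1 by norm_num)
  have h2 := tendsto_natCast_atTop_atTop (R := ℝ) |>.eventually (h1.and (Filter.eventually_ge_atTop 1))
  obtain ⟨L, hL⟩ := Filter.eventually_atTop.mp h2
  refine ⟨L, fun N hN => ?_⟩
  obtain ⟨h3, h4⟩ := hL N hN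
  have h0 : (0 : ℝ) < N := by linarith
  rw [one_mul, Real.norm_of_nonneg (Real.log_nonneg h4),
    Real.norm_of_nonneg (Real.rpow_nonneg h0.le _)] at h3
  calc (N : ℝ) = Real.exp (Real.log N) := (Real.exp_log h0).symm
    _ ≤ _ := Real.exp_le_exp.mpr h3

theorem equal_main (R : ℕ) (hR : 2 ≤ R) (δ : ℝ) (hδ : 0 < δ) : ∃ c : ℝ, 0 < c ∧ ∃ N₁ : ℕ,
    ∀ N Y a b : ℕ, N₁ ≤ N → N ≤ Y → (Y : ℝ) ≤ Real.exp ((N : ℝ) ^ c) →
      (a : ℝ) ≤ Real.exp ((N : ℝ) ^ c) → (b : ℝ) ≤ Real.exp ((N : ℝ) ^ c) →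
      ∀ V : Finset (ℕ × ℕ), (∀ v ∈ V, a < v.1 ∧ v.1 ≤ a + N ∧ b < v.2 ∧ v.2 ≤ b + Y ∧
        Nat.Coprime v.1 v.2 ∧ Two R (Real.exp ((N : ℝ) ^ c)) v.1 v.2) →
        (V.card : ℝ) ≤ ((N : ℝ) * Y) ^ (1 / (R : ℝ)) * (N : ℝ) ^ δ := by
  classical
  obtain ⟨e, he⟩ : ∃ e, e = δ / 4 := ⟨_, rfl⟩
  have he0 : 0 < e := by rw [he]; positivity
  obtain ⟨c', hc', -, -, N₀, hN₀⟩ := line_main R hR e he0
  obtain ⟨C, κ, hC⟩ := exps_int
  obtain ⟨c, hc⟩ : ∃ c : ℝ, c = min (c' / 2) (e / (4 * (κ + 1))) := ⟨_, rfl⟩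
  have hκ : (0 : ℝ) < (κ : ℝ) + 1 := by positivity
  have hc0 : 0 < c := by rw [hc]; positivity
  have hcc : 2 * c ≤ c' := by
    have : c ≤ c' / 2 := by rw [hc]; exact min_le_left _ _
    linarith
  have hcκ : c * (2 * κ) ≤ e := by
    have h1 : c ≤ e / (4 * (κ + 1)) := by rw [hc]; exact min_le_right _ _
    have h2 : c * (4 * ((κ : ℝ) + 1)) ≤ e := by
      rwa [le_div_iff₀ (by positivity)] at h1
    have h3 : (0 : ℝ) ≤ κ := Nat.cast_nonneg κ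
    nlinarith
  obtain ⟨K₀, hK₀⟩ : ∃ K₀ : ℝ, K₀ = 12 * (((C : ℝ) + 1) ^ 2 * 9 ^ κ) := ⟨_, rfl⟩
  obtain ⟨L₁, hL₁⟩ := ev_rpow hc0 6
  obtain ⟨L₂, hL₂⟩ := ev_rpow he0 K₀
  obtain ⟨L₃, hL₃⟩ := ev_exp hc0
  refine ⟨c, hc0, N₀ + L₁ + L₂ + L₃ + 1, fun N Y a b hN hNY hY ha hb V hV => ?_⟩
  obtain ⟨P, hP⟩ : ∃ P : ℝ, P = (N : ℝ) ^ c := ⟨_, rfl⟩
  obtain ⟨E, hE⟩ : ∃ E : ℝ, E = Real.exp P := ⟨_, rfl⟩
  have h1 := hL₁ N (by omega)
  have h2 := hL₂ N (by omega)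
  have h3 := hL₃ N (by omega)
  rw [← hP] at h1 h3 hY ha hb
  rw [← hE] at h3 hY ha hb
  have hN1 : (1 : ℝ) ≤ N := by exact_mod_cast (by omega : 1 ≤ N)
  have hN0 : (0 : ℝ) < N := by linarith
  have hY1 : (1 : ℝ) ≤ Y := by exact_mod_cast (by omega : 1 ≤ Y)
  have hR0 : (0 : ℝ) < R := by exact_mod_cast (by omega : 0 < R)
  have hE6 : 6 ≤ E := by
    have := Real.add_one_le_exp P
    rw [← hE] at this
    linarith
  obtain ⟨W, hW⟩ : ∃ W : ℝ, W = Real.exp ((N : ℝ) ^ c') := ⟨_, rfl⟩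
  have hEW : E * E ≤ W := by
    rw [hE, ← Real.exp_add, hW]
    apply Real.exp_le_exp.mpr
    have h4 : (N : ℝ) ^ (2 * c) ≤ (N : ℝ) ^ c' := Real.rpow_le_rpow_of_exponent_le hN1 hcc
    have h5 : (N : ℝ) ^ (2 * c) = P * P := by
      rw [hP, ← Real.rpow_add hN0]; congr 1; ring
    rw [h5] at h4
    nlinarith
  have hEW' : 6 * E ≤ W := le_trans (by nlinarith) hEW
  -- the bound for the exponents
  obtain ⟨S, hS⟩ : ∃ S : ℕ, S = ⌈2 * P⌉₊ + 2 := ⟨_, rfl⟩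
  have hS1 : 2 * P + 2 ≤ S := by
    rw [hS]; push_cast
    have := Nat.le_ceil (2 * P)
    linarith
  have hS2 : (S : ℝ) ≤ 3 * P := by
    rw [hS]; push_cast
    have := Nat.ceil_lt_add_one (show 0 ≤ 2 * P by linarith)
    linarith
  have hS2' : 2 ≤ S := by omega
  have hE2S : 2 * E ≤ ((2 ^ S : ℕ) : ℝ) := by
    have h4 : P ≤ ((S - 1 : ℕ) : ℝ) * Real.log 2 := by
      have h5 := Real.log_two_gt_d9
      have h6 : ((S - 1 : ℕ) : ℝ) = S - 1 := by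
        rw [Nat.cast_sub (by omega)]; norm_num
      rw [h6]
      nlinarith
    have h5 : E ≤ (2 : ℝ) ^ (S - 1) := by
      rw [hE]
      calc Real.exp P ≤ Real.exp (((S - 1 : ℕ) : ℝ) * Real.log 2) := Real.exp_le_exp.mpr h4
        _ = (2 : ℝ) ^ (S - 1) := by
          rw [mul_comm, Real.exp_mul, Real.exp_log (by norm_num), Real.rpow_natCast]
    have h6 : ((2 ^ S : ℕ) : ℝ) = 2 * 2 ^ (S - 1) := by
      push_cast
      rw [← pow_succ']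
      congr 1; omega
    rw [h6]
    linarith
  obtain ⟨B, hB⟩ : ∃ B : ℕ, B = C * S ^ κ := ⟨_, rfl⟩
  have hB2 : ((B : ℝ) + 1) ^ 2 ≤ (((C : ℝ) + 1) ^ 2 * 9 ^ κ) * (N : ℝ) ^ e := by
    have h4 : (B : ℝ) + 1 ≤ ((C : ℝ) + 1) * (3 * P) ^ κ := by
      have h5 : (S : ℝ) ^ κ ≤ (3 * P) ^ κ := pow_le_pow_left₀ (Nat.cast_nonneg _) hS2 κ
      have h6 : (1 : ℝ) ≤ (3 * P) ^ κ := one_le_pow₀ (by linarith)
      have h7 : (0 : ℝ) ≤ C := Nat.cast_nonneg C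
      rw [hB]; push_cast
      nlinarith
    have h5 : P ^ (2 * κ) ≤ (N : ℝ) ^ e := by
      rw [hP, ← Real.rpow_natCast, ← Real.rpow_mul hN0.le]
      apply Real.rpow_le_rpow_of_exponent_le hN1
      push_cast
      exact hcκ
    calc ((B : ℝ) + 1) ^ 2 ≤ (((C : ℝ) + 1) * (3 * P) ^ κ) ^ 2 :=
          pow_le_pow_left₀ (by positivity) h4 2
      _ = (((C : ℝ) + 1) ^ 2 * 9 ^ κ) * P ^ (2 * κ) := by
        rw [mul_pow, mul_pow, mul_pow, ← pow_mul, ← pow_mul, mul_comm κ 2]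
        rw [pow_mul (3 : ℝ) 2 κ]
        norm_num
        ring
      _ ≤ _ := mul_le_mul_of_nonneg_left h5 (by positivity)
  -- the signs
  have hpos : ∀ v ∈ V, 0 < v.1 ∧ 0 < v.2 := fun v hv => by
    obtain ⟨g1, -, g3, -⟩ := hV v hv
    omega
  have hex : ∀ v ∈ V, ∃ σ : ℤ, (σ = 1 ∨ σ = -1) ∧ ∃ (z p r : ℕ) (t : ℤ), 2 ≤ z ∧ (z : ℝ) ≤ E ∧
      p.Prime ∧ p ≠ 2 ∧ r.Prime ∧ R ≤ r ∧ (2 ≤ v.1 ∨ 2 ≤ v.2) ∧
      ISol (v.1 : ℤ) (σ * v.2) (z : ℤ) p p r (-1) t := by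
    intro v hv
    obtain ⟨-, -, -, -, g5, g6⟩ := hV v hv
    rw [← hP, ← hE] at g6
    exact two_isol (hpos v hv).1 (hpos v hv).2 g5 g6
  choose! σ hσ hsol using hex
  -- sizes
  have hsz : ∀ v ∈ V, (v.1 : ℝ) ≤ 2 * E ∧ (v.2 : ℝ) ≤ 2 * E := by
    intro v hv
    obtain ⟨-, g2, -, g4, -⟩ := hV v hv
    have g2' : (v.1 : ℝ) ≤ a + N := by exact_mod_cast g2
    have g4' : (v.2 : ℝ) ≤ b + Y := by exact_mod_cast g4
    constructor <;> linarith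
  obtain ⟨f, hf⟩ : ∃ f : ℕ × ℕ → ℤ × ℤ, f = fun v => (σ v, (v.1 : ℤ) - σ v * v.2) := ⟨_, rfl⟩
  obtain ⟨A, hA⟩ : ∃ A : ℤ → ℤ, A = fun t => if t = 1 then (a : ℤ) - b - Y else (a : ℤ) + b :=
    ⟨_, rfl⟩
  have hI := count_lines (R := R) (L := N + Y) (B := B) (by omega) (by omega) A (V.image f) (by
    intro w hw
    obtain ⟨v, hv, rfl⟩ := mem_image.mp hw
    obtain ⟨g1, g2, g3, g4, -, -⟩ := hV v hv
    obtain ⟨z, p, r, t, hz2, hzE, hp, hp2, hr, hRr, hxy2, hS⟩ := hsol v hv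
    have g1' : (a : ℤ) < v.1 := by exact_mod_cast g1
    have g2' : (v.1 : ℤ) ≤ a + N := by exact_mod_cast g2
    have g3' : (b : ℤ) < v.2 := by exact_mod_cast g3
    have g4' : (v.2 : ℤ) ≤ b + Y := by exact_mod_cast g4
    have hint : A (σ v) < (v.1 : ℤ) - σ v * v.2 ∧
        (v.1 : ℤ) - σ v * v.2 ≤ A (σ v) + ((N + Y : ℕ) : ℤ) := by
      rcases hσ v hv with h | h
      · rw [hA, h]
        simp only [if_true]
        push_cast
        constructor <;> linarith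
      · have hA1 : A (-1) = (a : ℤ) + b := by rw [hA]; norm_num
        rw [h, hA1]
        push_cast
        constructor <;> linarith
    -- exponents
    have hcast : ∀ u : ℕ, (u : ℝ) ≤ 2 * E → u ≤ 2 ^ S := fun u hu => by
      have := hu.trans hE2S
      exact_mod_cast this
    have habs1 : ((v.1 : ℕ) : ℤ).natAbs = v.1 := Int.natAbs_natCast _
    have habs2 : (σ v * ((v.2 : ℕ) : ℤ)).natAbs = v.2 := by
      rw [Int.natAbs_mul, Int.natAbs_natCast]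
      rcases hσ v hv with h | h <;> simp [h]
    obtain ⟨k1, k2, k3⟩ := hC S hS2' _ _ _ p p r (-1) t hS
      (by rw [habs1]; exact hcast _ (hsz v hv).1) (by rw [habs2]; exact hcast _ (hsz v hv).2)
      (by rw [Int.natAbs_natCast]; exact hcast _ (by linarith))
    rw [habs1] at k1
    rw [habs2] at k2
    rw [Int.natAbs_natCast] at k3
    rw [← hB] at k1 k2 k3
    have hpB : p ≤ B := hxy2.elim k1 k2
    have hrB : r ≤ B := k3 hz2
    obtain ⟨τ, hτ, q, c, hq, hqc⟩ := descent hp hp2 hS.ab (z := z) (by omega) hr.one_lt.le hS.t1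
      (by have := hS.eq; linarith)
    have := hp.one_lt
    refine ⟨by rw [hf]; exact hσ v hv, by rw [hf]; exact hint.1, by rw [hf]; exact hint.2, τ, hτ, q,
      r, c, ?_, ?_, hRr, hrB, by rw [hf]; exact hqc⟩
    · rcases hq with rfl | rfl <;> omega
    · rcases hq with rfl | rfl <;> omega)
  -- the fibers
  obtain ⟨M, hM⟩ : ∃ M : ℝ, M = (N : ℝ) ^ (1 / (R : ℝ) + e) := ⟨_, rfl⟩
  have hfib : ∀ w ∈ V.image f, ((V.filter (fun v => f v = w)).card : ℝ) ≤ M := by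
    intro w hw
    obtain ⟨v₀, hv₀, rfl⟩ := mem_image.mp hw
    refine fiber (R := R) (N := N) (a := a) (W := W) (s := (v₀.1 : ℤ) - σ v₀ * v₀.2)
      (σ := σ v₀) (hσ v₀ hv₀) ?_ ?_ ?_ _ ?_
    · intro f g hfg hf1 hg1 hval T hT
      have hNc : (1 : ℝ) ≤ (N : ℝ) ^ c' := Real.one_le_rpow hN1 hc'.le
      rw [hM]
      refine hN₀ N (by omega) f g hfg ?_ ?_ ?_ T ?_
      · exact le_trans (by exact_mod_cast hf1) hNc
      · exact le_trans (by exact_mod_cast hg1) hNc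
      · rw [← hW]; exact hval
      · rw [← hW]; exact hT
    · linarith
    · have g5 := hsz v₀ hv₀
      have g6 : |(((v₀.1 : ℤ) - σ v₀ * v₀.2 : ℤ) : ℝ)| ≤ (v₀.1 : ℝ) + v₀.2 := by
        push_cast
        refine (abs_sub _ _).trans ?_
        rw [abs_mul, Nat.abs_cast, Nat.abs_cast]
        have : |((σ v₀ : ℤ) : ℝ)| = 1 := by
          rcases hσ v₀ hv₀ with h | h <;> simp [h]
        rw [this, one_mul]
      obtain ⟨-, g2, -, g4, -⟩ := hV v₀ hv₀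
      have g2' : (v₀.1 : ℝ) ≤ a + N := by exact_mod_cast g2
      have g4' : (v₀.2 : ℝ) ≤ b + Y := by exact_mod_cast g4
      linarith
    · intro v hv
      rw [mem_filter] at hv
      obtain ⟨hvV, hfv⟩ := hv
      obtain ⟨g1, g2, -⟩ := hV v hvV
      obtain ⟨z, p, r, t, hz2, hzE, hp, hp2, hr, hRr, hxy2, hS⟩ := hsol v hvV
      rw [hf] at hfv
      simp only [Prod.mk.injEq] at hfv
      refine ⟨g1, g2, ?_, ?_⟩
      · rw [← hfv.2, hfv.1]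
      · rw [← hfv.1]
        refine ⟨z, p, p, r, -1, t, hS, ?_, ?_⟩
        · intro q hq hqr
          rw [(Nat.prime_dvd_prime_iff_eq hq hr).mp hqr]
          exact hRr
        · push_cast
          rw [Nat.abs_cast]
          linarith
  -- conclusion
  have hM0 : 0 ≤ M := by rw [hM]; positivity
  have hVI : (V.card : ℝ) ≤ (V.image f).card * M := by
    rw [card_eq_sum_card_image f V]
    push_cast
    calc ∑ w ∈ V.image f, ((V.filter (fun v => f v = w)).card : ℝ) ≤ ∑ _w ∈ V.image f, M :=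
          sum_le_sum hfib
      _ = (V.image f).card * M := by rw [sum_const, nsmul_eq_mul]
  have hLY : (((N + Y : ℕ) : ℝ)) ^ (1 / (R : ℝ)) + 1 ≤ 3 * (Y : ℝ) ^ (1 / (R : ℝ)) := by
    have h5 : (((N + Y : ℕ) : ℝ)) ≤ 2 * Y := by
      have : (N : ℝ) ≤ Y := by exact_mod_cast hNY
      push_cast
      linarith
    have h6 : (((N + Y : ℕ) : ℝ)) ^ (1 / (R : ℝ)) ≤ (2 * (Y : ℝ)) ^ (1 / (R : ℝ)) :=
      Real.rpow_le_rpow (by positivity) h5 (by positivity)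
    rw [Real.mul_rpow (by norm_num) (by positivity)] at h6
    have h7 : (2 : ℝ) ^ (1 / (R : ℝ)) ≤ 2 := by
      calc (2 : ℝ) ^ (1 / (R : ℝ)) ≤ (2 : ℝ) ^ (1 : ℝ) := by
            apply Real.rpow_le_rpow_of_exponent_le (by norm_num)
            rw [div_le_one hR0]
            exact_mod_cast (by omega : 1 ≤ R)
        _ = 2 := Real.rpow_one 2
    have h8 : 1 ≤ (Y : ℝ) ^ (1 / (R : ℝ)) := Real.one_le_rpow hY1 (by positivity)
    nlinarith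
  have hY0 : (0 : ℝ) ≤ (Y : ℝ) ^ (1 / (R : ℝ)) := by positivity
  calc (V.card : ℝ) ≤ (V.image f).card * M := hVI
    _ ≤ (4 * ((B : ℝ) + 1) ^ 2 * ((((N + Y : ℕ) : ℝ)) ^ (1 / (R : ℝ)) + 1)) * M :=
      mul_le_mul_of_nonneg_right hI hM0
    _ ≤ (4 * ((((C : ℝ) + 1) ^ 2 * 9 ^ κ) * (N : ℝ) ^ e) * (3 * (Y : ℝ) ^ (1 / (R : ℝ)))) * M := by
      gcongr
    _ = K₀ * ((N : ℝ) ^ e * (Y : ℝ) ^ (1 / (R : ℝ)) * M) := by rw [hK₀]; ring
    _ ≤ (N : ℝ) ^ e * ((N : ℝ) ^ e * (Y : ℝ) ^ (1 / (R : ℝ)) * M) :=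
      mul_le_mul_of_nonneg_right h2 (by positivity)
    _ = ((N : ℝ) * Y) ^ (1 / (R : ℝ)) * ((N : ℝ) ^ e * (N : ℝ) ^ e * (N : ℝ) ^ e) := by
      rw [hM, Real.mul_rpow (by positivity) (by positivity), Real.rpow_add hN0]
      ring
    _ ≤ ((N : ℝ) * Y) ^ (1 / (R : ℝ)) * (N : ℝ) ^ δ := by
      apply mul_le_mul_of_nonneg_left _ (by positivity)
      rw [← Real.rpow_add hN0, ← Real.rpow_add hN0]
      apply Real.rpow_le_rpow_of_exponent_le hN1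
      rw [he]; linarith

end Pool.Agent.Helper82.FC
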