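import Pool.Agent.Helper82.FC.Binom

/-!
# Common partners with given exponents
-/

set_option autoImplicit false

namespace Pool.Agent.Helper82.FC

open Polynomial Finset Filter

theorem log_factorial_le (d : ℕ) : Real.log (d.factorial : ℕ) ≤ (d : ℝ) * d := by
  rcases Nat.eq_zero_or_pos d with h | h
  · rw [h]
    simp
  · have h1 : ((d.factorial : ℕ) : ℝ) ≤ (d : ℝ) ^ d := by
      exact_mod_cast Nat.factorial_le_pow d
    have h0 : (0 : ℝ) < d := by exact_mod_cast h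
    refine (Real.log_le_log (by exact_mod_cast d.factorial_pos) h1).trans ?_
    rw [Real.log_pow]
    refine mul_le_mul_of_nonneg_left ?_ h0.le
    have := Real.log_le_sub_one_of_pos h0
    linarith

theorem fixed (k R : ℕ) (δ : ℝ) (hδ : 0 < δ) : ∃ ε : ℝ, 0 < ε ∧ ∃ N₀ : ℕ, ∀ N : ℕ, N₀ ≤ N →
    ∀ g : ℤ[X], (g.natDegree : ℝ) ≤ (N : ℝ) ^ ε → ∀ n₁ n₂ : ℤ, g.eval n₁ ≠ g.eval n₂ →
    Real.log (g.eval n₁ - g.eval n₂).natAbs ≤ (N : ℝ) ^ ε →
    ∀ x : Fin k → ℕ, (∀ i, 2 ≤ x i) → (∀ i, Real.log (x i) ≤ (N : ℝ) ^ ε) →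
    (∀ i j, i ≠ j → ∀ a b : ℕ, 0 < a → 0 < b → x i ^ a ≠ x j ^ b) →
    ∀ u m r : Fin k → ℕ, ∀ s t : Fin k → ℤ, (∀ i, 0 < u i ∧ (u i : ℝ) ≤ (N : ℝ) ^ ε) →
    (∀ i, 2 ≤ m i ∧ (m i : ℝ) ≤ (N : ℝ) ^ ε) → (∀ i, (r i).Prime ∧ r i < R) →
    (∀ i, s i = 1 ∨ s i = -1) → (∀ i, t i = 1 ∨ t i = -1) →
    ∀ U : Finset ℕ, (∀ y ∈ U, ∀ z ∈ U, (y : ℝ) ≤ z + N) →
    (∀ y ∈ U, ∀ i, ∃ w : ℤ, (x i : ℤ) ^ u i + s i * (g.eval (y : ℤ)) ^ m i = t i * w ^ r i) →
      (U.card : ℝ) ≤ (N : ℝ) ^ (1 / (2 : ℝ) ^ k + δ) := by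
  classical
  obtain ⟨ε, hε, N₁, h⟩ := sieve_core k R δ hδ
  have hxt := tendsto_natCast_atTop_atTop (R := ℝ)
  have e1 := ((tendsto_rpow_atTop (show 0 < ε / 4 by positivity)).comp hxt).eventually_ge_atTop
    (4 * ((k : ℝ) + k ^ 2) + 4)
  obtain ⟨N₂, hN₂⟩ := eventually_atTop.1 (e1.and (eventually_ge_atTop 1))
  refine ⟨ε / 4, by positivity, max N₁ N₂, ?_⟩
  intro N hN g hgd n₁ n₂ hn12 hnl x hx2 hxl hind u m r s t hu hm hr hs ht U hUN hU
  obtain ⟨h1, hN1⟩ := hN₂ N ((le_max_right _ _).trans hN)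
  simp only [Function.comp] at h1
  obtain ⟨z, hz⟩ : ∃ z : ℝ, z = (N : ℝ) ^ (ε / 4) := ⟨_, rfl⟩
  rw [← hz] at h1 hxl hu hm hgd hnl
  have hN0 : (0 : ℝ) < N := by exact_mod_cast hN1
  have hz4 : (N : ℝ) ^ ε = z ^ 4 := by
    rw [hz, ← Real.rpow_natCast, ← Real.rpow_mul hN0.le]
    congr 1
    push_cast
    ring
  have hk0 : (0 : ℝ) ≤ k := Nat.cast_nonneg k
  have hz1 : 1 ≤ z := by nlinarith [sq_nonneg (k : ℝ)]
  have hz0 : 0 < z := by linarith
  obtain ⟨a, ha⟩ : ∃ a : Fin k → ℤ, a = fun i => s i * (x i : ℤ) ^ u i := ⟨_, rfl⟩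
  have hx0 : ∀ i, (x i : ℤ) ≠ 0 := fun i => by
    have := hx2 i
    exact_mod_cast (by omega : x i ≠ 0)
  have hs0 : ∀ i, s i ≠ 0 := fun i => by rcases hs i with h | h <;> rw [h] <;> norm_num
  have hss : ∀ i, s i * s i = 1 := fun i => by rcases hs i with h | h <;> rw [h] <;> norm_num
  have ha0 : ∀ i, a i ≠ 0 := fun i => by
    rw [ha]
    exact mul_ne_zero (hs0 i) (pow_ne_zero _ (hx0 i))
  have hna : ∀ i, (a i).natAbs = x i ^ u i := by
    intro i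
    rw [ha]
    show (s i * (x i : ℤ) ^ u i).natAbs = _
    rw [Int.natAbs_mul, Int.natAbs_pow, Int.natAbs_natCast]
    rcases hs i with h | h <;> rw [h] <;> simp
  have hm' : ∀ i, 0 < m i := fun i => by have := (hm i).1; omega
  have hij : ∀ i j, i ≠ j → (a i).natAbs ^ m j ≠ (a j).natAbs ^ m i := by
    intro i j h
    rw [hna, hna, ← pow_mul, ← pow_mul]
    exact hind i j h _ _ (Nat.mul_pos (hu i).1 (hm' j)) (Nat.mul_pos (hu j).1 (hm' i))
  have hlog := log_bad m hm' a ha0 hij z (z * z) (fun i => (hm i).2) (fun i => by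
    rw [hna]
    push_cast
    rw [Real.log_pow]
    have h3 : 0 ≤ Real.log (x i) := Real.log_natCast_nonneg _
    exact mul_le_mul (hu i).2 (hxl i) h3 hz0.le) hz0.le (by positivity)
  have hb0 := bad_ne_zero m hm' a ha0 hij
  have hb1 : (bad m a).natAbs ≠ 0 := Int.natAbs_ne_zero.2 hb0
  have hb2 : (g.eval n₁ - g.eval n₂).natAbs ≠ 0 := Int.natAbs_ne_zero.2 (sub_ne_zero.2 hn12)
  have hb3 : (g.natDegree).factorial ≠ 0 := Nat.factorial_ne_zero _
  refine h N ((le_max_left _ _).trans hN) r (fun i => (hr i).1) (fun i => (hr i).2)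
    (fun i => (g ^ m i + C (a i) : ℤ[X])) ?_
    (fun i => s i * t i) ?_ ((bad m a).natAbs * (g.eval n₁ - g.eval n₂).natAbs *
      (g.natDegree).factorial) (mul_ne_zero (mul_ne_zero hb1 hb2) hb3) ?_ ?_ U hUN ?_
  · have h2 : ∀ i, (g ^ m i + C (a i) : ℤ[X]).natDegree ≤ m i * g.natDegree := fun i => by
      rw [natDegree_add_C]
      exact natDegree_pow_le
    rw [hz4]
    push_cast
    have h3 : ∀ i, (((g ^ m i + C (a i) : ℤ[X]).natDegree : ℕ) : ℝ) ≤ z * z := fun i => by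
      have h4 : (((g ^ m i + C (a i) : ℤ[X]).natDegree : ℕ) : ℝ) ≤ (m i : ℝ) * g.natDegree := by
        exact_mod_cast h2 i
      exact h4.trans (mul_le_mul (hm i).2 hgd (Nat.cast_nonneg _) hz0.le)
    calc ∑ i, (((g ^ m i + C (a i) : ℤ[X]).natDegree : ℕ) : ℝ) ≤ ∑ _i : Fin k, z * z :=
          Finset.sum_le_sum fun i _ => h3 i
      _ = k * (z * z) := by rw [Finset.sum_const, Finset.card_univ, Fintype.card_fin, nsmul_eq_mul]
      _ ≤ z * (z * z) := mul_le_mul_of_nonneg_right (by nlinarith [sq_nonneg (k : ℝ)])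
          (by positivity)
      _ ≤ z ^ 4 := by
        have : z ^ 3 ≤ z ^ 4 := pow_le_pow_right₀ hz1 (by norm_num)
        nlinarith
  · intro i
    rcases hs i with h | h <;> rcases ht i with h' | h' <;> rw [h, h'] <;> norm_num
  · rw [hz4]
    push_cast
    rw [Real.log_mul (mul_ne_zero (by exact_mod_cast hb1) (by exact_mod_cast hb2))
      (by exact_mod_cast hb3), Real.log_mul (by exact_mod_cast hb1) (by exact_mod_cast hb2)]
    have h2 : (1 + z) * (1 + z * z) ≤ 4 * z ^ 3 := by nlinarith [mul_pos hz0 hz0]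
    have h3 := log_factorial_le g.natDegree
    have h4 : (g.natDegree : ℝ) * g.natDegree ≤ z * z :=
      mul_le_mul hgd hgd (Nat.cast_nonneg _) hz0.le
    have h5 : ((k : ℝ) + k ^ 2) * ((1 + z) * (1 + z * z)) ≤ ((k : ℝ) + k ^ 2) * (4 * z ^ 3) :=
      mul_le_mul_of_nonneg_left h2 (by positivity)
    have h6 : z + z * z ≤ 2 * z ^ 3 := by nlinarith [mul_pos hz0 hz0]
    have h7 : (4 * ((k : ℝ) + k ^ 2) + 4) * z ^ 3 ≤ z * z ^ 3 :=
      mul_le_mul_of_nonneg_right h1 (by positivity)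
    have h8 : z * z ^ 3 = z ^ 4 := by ring
    have h9 : 0 < z ^ 3 := by positivity
    have e1 : Real.log ((bad m a).natAbs : ℝ) ≤ ((k : ℝ) + k ^ 2) * (4 * z ^ 3) := hlog.trans h5
    have e2 : Real.log ((g.eval n₁ - g.eval n₂).natAbs : ℝ) ≤ z := hnl
    have e3 : Real.log (((g.natDegree).factorial : ℕ) : ℝ) ≤ z * z := h3.trans h4
    linarith
  · intro l hl hdvd
    have hl' : l.Prime := hl.out
    refine simp_gen g m (fun i => (hm i).1) a l ?_ n₁ n₂ ?_ ?_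
    · by_contra h3
      push Not at h3
      exact hdvd (Dvd.dvd.mul_left ((hl'.dvd_factorial).2 h3) _)
    · intro h3
      exact hdvd (Dvd.dvd.mul_right (Dvd.dvd.mul_left (Int.natCast_dvd.1 h3) _) _)
    · intro h3
      exact hdvd (Dvd.dvd.mul_right (Dvd.dvd.mul_right (Int.natCast_dvd.1 h3) _) _)
  · intro y hy i
    obtain ⟨w, hw⟩ := hU y hy i
    refine ⟨w, ?_⟩
    rw [eval_add, eval_pow, eval_C, ha]
    show (g.eval (y : ℤ)) ^ m i + s i * (x i : ℤ) ^ u i = s i * t i * w ^ r i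
    linear_combination s i * hw - (g.eval (y : ℤ)) ^ m i * hss i

end Pool.Agent.Helper82.FC
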