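import Mathlib
import Pool.Agent.N741.PB.Tri

/-!
Three bases which are products of values of given polynomials.
-/

set_option autoImplicit false

namespace Pool.Agent.Helper82.FC

open Finset MvPolynomial Pool.Agent.N741.PB

/-- a product of powers -/
noncomputable def mon {m n : ℕ} (F : Fin m → MvPolynomial (Fin n) ℤ) (a : Fin m → ℕ) :
    MvPolynomial (Fin n) ℤ := ∏ i, F i ^ a i

lemma mon_eval {m n : ℕ} (F : Fin m → MvPolynomial (Fin n) ℤ) (a : Fin m → ℕ) (t : Fin n → ℤ) :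
    eval t (mon F a) = ∏ i, (eval t (F i)) ^ a i := by
  simp [mon, map_prod]

lemma mon_degree {m n : ℕ} (F : Fin m → MvPolynomial (Fin n) ℤ) (a : Fin m → ℕ) {M D : ℕ}
    (ha : ∀ i, a i ≤ M) (hF : ∀ i, (F i).totalDegree ≤ D) : (mon F a).totalDegree ≤ m * (M * D) := by
  unfold mon
  refine (totalDegree_finsetProd _ _).trans ?_
  calc ∑ i, (F i ^ a i).totalDegree ≤ ∑ _i : Fin m, M * D := by
        apply sum_le_sum
        intro i _
        exact (totalDegree_pow _ _).trans (Nat.mul_le_mul (ha i) (hF i))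
    _ = m * (M * D) := by simp

lemma mon_pos {m n : ℕ} (F : Fin m → MvPolynomial (Fin n) ℤ) (a : Fin m → ℕ)
    (h0 : mon F a ≠ 0) {i : Fin m} (hi : 0 < (F i).totalDegree) (ha : 0 < a i) :
    0 < (mon F a).totalDegree := by
  classical
  obtain ⟨k, hk⟩ : ∃ k, a i = k + 1 := ⟨a i - 1, by omega⟩
  have h1 : mon F a = F i * (F i ^ k * ∏ j ∈ univ.erase i, F j ^ a j) := by
    unfold mon
    rw [← mul_prod_erase univ _ (mem_univ i), hk, pow_succ]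
    ring
  rw [h1] at h0 ⊢
  have h2 := left_ne_zero_of_mul h0
  have h3 := right_ne_zero_of_mul h0
  rw [totalDegree_mul_of_isDomain h2 h3]
  omega

lemma mon_natAbs {m n : ℕ} (F : Fin m → MvPolynomial (Fin n) ℤ) (a : Fin m → ℕ) (t : Fin n → ℤ)
    {M S : ℕ} (ha : ∀ i, a i ≤ M) (hF : ∀ i, (eval t (F i)).natAbs ≤ 2 ^ S) :
    (eval t (mon F a)).natAbs ≤ 2 ^ (m * (M * S)) := by
  have h0 : (∏ i, (eval t (F i)) ^ a i).natAbs = ∏ i, ((eval t (F i)) ^ a i).natAbs :=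
    map_prod Int.natAbsHom _ _
  rw [mon_eval, h0]
  calc ∏ i, ((eval t (F i)) ^ a i).natAbs ≤ ∏ _i : Fin m, 2 ^ (M * S) := by
        apply prod_le_prod'
        intro i _
        rw [Int.natAbs_pow]
        calc (eval t (F i)).natAbs ^ a i ≤ (2 ^ S) ^ a i := Nat.pow_le_pow_left (hF i) _
          _ = 2 ^ (a i * S) := by rw [← pow_mul, mul_comm]
          _ ≤ 2 ^ (M * S) := Nat.pow_le_pow_right (by norm_num) (Nat.mul_le_mul_right _ (ha i))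
    _ = 2 ^ (m * (M * S)) := by rw [prod_const, card_univ, Fintype.card_fin, ← pow_mul, mul_comm]

/-- the exponents may be taken small -/
lemma reduce {m : ℕ} (x : Fin m → ℤ) (a : Fin m → ℕ) {S : ℕ} (hx : ∏ i, x i ^ a i ≠ 0)
    (hS : (∏ i, x i ^ a i).natAbs ≤ 2 ^ S) :
    ∃ b : Fin m → ℕ, (∀ i, b i ≤ S + 2) ∧ (∀ i, 0 < a i → 0 < b i) ∧
      ∏ i, x i ^ b i = ∏ i, x i ^ a i := by
  classical
  have hi : ∀ i, ∃ b : ℕ, b ≤ S + 2 ∧ (0 < a i → 0 < b) ∧ x i ^ b = x i ^ a i := by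
    intro i
    have h1 : x i ^ a i ≠ 0 := by
      intro h0
      exact hx (prod_eq_zero (mem_univ i) h0)
    rcases Nat.lt_or_ge (x i).natAbs 2 with h2 | h2
    · have h3 : (x i).natAbs = 0 ∨ (x i).natAbs = 1 := by omega
      rcases h3 with h3 | h3
      · have h4 : x i = 0 := Int.natAbs_eq_zero.mp h3
        have h5 : a i = 0 := by
          by_contra hne
          exact h1 (by rw [h4, zero_pow hne])
        exact ⟨0, by omega, by omega, by rw [h5]⟩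
      · have h4 : x i ^ 2 = 1 := by
          rcases Int.natAbs_eq_iff.mp h3 with h | h <;> rw [h] <;> norm_num
        rcases Nat.eq_zero_or_pos (a i) with h5 | h5
        · exact ⟨0, by omega, by omega, by rw [h5]⟩
        · refine ⟨2 - a i % 2, by omega, fun _ => by omega, ?_⟩
          obtain ⟨k, hk⟩ : ∃ k, a i = 2 * k + a i % 2 := ⟨a i / 2, by omega⟩
          have h6 : a i % 2 = 0 ∨ a i % 2 = 1 := by omega
          rcases h6 with h6 | h6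
          · rw [hk, h6]
            simp [pow_mul, h4]
          · rw [hk, h6]
            simp [pow_add, pow_mul, h4]
    · refine ⟨a i, ?_, fun h => h, rfl⟩
      have h3 : (x i ^ a i).natAbs ∣ (∏ i, x i ^ a i).natAbs :=
        Int.natAbs_dvd_natAbs.mpr (dvd_prod_of_mem _ (mem_univ i))
      have h4 := Nat.le_of_dvd (Int.natAbs_pos.mpr hx) h3
      rw [Int.natAbs_pow] at h4
      have h5 : 2 ^ a i ≤ 2 ^ S := (Nat.pow_le_pow_left h2 _).trans (h4.trans hS)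
      have := (Nat.pow_le_pow_iff_right (by norm_num : 1 < 2)).mp h5
      omega
  choose b hb1 hb2 hb3 using hi
  exact ⟨b, hb1, hb2, prod_congr rfl fun i _ => hb3 i⟩

/-- the numbers -/
lemma numbers (m C κ s : ℕ) (hs : 2 ≤ s) :
    ((s + 2 + 1) ^ m * ((s + 2 + 1) ^ m * (s + 2 + 1) ^ m)) *
      ((2 * (m * ((s + 2) * s)) + ((C * (m * ((s + 2) * s) + 2) ^ κ + 7) + 1) ^ 3 * 4 *
        ((C * (m * ((s + 2) * s) + 2) ^ κ + 7) * (m * ((s + 2) * s)))) + m * ((s + 2) * s)) ≤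
      (4 ^ m * (4 ^ m * 4 ^ m) * (6 * m + 8 * m * (C * (2 * m + 1) ^ κ + 8) ^ 4)) *
        s ^ (3 * m + (8 * κ + 2)) := by
  have h1 : (s + 2 + 1) ^ m ≤ 4 ^ m * s ^ m := by
    rw [← mul_pow]; exact Nat.pow_le_pow_left (by omega) m
  have h2 : m * ((s + 2) * s) ≤ 2 * m * s ^ 2 := by
    have : (s + 2) * s ≤ 2 * s ^ 2 := by nlinarith
    calc m * ((s + 2) * s) ≤ m * (2 * s ^ 2) := Nat.mul_le_mul_left _ this
      _ = 2 * m * s ^ 2 := by ring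
  have h3 : m * ((s + 2) * s) + 2 ≤ (2 * m + 1) * s ^ 2 := by nlinarith
  have h4 : C * (m * ((s + 2) * s) + 2) ^ κ + 7 + 1 ≤
      (C * (2 * m + 1) ^ κ + 8) * s ^ (2 * κ) := by
    have h5 : (m * ((s + 2) * s) + 2) ^ κ ≤ (2 * m + 1) ^ κ * s ^ (2 * κ) := by
      rw [pow_mul, ← mul_pow]
      exact Nat.pow_le_pow_left h3 κ
    have h6 : 1 ≤ s ^ (2 * κ) := Nat.one_le_pow _ _ (by omega)
    have h7 : C * (m * ((s + 2) * s) + 2) ^ κ ≤ C * ((2 * m + 1) ^ κ * s ^ (2 * κ)) :=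
      Nat.mul_le_mul_left _ h5
    nlinarith
  obtain ⟨B, hB⟩ : ∃ B, B = C * (m * ((s + 2) * s) + 2) ^ κ + 7 := ⟨_, rfl⟩
  obtain ⟨D, hD⟩ : ∃ D, D = m * ((s + 2) * s) := ⟨_, rfl⟩
  obtain ⟨β, hβ⟩ : ∃ β, β = C * (2 * m + 1) ^ κ + 8 := ⟨_, rfl⟩
  obtain ⟨q, hq⟩ : ∃ q, q = s ^ (2 * κ) := ⟨_, rfl⟩
  rw [← hB] at h4 ⊢
  rw [← hD] at h2 ⊢
  rw [← hβ] at h4 ⊢
  rw [← hq] at h4
  have hq1 : 1 ≤ q := by rw [hq]; exact Nat.one_le_pow _ _ (by omega)
  have h5 : (2 * D + (B + 1) ^ 3 * 4 * (B * D)) + D ≤ (6 * m + 8 * m * β ^ 4) * s ^ (8 * κ + 2) := by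
    have g1 : (B + 1) ^ 3 * 4 * (B * D) ≤ (β * q) ^ 3 * 4 * ((β * q) * (2 * m * s ^ 2)) := by
      gcongr
      omega
    have g2 : (β * q) ^ 3 * 4 * ((β * q) * (2 * m * s ^ 2)) = (8 * m * β ^ 4) * (q ^ 4 * s ^ 2) := by
      ring
    have g3 : q ^ 4 * s ^ 2 = s ^ (8 * κ + 2) := by
      rw [hq, ← pow_mul, ← pow_add]; congr 1; ring
    have g4 : s ^ 2 ≤ s ^ (8 * κ + 2) := Nat.pow_le_pow_right (by omega) (by omega)
    have g5 : 3 * D ≤ 6 * m * s ^ (8 * κ + 2) := by nlinarith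
    rw [g2, g3] at g1
    nlinarith
  calc ((s + 2 + 1) ^ m * ((s + 2 + 1) ^ m * (s + 2 + 1) ^ m)) *
        ((2 * D + (B + 1) ^ 3 * 4 * (B * D)) + D)
      ≤ ((4 ^ m * s ^ m) * ((4 ^ m * s ^ m) * (4 ^ m * s ^ m))) *
        ((6 * m + 8 * m * β ^ 4) * s ^ (8 * κ + 2)) := by gcongr
    _ = _ := by
      rw [pow_add s (3 * m), show 3 * m = m + m + m by ring, pow_add, pow_add]
      ring

theorem gen_box (m d K : ℕ) : ∃ C₀ e : ℕ, ∀ N : ℕ, 3 ≤ N →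
    ∀ F : Fin m → MvPolynomial (Fin (d + 1)) ℤ,
      (∀ i, ((F i).totalDegree : ℝ) ≤ Real.log N ^ K) →
      (∀ i, ∀ t : Fin (d + 1) → ℤ, (∀ j, |t j| ≤ (N : ℤ)) →
        |((eval t (F i) : ℤ) : ℝ)| ≤ Real.exp (Real.log N ^ K)) →
      ({t : Fin (d + 1) → ℤ | (∀ j, |t j| ≤ (N : ℤ)) ∧ ∃ a b c : Fin m → ℕ,
        (∃ i, 0 < (F i).totalDegree ∧ 0 < a i + b i + c i) ∧
        |((∏ i, eval t (F i) ^ a i : ℤ) : ℝ)| ≤ Real.exp (Real.log N ^ K) ∧
        |((∏ i, eval t (F i) ^ b i : ℤ) : ℝ)| ≤ Real.exp (Real.log N ^ K) ∧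
        |((∏ i, eval t (F i) ^ c i : ℤ) : ℝ)| ≤ Real.exp (Real.log N ^ K) ∧
        Tri (∏ i, eval t (F i) ^ a i) (∏ i, eval t (F i) ^ b i)
          (∏ i, eval t (F i) ^ c i)}.ncard : ℝ) ≤ C₀ * (N : ℝ) ^ d * Real.log N ^ e := by
  classical
  obtain ⟨C, κ, hC⟩ := exps_int
  refine ⟨3 ^ d * ((4 ^ m * (4 ^ m * 4 ^ m) * (6 * m + 8 * m * (C * (2 * m + 1) ^ κ + 8) ^ 4)) *
    5 ^ (3 * m + (8 * κ + 2))), K * (3 * m + (8 * κ + 2)), fun N hN F hdeg hval => ?_⟩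
  have hN3 : (3 : ℝ) ≤ N := by exact_mod_cast hN
  have hlog : 1 ≤ Real.log N := by
    rw [Real.le_log_iff_exp_le (by linarith)]
    have := Real.exp_one_lt_d9
    linarith
  obtain ⟨Λ, hΛ⟩ : ∃ Λ, Λ = Real.log N ^ K := ⟨_, rfl⟩
  have hΛ1 : 1 ≤ Λ := by rw [hΛ]; exact one_le_pow₀ hlog
  rw [← hΛ] at hdeg hval
  obtain ⟨s, hs⟩ : ∃ s : ℕ, s = ⌈2 * Λ⌉₊ := ⟨_, rfl⟩
  have hs1 : 2 * Λ ≤ s := by rw [hs]; exact Nat.le_ceil _
  have hs2 : (s : ℝ) ≤ 5 * Λ := by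
    rw [hs]
    have := Nat.ceil_lt_add_one (show 0 ≤ 2 * Λ by linarith)
    linarith
  have hs3 : 2 ≤ s := by
    have : (2 : ℝ) ≤ s := by linarith
    exact_mod_cast this
  have hE : Real.exp Λ ≤ ((2 ^ s : ℕ) : ℝ) := by
    have h4 : Λ ≤ (s : ℝ) * Real.log 2 := by
      have h5 := Real.log_two_gt_d9
      nlinarith
    calc Real.exp Λ ≤ Real.exp ((s : ℝ) * Real.log 2) := Real.exp_le_exp.mpr h4
      _ = (2 : ℝ) ^ s := by
        rw [mul_comm, Real.exp_mul, Real.exp_log (by norm_num), Real.rpow_natCast]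
      _ = _ := by push_cast; rfl
  have habs : ∀ x : ℤ, |(x : ℝ)| ≤ Real.exp Λ → x.natAbs ≤ 2 ^ s := by
    intro x hx
    have h6 : ((x.natAbs : ℕ) : ℝ) = |(x : ℝ)| := by
      rw [Nat.cast_natAbs, Int.cast_abs]
    have h7 := hx.trans hE
    rw [← h6] at h7
    exact_mod_cast h7
  have hdeg' : ∀ i, (F i).totalDegree ≤ s := fun i => by
    have : ((F i).totalDegree : ℝ) ≤ s := by linarith [hdeg i]
    exact_mod_cast this
  obtain ⟨U, hU⟩ : ∃ U : (Fin m → Fin (s + 2 + 1)) × (Fin m → Fin (s + 2 + 1)) ×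
      (Fin m → Fin (s + 2 + 1)) → Set (Fin (d + 1) → ℤ), U = fun j =>
      {t | (∀ i, |t i| ≤ (N : ℤ)) ∧ (0 < (mon F (fun i => (j.1 i : ℕ))).totalDegree ∨
        0 < (mon F (fun i => (j.2.1 i : ℕ))).totalDegree ∨
        0 < (mon F (fun i => (j.2.2 i : ℕ))).totalDegree) ∧
        Tri (eval t (mon F (fun i => (j.1 i : ℕ)))) (eval t (mon F (fun i => (j.2.1 i : ℕ))))
          (eval t (mon F (fun i => (j.2.2 i : ℕ))))} := ⟨_, rfl⟩
  obtain ⟨Q, hQ⟩ : ∃ Q : ℕ, Q = (2 * (m * ((s + 2) * s)) +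
      ((C * (m * ((s + 2) * s) + 2) ^ κ + 7) + 1) ^ 3 * 4 *
        ((C * (m * ((s + 2) * s) + 2) ^ κ + 7) * (m * ((s + 2) * s)))) + m * ((s + 2) * s) := ⟨_, rfl⟩
  have hUfin : ∀ j, (U j).Finite := by
    intro j
    rw [hU]
    exact box_finite _
  have hUc : ∀ j, ((U j).ncard : ℝ) ≤ (2 * N + 1) ^ d * Q := by
    intro j
    by_cases hpos : 0 < (mon F (fun i => (j.1 i : ℕ))).totalDegree ∨
        0 < (mon F (fun i => (j.2.1 i : ℕ))).totalDegree ∨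
        0 < (mon F (fun i => (j.2.2 i : ℕ))).totalDegree
    · have hb : ∀ (a : Fin m → Fin (s + 2 + 1)) (i : Fin m), (a i : ℕ) ≤ s + 2 := fun a i => by
        have := (a i).2
        omega
      have hd := fun a : Fin m → Fin (s + 2 + 1) =>
        mon_degree F (fun i => (a i : ℕ)) (hb a) hdeg'
      have hv := fun (a : Fin m → Fin (s + 2 + 1)) (t : Fin (d + 1) → ℤ)
        (ht : ∀ i, |t i| ≤ (N : ℤ)) => mon_natAbs F (fun i => (a i : ℕ)) t (hb a)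
          (fun i => habs _ (hval i t ht))
      have hle : 2 ^ (m * ((s + 2) * s)) ≤ 2 ^ (m * ((s + 2) * s) + 2) :=
        Nat.pow_le_pow_right (by norm_num) (by omega)
      have h1 := tri_box hC (mon F (fun i => (j.1 i : ℕ))) (mon F (fun i => (j.2.1 i : ℕ)))
        (mon F (fun i => (j.2.2 i : ℕ))) hpos (S := m * ((s + 2) * s) + 2) (N := N) (by omega)
        (hd j.1) (hd j.2.1) (hd j.2.2) rfl
        (fun t ht => ⟨(hv j.1 t ht).trans hle, (hv j.2.1 t ht).trans hle,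
          (hv j.2.2 t ht).trans hle⟩)
      refine le_trans ?_ (h1.trans (le_of_eq ?_))
      · have hsub : U j ⊆ {t : Fin (d + 1) → ℤ | (∀ i, |t i| ≤ (N : ℤ)) ∧
            Tri (eval t (mon F (fun i => (j.1 i : ℕ)))) (eval t (mon F (fun i => (j.2.1 i : ℕ))))
              (eval t (mon F (fun i => (j.2.2 i : ℕ))))} := by
          rw [hU]
          rintro t ⟨h2, -, h3⟩
          exact ⟨h2, h3⟩
        exact_mod_cast Set.ncard_le_ncard hsub (box_finite _)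
      · rw [hQ]
        push_cast
        ring
    · have : U j = ∅ := by
        rw [hU]
        ext t
        simp only [Set.mem_ofPred_eq, Set.mem_empty_iff_false, iff_false]
        rintro ⟨-, h2, -⟩
        exact hpos h2
      rw [this, Set.ncard_empty, Nat.cast_zero]
      positivity
  have hcov : {t : Fin (d + 1) → ℤ | (∀ j, |t j| ≤ (N : ℤ)) ∧ ∃ a b c : Fin m → ℕ,
        (∃ i, 0 < (F i).totalDegree ∧ 0 < a i + b i + c i) ∧
        |((∏ i, eval t (F i) ^ a i : ℤ) : ℝ)| ≤ Real.exp Λ ∧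
        |((∏ i, eval t (F i) ^ b i : ℤ) : ℝ)| ≤ Real.exp Λ ∧
        |((∏ i, eval t (F i) ^ c i : ℤ) : ℝ)| ≤ Real.exp Λ ∧
        Tri (∏ i, eval t (F i) ^ a i) (∏ i, eval t (F i) ^ b i) (∏ i, eval t (F i) ^ c i)} ⊆
      ⋃ j ∈ (univ : Finset ((Fin m → Fin (s + 2 + 1)) × (Fin m → Fin (s + 2 + 1)) ×
        (Fin m → Fin (s + 2 + 1)))), U j := by
    rintro t ⟨ht, a, b, c, ⟨i, hi, hpos⟩, ha, hb, hc, htri⟩
    obtain ⟨l, k, n, σ, τ, hsol⟩ := htri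
    obtain ⟨a', ha1, ha2, ha3⟩ := reduce (fun i => eval t (F i)) a hsol.a0 (habs _ ha)
    obtain ⟨b', hb1, hb2, hb3⟩ := reduce (fun i => eval t (F i)) b hsol.b0 (habs _ hb)
    obtain ⟨c', hc1, hc2, hc3⟩ := reduce (fun i => eval t (F i)) c hsol.c0 (habs _ hc)
    have ea : eval t (mon F a') = ∏ i, eval t (F i) ^ a i := by rw [mon_eval]; exact ha3
    have eb : eval t (mon F b') = ∏ i, eval t (F i) ^ b i := by rw [mon_eval]; exact hb3
    have ec : eval t (mon F c') = ∏ i, eval t (F i) ^ c i := by rw [mon_eval]; exact hc3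
    rw [Set.mem_iUnion₂]
    refine ⟨((fun i => ⟨a' i, by have := ha1 i; omega⟩), (fun i => ⟨b' i, by have := hb1 i; omega⟩),
      (fun i => ⟨c' i, by have := hc1 i; omega⟩)), mem_univ _, ?_⟩
    rw [hU]
    refine ⟨ht, ?_, ?_⟩
    · have hne : ∀ {x : Fin m → ℕ}, eval t (mon F x) ≠ 0 → mon F x ≠ 0 := by
        intro x hx h0
        exact hx (by rw [h0, map_zero])
      have h3 : 0 < a i ∨ 0 < b i ∨ 0 < c i := by omega
      rcases h3 with h3 | h3 | h3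
      · exact Or.inl (mon_pos F a' (hne (by rw [ea]; exact hsol.a0)) hi (ha2 i h3))
      · exact Or.inr (Or.inl (mon_pos F b' (hne (by rw [eb]; exact hsol.b0)) hi (hb2 i h3)))
      · exact Or.inr (Or.inr (mon_pos F c' (hne (by rw [ec]; exact hsol.c0)) hi (hc2 i h3)))
    · simp only
      rw [ea, eb, ec]
      exact ⟨l, k, n, σ, τ, hsol⟩
  rw [← hΛ]
  have hfinU : (⋃ j ∈ (univ : Finset ((Fin m → Fin (s + 2 + 1)) × (Fin m → Fin (s + 2 + 1)) ×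
        (Fin m → Fin (s + 2 + 1)))), U j).Finite :=
    (univ : Finset _).finite_toSet.biUnion fun j _ => hUfin j
  have h1 := (Set.ncard_le_ncard hcov hfinU).trans (Finset.set_ncard_biUnion_le _ _)
  have h2 : ((∑ j ∈ (univ : Finset ((Fin m → Fin (s + 2 + 1)) × (Fin m → Fin (s + 2 + 1)) ×
        (Fin m → Fin (s + 2 + 1)))), (U j).ncard : ℕ) : ℝ) ≤
      ((s + 2 + 1) ^ m * ((s + 2 + 1) ^ m * (s + 2 + 1) ^ m) : ℕ) * ((2 * N + 1) ^ d * Q) := by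
    push_cast
    calc ∑ j ∈ (univ : Finset ((Fin m → Fin (s + 2 + 1)) × (Fin m → Fin (s + 2 + 1)) ×
        (Fin m → Fin (s + 2 + 1)))), ((U j).ncard : ℝ) ≤ ∑ _j ∈ (univ : Finset ((Fin m →
          Fin (s + 2 + 1)) × (Fin m → Fin (s + 2 + 1)) × (Fin m → Fin (s + 2 + 1)))),
          ((2 * (N : ℝ) + 1) ^ d * Q) := sum_le_sum fun j _ => hUc j
      _ = _ := by
        rw [sum_const, card_univ, Fintype.card_prod, Fintype.card_prod, Fintype.card_fun,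
          Fintype.card_fin, Fintype.card_fin, nsmul_eq_mul]
        push_cast
        ring
  have h3 := numbers m C κ s hs3
  rw [← hQ] at h3
  obtain ⟨A, hA⟩ : ∃ A : ℕ, A = 4 ^ m * (4 ^ m * 4 ^ m) *
    (6 * m + 8 * m * (C * (2 * m + 1) ^ κ + 8) ^ 4) := ⟨_, rfl⟩
  obtain ⟨E, hE'⟩ : ∃ E : ℕ, E = 3 * m + (8 * κ + 2) := ⟨_, rfl⟩
  rw [← hA, ← hE'] at h3 ⊢
  have h3' : (((s + 2 + 1) ^ m * ((s + 2 + 1) ^ m * (s + 2 + 1) ^ m) : ℕ) : ℝ) * Q ≤
      A * (s : ℝ) ^ E := by exact_mod_cast h3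
  have h4 : (2 * (N : ℝ) + 1) ^ d ≤ 3 ^ d * (N : ℝ) ^ d := by
    rw [← mul_pow]
    exact pow_le_pow_left₀ (by positivity) (by linarith) d
  calc _ ≤ ((∑ j ∈ (univ : Finset ((Fin m → Fin (s + 2 + 1)) × (Fin m → Fin (s + 2 + 1)) ×
        (Fin m → Fin (s + 2 + 1)))), (U j).ncard : ℕ) : ℝ) := by exact_mod_cast h1
    _ ≤ _ := h2
    _ = (2 * (N : ℝ) + 1) ^ d * ((((s + 2 + 1) ^ m * ((s + 2 + 1) ^ m * (s + 2 + 1) ^ m) : ℕ) : ℝ) *
      Q) := by ring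
    _ ≤ (3 ^ d * (N : ℝ) ^ d) * (A * (5 * Λ) ^ E) := by
      have h5 : (s : ℝ) ^ E ≤ (5 * Λ) ^ E := pow_le_pow_left₀ (Nat.cast_nonneg _) hs2 E
      have h6 : (A : ℝ) * (s : ℝ) ^ E ≤ A * (5 * Λ) ^ E :=
        mul_le_mul_of_nonneg_left h5 (Nat.cast_nonneg _)
      exact mul_le_mul h4 (h3'.trans h6) (by positivity) (by positivity)
    _ = _ := by
      rw [mul_pow 5 Λ E, hΛ, ← pow_mul]
      push_cast
      ring

end Pool.Agent.Helper82.FC
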