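import Pool.Agent.Helper82.FC.Common

/-!
# Values with many partners in an arbitrary set
-/

set_option autoImplicit false

namespace Pool.Agent.Helper82.FC

open Polynomial Finset Filter Pool.Agent.N741.PB

theorem choose_low (a d k : ℕ) (θ : ℝ) (hθ : 0 ≤ θ) (h : (k : ℝ) - 1 + a * θ < d) :
    θ ^ k * (a.choose k : ℝ) ≤ (d.choose k : ℝ) := by
  have h1 : θ ^ k * (a.descFactorial k : ℝ) ≤ (d.descFactorial k : ℝ) := by
    rw [Nat.descFactorial_eq_prod_range, Nat.descFactorial_eq_prod_range]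
    push_cast
    rw [show θ ^ k = ∏ _i ∈ range k, θ by rw [prod_const, card_range], ← Finset.prod_mul_distrib]
    refine Finset.prod_le_prod (fun i _ => by positivity) fun i hi => ?_
    have hi' : i < k := mem_range.1 hi
    have h2 : ((a - i : ℕ) : ℝ) ≤ a := by exact_mod_cast Nat.sub_le a i
    have h3 : (d : ℝ) - i ≤ ((d - i : ℕ) : ℝ) := by
      have : d ≤ (d - i) + i := by omega
      have h4 : (d : ℝ) ≤ ((d - i : ℕ) : ℝ) + i := by exact_mod_cast this
      linarith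
    have h4 : (i : ℝ) + 1 ≤ k := by exact_mod_cast hi'
    have h5 := mul_le_mul_of_nonneg_left h2 hθ
    linarith
  rw [Nat.descFactorial_eq_factorial_mul_choose, Nat.descFactorial_eq_factorial_mul_choose] at h1
  push_cast at h1
  have hk : (0 : ℝ) < (k.factorial : ℝ) := by exact_mod_cast k.factorial_pos
  have h2 : (k.factorial : ℝ) * (θ ^ k * (a.choose k : ℝ)) ≤ (k.factorial : ℝ) * (d.choose k) := by
    calc _ = θ ^ k * ((k.factorial : ℝ) * (a.choose k : ℝ)) := by ring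
      _ ≤ _ := h1
  exact le_of_mul_le_mul_left h2 hk

open Classical in
/-- double counting -/
theorem double_count (k : ℕ) (A : Finset ℕ) (Y : Finset ℤ) (rel : ℕ → ℤ → Prop) (t θ : ℝ)
    (hθ : 0 < θ) (ht : 0 ≤ t)
    (hcom : ∀ S : Finset ℕ, S ⊆ A → S.card = k →
      ((Y.filter fun n => ∀ x ∈ S, rel x n).card : ℝ) ≤ t)
    (hY : ∀ n ∈ Y, (k : ℝ) - 1 + A.card * θ < ((A.filter fun x => rel x n).card : ℝ)) :
    (Y.card : ℝ) * θ ^ k ≤ t := by
  rcases Y.eq_empty_or_nonempty with h0 | ⟨n0, hn0⟩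
  · rw [h0, card_empty, Nat.cast_zero, zero_mul]
    exact ht
  · have hA : k ≤ A.card := by
      by_contra hlt
      have h1 := hY n0 hn0
      have h2 : ((A.filter fun x => rel x n0).card : ℝ) ≤ A.card := by
        exact_mod_cast Finset.card_filter_le _ _
      have h3 : (A.card : ℝ) ≤ k - 1 := by
        have : A.card + 1 ≤ k := by omega
        have h4 : (A.card : ℝ) + 1 ≤ k := by exact_mod_cast this
        linarith
      have h4 : 0 ≤ (A.card : ℝ) * θ := by positivity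
      linarith
    have hch : (0 : ℝ) < (A.card.choose k : ℝ) := by exact_mod_cast Nat.choose_pos hA
    have h1 : ∑ n ∈ Y, ((powersetCard k A).filter fun S => ∀ x ∈ S, rel x n).card =
        ∑ S ∈ powersetCard k A, (Y.filter fun n => ∀ x ∈ S, rel x n).card :=
      Finset.sum_card_bipartiteAbove_eq_sum_card_bipartiteBelow
        (fun (n : ℤ) (S : Finset ℕ) => ∀ x ∈ S, rel x n)
    have h2 : ∀ n ∈ Y, θ ^ k * (A.card.choose k : ℝ) ≤
        (((powersetCard k A).filter fun S => ∀ x ∈ S, rel x n).card : ℝ) := by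
      intro n hn
      have h3 : ((powersetCard k A).filter fun S => ∀ x ∈ S, rel x n) =
          powersetCard k (A.filter fun x => rel x n) := by
        ext S
        rw [mem_filter, mem_powersetCard, mem_powersetCard]
        constructor
        · rintro ⟨⟨h4, h5⟩, h6⟩
          exact ⟨fun x hx => mem_filter.2 ⟨h4 hx, h6 x hx⟩, h5⟩
        · rintro ⟨h4, h5⟩
          exact ⟨⟨fun x hx => (mem_filter.1 (h4 hx)).1, h5⟩, fun x hx => (mem_filter.1 (h4 hx)).2⟩
      rw [h3, card_powersetCard]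
      exact choose_low _ _ k θ hθ.le (hY n hn)
    have h3 : (Y.card : ℝ) * (θ ^ k * (A.card.choose k : ℝ)) ≤ (A.card.choose k : ℝ) * t := by
      calc (Y.card : ℝ) * (θ ^ k * (A.card.choose k : ℝ)) =
            ∑ _n ∈ Y, θ ^ k * (A.card.choose k : ℝ) := by rw [Finset.sum_const, nsmul_eq_mul]
        _ ≤ ∑ n ∈ Y, (((powersetCard k A).filter fun S => ∀ x ∈ S, rel x n).card : ℝ) :=
            Finset.sum_le_sum h2
        _ = ∑ S ∈ powersetCard k A, ((Y.filter fun n => ∀ x ∈ S, rel x n).card : ℝ) := by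
            exact_mod_cast h1
        _ ≤ ∑ _S ∈ powersetCard k A, t := Finset.sum_le_sum fun S hS => by
            rw [mem_powersetCard] at hS
            exact hcom S hS.1 hS.2
        _ = _ := by rw [Finset.sum_const, nsmul_eq_mul, card_powersetCard]
    have h4 : (A.card.choose k : ℝ) * ((Y.card : ℝ) * θ ^ k) ≤ (A.card.choose k : ℝ) * t := by
      linarith
    exact le_of_mul_le_mul_left h4 hch

open Classical in
/-- **values of a polynomial with many partners in an arbitrary set** -/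
theorem many (k : ℕ) (δ : ℝ) (hδ : 0 < δ) : ∃ c : ℝ, 0 < c ∧ ∃ N₀ : ℕ, ∀ N : ℕ, N₀ ≤ N →
    ∀ g : ℤ[X], 0 < g.natDegree → (g.natDegree : ℝ) ≤ (N : ℝ) ^ c →
    (∀ n : ℤ, |n| ≤ N → |((g.eval n : ℤ) : ℝ)| ≤ Real.exp ((N : ℝ) ^ c)) → ∀ A : Finset ℕ,
    (∀ x ∈ A, 2 ≤ x ∧ (x : ℝ) ≤ Real.exp ((N : ℝ) ^ c)) →
    (∀ x ∈ A, ∀ y ∈ A, x ≠ y → ∀ a b : ℕ, 0 < a → 0 < b → x ^ a ≠ y ^ b) → ∀ Y : Finset ℤ,
    (∀ n ∈ Y, |n| ≤ N ∧ (k : ℝ) - 1 + A.card * (N : ℝ) ^ (-c) <
      ((A.filter fun x => Part (Real.exp ((N : ℝ) ^ c)) x (g.eval n)).card : ℝ)) →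
      (Y.card : ℝ) ≤ (N : ℝ) ^ (1 / (2 : ℝ) ^ k + δ) := by
  obtain ⟨c1, hc1, N₁, h⟩ := common k (δ / 2) (by positivity)
  obtain ⟨c, hc⟩ : ∃ c : ℝ, c = min c1 (δ / (2 * (k + 1))) := ⟨_, rfl⟩
  have hc0 : 0 < c := by rw [hc]; exact lt_min hc1 (by positivity)
  have hcc1 : c ≤ c1 := by rw [hc]; exact min_le_left _ _
  have hk0 : (0 : ℝ) ≤ k := Nat.cast_nonneg k
  have hck : c * k ≤ δ / 2 := by
    have h1 : c ≤ δ / (2 * (k + 1)) := by rw [hc]; exact min_le_right _ _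
    rw [le_div_iff₀ (by positivity)] at h1
    nlinarith
  refine ⟨c, hc0, max N₁ 1, ?_⟩
  intro N hN g hg0 hgd hgv A hA hind Y hY
  have hN1 : 1 ≤ N := (le_max_right _ _).trans hN
  have hN0 : (0 : ℝ) < N := by exact_mod_cast hN1
  have hN1' : (1 : ℝ) ≤ N := by exact_mod_cast hN1
  have hcc : (N : ℝ) ^ c ≤ (N : ℝ) ^ c1 := Real.rpow_le_rpow_of_exponent_le hN1' hcc1
  have hee : Real.exp ((N : ℝ) ^ c) ≤ Real.exp ((N : ℝ) ^ c1) := Real.exp_le_exp.2 hcc
  have hdc := double_count k A Y (fun x n => Part (Real.exp ((N : ℝ) ^ c)) x (g.eval n))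
    ((N : ℝ) ^ (1 / (2 : ℝ) ^ k + δ / 2)) ((N : ℝ) ^ (-c)) (by positivity) (by positivity) ?_
    (fun n hn => (hY n hn).2)
  · have h1 : ((N : ℝ) ^ (-c)) ^ k = (N : ℝ) ^ (-(c * k)) := by
      rw [← Real.rpow_natCast, ← Real.rpow_mul hN0.le]
      ring_nf
    rw [h1, Real.rpow_neg hN0.le, ← div_eq_mul_inv, div_le_iff₀ (by positivity),
      ← Real.rpow_add hN0] at hdc
    refine hdc.trans (Real.rpow_le_rpow_of_exponent_le hN1' (by linarith))
  · intro S hS hSc
    have hx : ∀ i : Fin k, S.orderEmbOfFin hSc i ∈ S := fun i => Finset.orderEmbOfFin_mem S hSc i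
    refine h N ((le_max_left _ _).trans hN) g hg0 (hgd.trans hcc) (fun n hn => (hgv n hn).trans hee)
      (fun i => S.orderEmbOfFin hSc i) (fun i => ?_) (fun i j hij => ?_) _ (fun n hn => ?_)
    · have := hA _ (hS (hx i))
      exact ⟨this.1, this.2.trans hee⟩
    · exact hind _ (hS (hx i)) _ (hS (hx j)) fun he => hij ((S.orderEmbOfFin hSc).injective he)
    · rw [mem_filter] at hn
      refine ⟨(hY n hn.1).1, fun i => ?_⟩
      obtain ⟨d, l, m, e, s, t, hI, hd⟩ := hn.2 _ (hx i)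
      exact ⟨d, l, m, e, s, t, hI, hd.trans hee⟩

end Pool.Agent.Helper82.FC
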