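import Pool.Agent.Helper82.FC.Cls
import Pool.Agent.Helper153.FacF
import Pool.Agent.Helper601.Mertens

/-!
# The larger sieve: integers of an interval at which several polynomials are powers
-/

set_option autoImplicit false

namespace Pool.Agent.Helper82.FC

open Polynomial Finset Filter

theorem wt_pos {ι : Type} [Fintype ι] (r : ι → ℕ) (hr : ∀ i, (r i).Prime) (l : ℕ) : 0 < wt r l := by
  unfold wt
  refine Finset.prod_pos fun i _ => ?_
  split_ifs
  · exact (hr i).pos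
  · exact one_pos

theorem wt_le {k : ℕ} (r : Fin k → ℕ) (R : ℕ) (hR : ∀ i, r i < R) (l : ℕ) :
    wt r l ≤ (R + 1) ^ k := by
  unfold wt
  calc (∏ i : Fin k, if r i ∣ l - 1 then r i else 1) ≤ ∏ _i : Fin k, (R + 1) := by
        refine Finset.prod_le_prod' fun i _ => ?_
        have := hR i
        split_ifs <;> omega
    _ = (R + 1) ^ k := by simp

theorem log_prime_div_nonneg (l : ℕ) : 0 ≤ Real.log l / l :=
  div_nonneg (Real.log_natCast_nonneg l) (Nat.cast_nonneg l)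

theorem bad_primes (E : ℕ) (hE : E ≠ 0) (X : ℝ) (hX : 0 < X) :
    ∑ l ∈ E.primeFactors.filter (fun l : ℕ => X < l), Real.log l / l ≤ Real.log E / X := by
  have h1 : ∀ l ∈ E.primeFactors.filter (fun l : ℕ => X < l), Real.log l / l ≤ Real.log l / X := by
    intro l hl
    rw [mem_filter] at hl
    exact div_le_div_of_nonneg_left (Real.log_natCast_nonneg l) hX hl.2.le
  refine (Finset.sum_le_sum h1).trans ?_
  rw [← Finset.sum_div]
  refine div_le_div_of_nonneg_right ?_ hX.le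
  calc ∑ l ∈ E.primeFactors.filter (fun l : ℕ => X < l), Real.log l ≤
        ∑ l ∈ E.primeFactors, Real.log l :=
        Finset.sum_le_sum_of_subset_of_nonneg (Finset.filter_subset _ _)
          fun l _ _ => Real.log_natCast_nonneg l
    _ = Real.log (∏ l ∈ E.primeFactors, l : ℕ) := by
        push_cast
        rw [Real.log_prod]
        intro l hl
        exact_mod_cast (Nat.prime_of_mem_primeFactors hl).ne_zero
    _ ≤ Real.log E := by
        refine Real.log_le_log ?_ ?_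
        · exact_mod_cast Finset.prod_pos fun l hl => (Nat.prime_of_mem_primeFactors hl).pos
        · exact_mod_cast Nat.le_of_dvd (Nat.pos_of_ne_zero hE) (Nat.prod_primeFactors_dvd E)

/-- the lower bound for the sum of the larger sieve -/
theorem sum_low {k : ℕ} (r : Fin k → ℕ) (R : ℕ) (hR : ∀ i, r i < R)
    (κ C C1 : ℝ) (hC : ∀ Q : ℕ, 1 ≤ Q → κ * Real.log Q - C ≤
      ∑ p ∈ (Icc 1 Q).filter Nat.Prime, (wt r p : ℝ) * (Real.log p / p))
    (hC1 : ∀ N : ℕ, 1 ≤ N →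
      |∑ p ∈ (Finset.Icc 1 N).filter Nat.Prime, Real.log p / p - Real.log N| ≤ C1)
    (E : ℕ) (hE : E ≠ 0) (Q M : ℕ) (hQ : 1 ≤ Q) (hM : 1 ≤ M) :
    κ * Real.log Q - C - ((R : ℝ) + 1) ^ k * (Real.log M + C1) -
        ((R : ℝ) + 1) ^ k * (Real.log E / M) ≤
      ∑ p ∈ (Icc 1 Q).filter (fun p => p.Prime ∧ M < p ∧ ¬ p ∣ E),
        (wt r p : ℝ) * (Real.log p / p) := by
  classical
  have hB : ∀ l : ℕ, (wt r l : ℝ) ≤ ((R : ℝ) + 1) ^ k := fun l => by
    exact_mod_cast wt_le r R hR l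
  have hB0 : (0 : ℝ) ≤ ((R : ℝ) + 1) ^ k := by positivity
  have h1 := hC Q hQ
  have hterm : ∀ p : ℕ, 0 ≤ (wt r p : ℝ) * (Real.log p / p) := fun p =>
    mul_nonneg (Nat.cast_nonneg _) (log_prime_div_nonneg p)
  have hsub : (Icc 1 Q).filter Nat.Prime ⊆
      ((Icc 1 Q).filter (fun p => p.Prime ∧ M < p ∧ ¬ p ∣ E)) ∪
        (((Icc 1 M).filter Nat.Prime) ∪ (E.primeFactors.filter (fun l : ℕ => (M : ℝ) < l))) := by
    intro p hp
    rw [mem_filter, mem_Icc] at hp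
    rw [mem_union, mem_union, mem_filter, mem_filter, mem_filter, mem_Icc, mem_Icc,
      Nat.mem_primeFactors]
    by_cases h2 : p ≤ M
    · right; left; exact ⟨⟨hp.1.1, h2⟩, hp.2⟩
    · by_cases h3 : p ∣ E
      · right; right
        exact ⟨⟨hp.2, h3, hE⟩, by exact_mod_cast not_le.1 h2⟩
      · left
        exact ⟨hp.1, hp.2, not_le.1 h2, h3⟩
  have h2 := Finset.sum_le_sum_of_subset_of_nonneg hsub (f := fun p : ℕ =>
    (wt r p : ℝ) * (Real.log p / p)) fun p _ _ => hterm p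
  have hun : ∀ A B : Finset ℕ, ∑ p ∈ A ∪ B, (wt r p : ℝ) * (Real.log p / p) ≤
      ∑ p ∈ A, (wt r p : ℝ) * (Real.log p / p) + ∑ p ∈ B, (wt r p : ℝ) * (Real.log p / p) := by
    intro A B
    rw [← Finset.sum_union_inter]
    have : 0 ≤ ∑ p ∈ A ∩ B, (wt r p : ℝ) * (Real.log p / p) :=
      Finset.sum_nonneg fun p _ => hterm p
    linarith
  have h3 := hun ((Icc 1 Q).filter (fun p => p.Prime ∧ M < p ∧ ¬ p ∣ E))
    (((Icc 1 M).filter Nat.Prime) ∪ (E.primeFactors.filter (fun l : ℕ => (M : ℝ) < l)))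
  have h4 := hun ((Icc 1 M).filter Nat.Prime) (E.primeFactors.filter (fun l : ℕ => (M : ℝ) < l))
  have hle : ∀ A : Finset ℕ, ∑ p ∈ A, (wt r p : ℝ) * (Real.log p / p) ≤
      ((R : ℝ) + 1) ^ k * ∑ p ∈ A, Real.log p / p := by
    intro A
    rw [Finset.mul_sum]
    exact Finset.sum_le_sum fun p _ => mul_le_mul_of_nonneg_right (hB p) (log_prime_div_nonneg p)
  have h5 : ∑ p ∈ (Icc 1 M).filter Nat.Prime, (wt r p : ℝ) * (Real.log p / p) ≤
      ((R : ℝ) + 1) ^ k * (Real.log M + C1) := by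
    refine (hle _).trans (mul_le_mul_of_nonneg_left ?_ hB0)
    have := (abs_le.1 (hC1 M hM)).2
    linarith
  have h6 : ∑ p ∈ E.primeFactors.filter (fun l : ℕ => (M : ℝ) < l),
      (wt r p : ℝ) * (Real.log p / p) ≤ ((R : ℝ) + 1) ^ k * (Real.log E / M) := by
    refine (hle _).trans (mul_le_mul_of_nonneg_left ?_ hB0)
    exact bad_primes E hE M (by exact_mod_cast hM)
  linarith

/-- one prime of the larger sieve -/
theorem one_prime {k : ℕ} (P : Fin k → ℤ[X]) (r : Fin k → ℕ)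
    (hr : ∀ i, (r i).Prime) (R : ℕ) (hR : ∀ i, r i < R) (c : Fin k → ℤ)
    (hc : ∀ i, c i = 1 ∨ c i = -1) (U : Finset ℕ) (hUn : U.Nonempty)
    (hU : ∀ y ∈ U, ∀ i, ∃ w : ℤ, (P i).eval (y : ℤ) = c i * w ^ r i) (l : ℕ) [hlF : Fact l.Prime]
    (hS : Simp (red P l)) (D η : ℝ) (hD : ((∑ i, (P i).natDegree : ℕ) : ℝ) ≤ D)
    (hbig : 3 * (((R : ℝ) + 1) ^ k) ^ 2 * D ≤ η * Real.sqrt l) :
    (wt r l : ℝ) * (Real.log l / l) ≤
      (1 + η) * ((ArithmeticFunction.vonMangoldt l : ℝ) / ((U.image fun y => y % l).card : ℕ)) := by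
  have hl : l.Prime := hlF.out
  have h1 := cls P r hr c hc U hU l hS
  rw [ArithmeticFunction.vonMangoldt_apply_prime hl]
  have hl0 : (0 : ℝ) < l := by exact_mod_cast hl.pos
  have hsq : Real.sqrt l * Real.sqrt l = l := Real.mul_self_sqrt hl0.le
  have hs0 : 0 < Real.sqrt l := Real.sqrt_pos.2 hl0
  obtain ⟨ν, hν⟩ : ∃ ν : ℝ, ν = ((U.image fun y => y % l).card : ℕ) := ⟨_, rfl⟩
  rw [← hν] at h1 ⊢
  have hν0 : 0 < ν := by
    rw [hν]
    exact_mod_cast (hUn.image _).card_pos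
  obtain ⟨T, hT⟩ : ∃ T : ℝ, T = wt r l := ⟨_, rfl⟩
  rw [← hT] at h1 ⊢
  have hT0 : 0 < T := by rw [hT]; exact_mod_cast wt_pos r hr l
  have hTB : T ≤ ((R : ℝ) + 1) ^ k := by rw [hT]; exact_mod_cast wt_le r R hR l
  have hD0 : 0 ≤ ((∑ i, (P i).natDegree : ℕ) : ℝ) := Nat.cast_nonneg _
  have h2 : ν * T ≤ (1 + η) * l := by
    have e1 : ((l : ℝ) / T + 3 * T * (∑ i, (P i).natDegree : ℕ) * Real.sqrt l) * T =
        l + 3 * T ^ 2 * (∑ i, (P i).natDegree : ℕ) * Real.sqrt l := by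
      field_simp
    have e2 := mul_le_mul_of_nonneg_right h1 hT0.le
    rw [e1] at e2
    have e3 : 3 * T ^ 2 * ((∑ i, (P i).natDegree : ℕ) : ℝ) ≤ η * Real.sqrt l := by
      refine le_trans ?_ hbig
      have : T ^ 2 ≤ (((R : ℝ) + 1) ^ k) ^ 2 := pow_le_pow_left₀ hT0.le hTB 2
      exact mul_le_mul (mul_le_mul_of_nonneg_left this (by norm_num)) hD hD0 (by positivity)
    have e4 := mul_le_mul_of_nonneg_right e3 hs0.le
    rw [mul_assoc η, hsq] at e4
    linarith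
  have hlog : 0 ≤ Real.log l := Real.log_natCast_nonneg l
  rw [mul_div_assoc', mul_div_assoc', div_le_div_iff₀ hl0 hν0]
  calc T * Real.log l * ν = Real.log l * (ν * T) := by ring
    _ ≤ Real.log l * ((1 + η) * l) := mul_le_mul_of_nonneg_left h2 hlog
    _ = _ := by ring

theorem sum_vonMangoldt_le (Q : ℕ) (p : ℕ → Prop) [DecidablePred p] :
    ∑ l ∈ (Icc 1 Q).filter (fun l => l.Prime ∧ p l), (ArithmeticFunction.vonMangoldt l : ℝ) ≤
      2 * Q := by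
  have h1 : ∑ l ∈ (Icc 1 Q).filter (fun l => l.Prime ∧ p l),
      (ArithmeticFunction.vonMangoldt l : ℝ) ≤ Chebyshev.theta (Q : ℝ) := by
    rw [Chebyshev.theta_eq_sum_Icc, Nat.floor_natCast]
    rw [Finset.sum_congr rfl fun l hl => ArithmeticFunction.vonMangoldt_apply_prime
      (mem_filter.1 hl).2.1]
    refine Finset.sum_le_sum_of_subset_of_nonneg ?_ fun l _ _ => Real.log_natCast_nonneg l
    intro l hl
    rw [mem_filter, mem_Icc] at hl ⊢
    exact ⟨⟨Nat.zero_le _, hl.1.2⟩, hl.2.1⟩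
  have h2 := Chebyshev.theta_le_log4_mul_x (x := (Q : ℝ)) (Nat.cast_nonneg Q)
  have h3 : Real.log 4 ≤ 2 := by
    have : Real.log 4 = 2 * Real.log 2 := by
      rw [show (4 : ℝ) = 2 ^ 2 by norm_num, Real.log_pow]; norm_num
    have := Real.log_two_lt_d9
    linarith
  have h4 : (0 : ℝ) ≤ Q := Nat.cast_nonneg Q
  nlinarith

/-- **integers of an interval at which several polynomials are powers** -/
theorem sieve_core (k R : ℕ) (δ : ℝ) (hδ : 0 < δ) : ∃ ε : ℝ, 0 < ε ∧ ∃ N₀ : ℕ, ∀ N : ℕ, N₀ ≤ N →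
    ∀ r : Fin k → ℕ, (∀ i, (r i).Prime) → (∀ i, r i < R) →
    ∀ P : Fin k → ℤ[X],
    ((∑ i, (P i).natDegree : ℕ) : ℝ) ≤ (N : ℝ) ^ ε →
    ∀ c : Fin k → ℤ, (∀ i, c i = 1 ∨ c i = -1) →
    ∀ E : ℕ, E ≠ 0 → Real.log E ≤ (N : ℝ) ^ ε →
    (∀ (l : ℕ) [Fact l.Prime], ¬ l ∣ E → Simp (red P l)) →
    ∀ U : Finset ℕ, (∀ u ∈ U, ∀ v ∈ U, (u : ℝ) ≤ v + N) →
    (∀ y ∈ U, ∀ i, ∃ w : ℤ, (P i).eval (y : ℤ) = c i * w ^ r i) →
      (U.card : ℝ) ≤ (N : ℝ) ^ (1 / (2 : ℝ) ^ k + δ) := by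
  classical
  obtain ⟨K, hK⟩ : ∃ K : ℝ, K = 2 ^ k := ⟨_, rfl⟩
  have hK1 : 1 ≤ K := by rw [hK]; exact one_le_pow₀ (by norm_num)
  have hK0 : 0 < K := by linarith
  obtain ⟨s, hs⟩ : ∃ s : ℝ, s = K * δ := ⟨_, rfl⟩
  have hs0 : 0 < s := by rw [hs]; positivity
  obtain ⟨α, hα⟩ : ∃ α : ℝ, α = 1 / K + δ / 2 := ⟨_, rfl⟩
  have hα0 : 0 < α := by rw [hα]; positivity
  have hKα : K * α = 1 + s / 2 := by
    rw [hα, hs]
    field_simp
  obtain ⟨κ, hκ⟩ : ∃ κ : ℝ, κ = K * (1 + s / 4) / (1 + s / 2) := ⟨_, rfl⟩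
  have hκα : κ * α = 1 + s / 4 := by
    rw [hκ, div_mul_eq_mul_div, mul_right_comm, hKα]
    field_simp
  have hκ0 : 0 ≤ κ := by rw [hκ]; positivity
  have hκK : κ < 2 ^ Fintype.card (Fin k) := by
    rw [Fintype.card_fin, ← hK, hκ, div_lt_iff₀ (by positivity)]
    nlinarith
  obtain ⟨η, hη⟩ : ∃ η : ℝ, η = (s / 8) / (1 + s / 8) := ⟨_, rfl⟩
  have hη0 : 0 < η := by rw [hη]; positivity
  have hη1 : η ≤ 1 := by rw [hη, div_le_one (by positivity)]; linarith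
  have hηs : (1 + η) * (1 + s / 8) = 1 + s / 4 := by
    rw [hη]
    field_simp
    ring
  obtain ⟨B, hB⟩ : ∃ B : ℝ, B = ((R : ℝ) + 1) ^ k := ⟨_, rfl⟩
  have hB1 : 1 ≤ B := by
    rw [hB]
    exact one_le_pow₀ (by have : (0 : ℝ) ≤ R := Nat.cast_nonneg R
                          linarith)
  have hB0 : 0 < B := by linarith
  obtain ⟨ε, hε⟩ : ∃ ε : ℝ, ε = s / (64 * B) := ⟨_, rfl⟩
  have hε0 : 0 < ε := by rw [hε]; positivity
  have hεB : 4 * ε * B = s / 16 := by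
    rw [hε]
    field_simp
    ring
  obtain ⟨C1, hC1⟩ := Pool.Agent.Helper601.Mertens.mertens_log
  have hmw : ∀ r : Fin k → ℕ, ∃ C : ℝ, (∀ i, (r i).Prime) → ∀ Q : ℕ, 1 ≤ Q → κ * Real.log Q - C ≤
      ∑ p ∈ (Icc 1 Q).filter Nat.Prime, (wt r p : ℝ) * (Real.log p / p) := by
    intro r
    by_cases hr : ∀ i, (r i).Prime
    · obtain ⟨C, hC⟩ := mert_weight r hr κ hκ0 hκK
      exact ⟨C, fun _ => hC⟩
    · exact ⟨0, fun h => absurd h hr⟩
  choose Cf hCf using hmw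
  obtain ⟨C, hCd⟩ : ∃ C : ℝ, C = ∑ r ∈ Fintype.piFinset (fun _ : Fin k => range R), |Cf r| :=
    ⟨_, rfl⟩
  -- large `N`
  have hxt := tendsto_natCast_atTop_atTop (R := ℝ)
  have e1 := ((tendsto_rpow_atTop hε0).comp hxt).eventually_ge_atTop (3 * B ^ 2 / η)
  have e2 := ((tendsto_rpow_atTop (show 0 < 3 * ε by positivity)).comp hxt).eventually_ge_atTop
    (2 * B)
  have e3 := (Real.tendsto_log_atTop.comp hxt).eventually_ge_atTop
    ((κ + C + B * C1 + 3) / (s / 16))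
  have e4 := ((tendsto_rpow_atTop (show 0 < δ / 2 by positivity)).comp hxt).eventually_ge_atTop 2
  obtain ⟨N₀, hN₀⟩ := eventually_atTop.1 (e1.and (e2.and (e3.and (e4.and (eventually_ge_atTop 2)))))
  refine ⟨ε, hε0, N₀, ?_⟩
  intro N hN r hr hR P hPd c hc E hE hEl hS U hUN hU
  obtain ⟨h1, h2, h3, h4, hN2⟩ := hN₀ N hN
  simp only [Function.comp] at h1 h2 h3 h4
  obtain ⟨x, hx⟩ : ∃ x : ℝ, x = N := ⟨_, rfl⟩
  rw [← hx] at h1 h2 h3 h4 hPd hEl ⊢
  have hx2 : 2 ≤ x := by rw [hx]; exact_mod_cast hN2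
  have hx0 : 0 < x := by linarith
  rw [div_le_iff₀ hη0] at h1
  rw [div_le_iff₀ (by positivity)] at h3
  rcases U.eq_empty_or_nonempty with rfl | hne
  · simp only [Finset.card_empty, Nat.cast_zero]
    positivity
  obtain ⟨Q, hQ⟩ : ∃ Q : ℕ, Q = ⌊x ^ α⌋₊ := ⟨_, rfl⟩
  obtain ⟨M, hM⟩ : ∃ M : ℕ, M = ⌊x ^ (4 * ε)⌋₊ := ⟨_, rfl⟩
  have hxa : 1 ≤ x ^ α := Real.one_le_rpow (by linarith) hα0.le
  have hx4 : 1 ≤ x ^ (4 * ε) := Real.one_le_rpow (by linarith) (by positivity)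
  have hQ1 : 1 ≤ Q := by rw [hQ]; exact Nat.one_le_floor_iff _ |>.2 hxa
  have hM1 : 1 ≤ M := by rw [hM]; exact Nat.one_le_floor_iff _ |>.2 hx4
  have hQle : (Q : ℝ) ≤ x ^ α := by rw [hQ]; exact Nat.floor_le (by positivity)
  have hMle : (M : ℝ) ≤ x ^ (4 * ε) := by rw [hM]; exact Nat.floor_le (by positivity)
  have hQge : x ^ α / 2 ≤ Q := by
    have := Nat.lt_floor_add_one (x ^ α)
    rw [← hQ] at this
    have h5 : (1 : ℝ) ≤ Q := by exact_mod_cast hQ1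
    linarith
  have hMge : x ^ (4 * ε) / 2 ≤ M := by
    have := Nat.lt_floor_add_one (x ^ (4 * ε))
    rw [← hM] at this
    have h5 : (1 : ℝ) ≤ M := by exact_mod_cast hM1
    linarith
  obtain ⟨L, hL⟩ : ∃ L : ℝ, L = Real.log x := ⟨_, rfl⟩
  rw [← hL] at h3
  have hL0 : 0 ≤ L := by rw [hL]; exact Real.log_nonneg (by linarith)
  have hlogQ : α * L - 1 ≤ Real.log Q := by
    have h5 := Real.log_le_log (by positivity) hQge
    rw [Real.log_div (by positivity) (by norm_num), Real.log_rpow hx0, ← hL] at h5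
    have := Real.log_two_lt_d9
    linarith
  have hlogM : Real.log M ≤ 4 * ε * L := by
    have h5 := Real.log_le_log (by exact_mod_cast hM1) hMle
    rwa [Real.log_rpow hx0, ← hL] at h5
  have hlogE : B * (Real.log E / M) ≤ 1 := by
    have hM0 : (0 : ℝ) < M := by exact_mod_cast hM1
    rw [mul_div_assoc', div_le_one hM0]
    refine le_trans ?_ hMge
    have e5 : x ^ (4 * ε) = x ^ (3 * ε) * x ^ ε := by
      rw [← Real.rpow_add hx0]
      ring_nf
    have e6 : B * Real.log E ≤ B * x ^ ε := mul_le_mul_of_nonneg_left hEl hB0.le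
    have e7 : 2 * B * x ^ ε ≤ x ^ (3 * ε) * x ^ ε :=
      mul_le_mul_of_nonneg_right h2 (by positivity)
    rw [e5]
    linarith
  have hCr : Cf r ≤ C := by
    rw [hCd]
    refine (le_abs_self _).trans (Finset.single_le_sum (f := fun r => |Cf r|)
      (fun _ _ => abs_nonneg _) ?_)
    rw [Fintype.mem_piFinset]
    exact fun i => mem_range.2 (hR i)
  have hlow := sum_low r R hR κ (Cf r) C1 (hCf r hr) hC1 E hE Q M hQ1 hM1
  rw [← hB] at hlow
  obtain ⟨PP, hPP⟩ : ∃ PP : Finset ℕ,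
      PP = (Icc 1 Q).filter (fun p => p.Prime ∧ M < p ∧ ¬ p ∣ E) := ⟨_, rfl⟩
  rw [← hPP] at hlow
  obtain ⟨W0, hW0⟩ : ∃ W0 : ℝ, W0 = ∑ p ∈ PP,
    (ArithmeticFunction.vonMangoldt p : ℝ) / ((U.image fun y => y % p).card : ℕ) := ⟨_, rfl⟩
  have hup : ∑ p ∈ PP, (wt r p : ℝ) * (Real.log p / p) ≤ (1 + η) * W0 := by
    rw [hW0, Finset.mul_sum]
    refine Finset.sum_le_sum fun p hp => ?_
    rw [hPP, mem_filter] at hp
    have : Fact p.Prime := ⟨hp.2.1⟩
    refine one_prime P r hr R hR c hc U hne hU p (hS p hp.2.2.2) (x ^ ε) η hPd ?_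
    rw [← hB]
    have h5 : x ^ (4 * ε) ≤ p := by
      have h6 : x ^ (4 * ε) < (M : ℝ) + 1 := by rw [hM]; exact Nat.lt_floor_add_one _
      have h7 : (M : ℝ) + 1 ≤ p := by exact_mod_cast hp.2.2.1
      linarith
    have h6 : x ^ (2 * ε) ≤ Real.sqrt p := by
      apply Real.le_sqrt_of_sq_le
      refine le_trans (le_of_eq ?_) h5
      rw [← Real.rpow_natCast, ← Real.rpow_mul hx0.le]
      congr 1
      push_cast
      ring
    calc 3 * B ^ 2 * x ^ ε ≤ (x ^ ε * η) * x ^ ε :=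
          mul_le_mul_of_nonneg_right h1 (by positivity)
      _ = η * x ^ (2 * ε) := by
          rw [show 2 * ε = ε + ε by ring, Real.rpow_add hx0]
          ring
      _ ≤ _ := mul_le_mul_of_nonneg_left h6 hη0.le
  have hbig : L + 1 ≤ W0 := by
    have h5 : (1 + η) * (L + 1) ≤ (1 + η) * W0 := by
      refine le_trans ?_ hup
      refine le_trans ?_ hlow
      have h6 : κ * (α * L - 1) ≤ κ * Real.log Q := mul_le_mul_of_nonneg_left hlogQ hκ0
      have h7 : B * (Real.log M + C1) ≤ B * (4 * ε * L + C1) :=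
        mul_le_mul_of_nonneg_left (by linarith) hB0.le
      have h8 : κ * (α * L - 1) = (1 + η) * (1 + s / 8) * L - κ := by
        rw [hηs, ← hκα]
        ring
      have h9 : B * (4 * ε * L + C1) = s / 16 * L + B * C1 := by
        rw [← hεB]
        ring
      have h10 : 0 ≤ η * (s / 8) * L := by positivity
      nlinarith
    exact le_of_mul_le_mul_left h5 (by linarith)
  have hls := Pool.Agent.Helper153.Siv.larger_sieve U x (by linarith)
    (by rw [hx]; exact hUN) PP (fun p => (U.image fun y => y % p).card)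
    (fun p hp => ⟨by
      rw [hPP, mem_filter] at hp
      exact hp.2.1.pos, le_rfl⟩)
    (by rw [← hL, ← hW0]; exact hbig)
  have h5 := sum_vonMangoldt_le Q (fun p => M < p ∧ ¬ p ∣ E)
  rw [← hPP] at h5
  calc (U.card : ℝ) ≤ 2 * Q := hls.trans h5
    _ ≤ x ^ (δ / 2) * x ^ α := mul_le_mul h4 hQle (Nat.cast_nonneg _) (by positivity)
    _ = x ^ (1 / (2 : ℝ) ^ k + δ) := by
        rw [← Real.rpow_add hx0, hα, hK]
        congr 1
        ring

end Pool.Agent.Helper82.FC
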